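import Pool.Agent.H85.DC.LosA
import Pool.Agent.H85.DC.Defs2

/-!
# MP_6873ef_an, block T: the loss without energy hypothesis (helper76). Definitions

Everything is written in the notation of `Pool.Agent.H85.DC` (helper85): `V = ℂ³`, `N`, `ip`, `tau`, `cr`, `eta F`,
`wv F`, `pr F`, `IsCur`, `DdcClosed`, `Loss`, `En`, `Kr`.
-/

open MeasureTheory Filter Topology
open scoped ContDiff BigOperators ComplexConjugate Matrix

namespace FT76

open Pool.Agent.H85.DC

/-- the bilinear pairing of `ℂ³` -/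
noncomputable def bp (a b : V) : ℂ := ∑ j, a j * b j

/-- the derivative of the polynomial `f` at `y` in the direction `v` -/
noncomputable def dP (f : MvPolynomial (Fin 3) ℂ) (y v : V) : ℂ :=
  ∑ i, v i * MvPolynomial.eval y (MvPolynomial.pderiv i f)

/-- the derivative of the vector field at `y` in the direction `v` -/
noncomputable def dZ (F : Fin 3 → MvPolynomial (Fin 3) ℂ) (y v : V) : V := fun j => dP (F j) y v

/-- the derivative of `eta F = cr y (Zf F y)` at `y` in the direction `v` -/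
noncomputable def dEta (F : Fin 3 → MvPolynomial (Fin 3) ℂ) (y v : V) : V :=
  cr v (Zf F y) + cr y (dZ F y v)

/-- the unit conormal -/
noncomputable def nv (F : Fin 3 → MvPolynomial (Fin 3) ℂ) (y : V) : V :=
  ((Real.sqrt (N (eta F y)))⁻¹ : ℂ) • eta F y

/-- the unit vector orthogonal to `y` and to the foliation -/
noncomputable def tv (F : Fin 3 → MvPolynomial (Fin 3) ℂ) (y : V) : V := fun j => conj (nv F y j)

/-- squared curvature of the leaf -/
noncomputable def IIq (F : Fin 3 → MvPolynomial (Fin 3) ℂ) (y : V) : ℝ :=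
  N (cr (dEta F y (wv F y)) (eta F y)) / (N (eta F y)) ^ 2

/-- squared transverse derivative of the direction field -/
noncomputable def Kq (F : Fin 3 → MvPolynomial (Fin 3) ℂ) (y : V) : ℝ :=
  N (cr (dEta F y (tv F y)) (eta F y)) / (N (eta F y)) ^ 2

/-- logarithmic growth of the transverse energy -/
def EK (F : Fin 3 → MvPolynomial (Fin 3) ℂ) (P : Finset V) (μ : Measure V) : Prop :=
  ∃ C : ℝ, 0 ≤ C ∧ ∀ r : ℝ, 0 < r → r < 1 →
    ∫⁻ y in Kr P r, ENNReal.ofReal (Kq F y) ∂μ ≤ ENNReal.ofReal (C * (1 + Real.log (1 / r)))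

/-- the main part of the loss at the scale `ε` -/
noncomputable def L1 (F : Fin 3 → MvPolynomial (Fin 3) ℂ) (μ μ' : Measure V) (P : Finset V) (r ε : ℝ) : ENNReal :=
  ∫⁻ y in Kr P r, ∫⁻ y', ENNReal.ofReal (ε⁻¹ ^ 4 * Kq F y * Complex.normSq (bp (nv F y') y) *
    Real.exp (-(tau y y') / (8 * ε ^ 2))) ∂μ' ∂μ

/-- the secondary part of the loss at the scale `ε` -/
noncomputable def Q2 (F : Fin 3 → MvPolynomial (Fin 3) ℂ) (μ μ' : Measure V) (ε : ℝ) : ENNReal :=
  ∫⁻ y, ∫⁻ y', ENNReal.ofReal (ε⁻¹ ^ 2 * (1 + IIq F y) * Real.exp (-(tau y y') / (16 * ε ^ 2))) ∂μ' ∂μ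

end FT76
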