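import Pool.Agent.H76.FT.Defs

/-!
# Row TA: first derivatives of the conormal field

`dP f y v = ∑ v_i ∂_i f(y)`.  Facts (all elementary):
1. `dP_hasDeriv`: polynomial functions are complex differentiable and the derivative of `t ↦ eval (y + t v) f` is `dP f (y + t v) v` (induction on f, or
   `MvPolynomial.induction_on`: constants, sums, products with X i; `MvPolynomial.pderiv` is a derivation).
2. `dP_euler`: f homogeneous of degree d: `dP f y y = d * eval y f` (Mathlib: `MvPolynomial.IsHomogeneous.sum_X_mul_pderiv` or differentiate `eval (t y) f = t^d eval y f`).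
3. `dEta_euler`: `dEta F y y = (d+1) • eta F y`: `cr y (Zf F y) + cr y (d • Zf F y)`, `eta_cr`.
4. `dEta_lin`: additivity and homogeneity in v (`cr_add_left`, `cr` is bilinear; expand coordinates).
5. `dEta_bdd`: for `N y = 1`: `N (dEta F y v) ≤ C * N v` (coefficients bounded on the compact unit sphere; the entries of `dEta F y v` are sums of `v_i` times polynomials in y).
6. `eta_taylor`: for unit `y, y'`: `N (eta F y' - eta F y - dEta F y (y' - y)) ≤ C * (N (y' - y))^2`.
   For a polynomial f: |f(y') - f(y) - dP f y (y'-y)| ≤ C |y'-y|^2 on the ball |y_i| <= 1: induction on f: true for constants and coordinates (error 0), sums;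
   product f * X i: f(y') y'_i - f(y) y_i - (dP f y v) y_i - f(y) v_i = (f(y') - f(y) - dP f y v) y_i + (f(y') - f(y)) v_i, the last |..| <= C|v||v_i| by the Lipschitz property
   (which is part of the induction).  The components of `eta F` are evaluations of `X i * F j - X j * F i`, and `dEta` are the `dP` of these.
7. basis: for unit y with eta ≠ 0 the vectors y, w = wv F y, t = tv F y are orthonormal (`wv_unit`, `wv_orth`; `nv F y = cr y w` (`wv_cr`), so bp (nv) y = 0, bp (nv) w = 0 (determinants with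
   two equal rows), `ip v t = ∑ v_j nv_j = bp (nv F y) v`; N nv = 1).  Hence `v = ip v y • y + ip v w • w + ip v t • t` and `N v = |ip v y|^2 + |ip v w|^2 + |ip v t|^2`.
   Direct proof: the 3 × 3 matrix with rows y, w, t is unitary (`Matrix.mem_unitaryGroup_iff`): U U^* = 1 hence U^* U = 1.
8. measurability of `nv F`, `IIq F`, `Kq F` (continuous functions divided by `√N`, `measurable_wv`).
-/

open MeasureTheory Filter Topology
open scoped ContDiff BigOperators ComplexConjugate Matrix

namespace FT76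

open Pool.Agent.H85.DC

theorem TA_dP_C (a : ℂ) (y v : V) : dP (MvPolynomial.C a) y v = 0 := by
  unfold dP
  simp

theorem TA_dP_addf (f g : MvPolynomial (Fin 3) ℂ) (y v : V) :
    dP (f + g) y v = dP f y v + dP g y v := by
  unfold dP
  simp only [map_add, mul_add, Finset.sum_add_distrib]

theorem TA_dP_subf (f g : MvPolynomial (Fin 3) ℂ) (y v : V) :
    dP (f - g) y v = dP f y v - dP g y v := by
  unfold dP
  simp only [map_sub, mul_sub, Finset.sum_sub_distrib]

theorem TA_dP_mulf (f g : MvPolynomial (Fin 3) ℂ) (y v : V) :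
    dP (f * g) y v = dP f y v * MvPolynomial.eval y g + MvPolynomial.eval y f * dP g y v := by
  unfold dP
  rw [Finset.sum_mul, Finset.mul_sum, ← Finset.sum_add_distrib]
  refine Finset.sum_congr rfl fun i _ => ?_
  rw [MvPolynomial.pderiv_mul, map_add, map_mul, map_mul]
  ring

theorem TA_dP_X (i : Fin 3) (y v : V) : dP (MvPolynomial.X i) y v = v i := by
  classical
  unfold dP
  rw [Finset.sum_eq_single i]
  · simp
  · intro j _ hj
    rw [MvPolynomial.pderiv_X_of_ne (Ne.symm hj)]
    simp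
  · intro h
    exact absurd (Finset.mem_univ i) h

theorem dP_hasDeriv (f : MvPolynomial (Fin 3) ℂ) (y v : V) (t : ℂ) :
    HasDerivAt (fun t : ℂ => MvPolynomial.eval (y + t • v) f) (dP f (y + t • v) v) t := by
  induction f using MvPolynomial.induction_on with
  | C a =>
    simp only [MvPolynomial.eval_C, TA_dP_C]
    exact hasDerivAt_const t a
  | add p q hp hq =>
    simp only [map_add, TA_dP_addf]
    exact hp.add hq
  | mul_X p i hp =>
    simp only [map_mul, MvPolynomial.eval_X, TA_dP_mulf, TA_dP_X]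
    have h1 : HasDerivAt (fun t : ℂ => (y + t • v) i) (v i) t := by
      simp only [Pi.add_apply, Pi.smul_apply, smul_eq_mul]
      have := ((hasDerivAt_id t).mul_const (v i)).const_add (y i)
      simpa using this
    exact hp.mul h1

theorem dP_euler {f : MvPolynomial (Fin 3) ℂ} {d : ℕ} (hf : f.IsHomogeneous d) (y : V) :
    dP f y y = d * MvPolynomial.eval y f := by
  have h := hf.sum_X_mul_pderiv
  have h2 := congrArg (MvPolynomial.eval y) h
  simp only [map_sum, map_mul, MvPolynomial.eval_X, map_nsmul, nsmul_eq_mul] at h2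
  unfold dP
  rw [h2]
  try simp

theorem dP_add (f : MvPolynomial (Fin 3) ℂ) (y v v' : V) : dP f y (v + v') = dP f y v + dP f y v' := by
  unfold dP
  simp only [Pi.add_apply, add_mul, Finset.sum_add_distrib]

theorem dP_smul (f : MvPolynomial (Fin 3) ℂ) (c : ℂ) (y v : V) : dP f y (c • v) = c * dP f y v := by
  unfold dP
  simp only [Pi.smul_apply, smul_eq_mul, Finset.mul_sum]
  exact Finset.sum_congr rfl fun i _ => by ring

noncomputable def TA_Q (F : Fin 3 → MvPolynomial (Fin 3) ℂ) : Fin 3 → MvPolynomial (Fin 3) ℂ :=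
  ![MvPolynomial.X 1 * F 2 - MvPolynomial.X 2 * F 1, MvPolynomial.X 2 * F 0 - MvPolynomial.X 0 * F 2,
    MvPolynomial.X 0 * F 1 - MvPolynomial.X 1 * F 0]

theorem TA_Q_eta (F : Fin 3 → MvPolynomial (Fin 3) ℂ) (y : V) (j : Fin 3) :
    eta F y j = MvPolynomial.eval y (TA_Q F j) := by
  unfold eta TA_Q Zf
  fin_cases j <;> simp

theorem TA_Q_dEta (F : Fin 3 → MvPolynomial (Fin 3) ℂ) (y v : V) (j : Fin 3) :
    dEta F y v j = dP (TA_Q F j) y v := by
  unfold dEta cr TA_Q Zf dZ
  fin_cases j <;> simp [TA_dP_subf, TA_dP_mulf, TA_dP_X] <;> ring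

/-- the components of `eta F` are polynomials whose derivatives are the components of `dEta F` -/
theorem eta_poly {F : Fin 3 → MvPolynomial (Fin 3) ℂ} {d : ℕ} (hF : ∀ j, (F j).IsHomogeneous d) :
    ∃ Q : Fin 3 → MvPolynomial (Fin 3) ℂ, (∀ j, (Q j).IsHomogeneous (d + 1)) ∧
      (∀ y j, eta F y j = MvPolynomial.eval y (Q j)) ∧ ∀ y v j, dEta F y v j = dP (Q j) y v := by
  refine ⟨TA_Q F, ?_, TA_Q_eta F, TA_Q_dEta F⟩
  have h : ∀ i j, (MvPolynomial.X i * F j).IsHomogeneous (d + 1) := fun i j => by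
    have := (MvPolynomial.isHomogeneous_X ℂ i).mul (hF j)
    rwa [add_comm] at this
  intro j
  unfold TA_Q
  fin_cases j
  · exact (h 1 2).sub (h 2 1)
  · exact (h 2 0).sub (h 0 2)
  · exact (h 0 1).sub (h 1 0)

theorem dEta_euler {F : Fin 3 → MvPolynomial (Fin 3) ℂ} {d : ℕ} (hF : ∀ j, (F j).IsHomogeneous d) (y : V) :
    dEta F y y = ((d : ℂ) + 1) • eta F y := by
  obtain ⟨Q, hQ, h1, h2⟩ := eta_poly hF
  funext j
  rw [h2, dP_euler (hQ j), Pi.smul_apply, h1, smul_eq_mul]
  push_cast
  ring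

theorem dEta_add (F : Fin 3 → MvPolynomial (Fin 3) ℂ) (y v v' : V) : dEta F y (v + v') = dEta F y v + dEta F y v' := by
  funext j
  rw [Pi.add_apply, TA_Q_dEta, TA_Q_dEta, TA_Q_dEta, dP_add]

theorem dEta_smul (F : Fin 3 → MvPolynomial (Fin 3) ℂ) (c : ℂ) (y v : V) : dEta F y (c • v) = c • dEta F y v := by
  funext j
  rw [Pi.smul_apply, TA_Q_dEta, TA_Q_dEta, dP_smul, smul_eq_mul]

theorem TA_norm_le {y : V} (hy : N y = 1) : ‖y‖ ≤ 1 := by
  have := norm_sq_le_N y
  rw [hy] at this
  nlinarith [norm_nonneg y]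

theorem TA_poly_bdd (p : MvPolynomial (Fin 3) ℂ) :
    ∃ C : ℝ, 0 ≤ C ∧ ∀ y : V, N y = 1 → ‖MvPolynomial.eval y p‖ ≤ C := by
  obtain ⟨C, hC⟩ := compact_sphere.exists_bound_of_continuousOn
    (f := fun y : V => MvPolynomial.eval y p) (MvPolynomial.continuous_eval p).continuousOn
  exact ⟨|C|, abs_nonneg _, fun y hy => (hC y hy).trans (le_abs_self C)⟩

theorem TA_dP_bdd (p : MvPolynomial (Fin 3) ℂ) :
    ∃ C : ℝ, 0 ≤ C ∧ ∀ y v : V, N y = 1 → Complex.normSq (dP p y v) ≤ C * N v := by
  choose C hC0 hC using fun i => TA_poly_bdd (MvPolynomial.pderiv i p)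
  refine ⟨∑ i, C i ^ 2, Finset.sum_nonneg fun i _ => sq_nonneg _, ?_⟩
  intro y v hy
  have h1 := Lin_csv v (fun i => MvPolynomial.eval y (MvPolynomial.pderiv i p))
  have h2 : N (fun i => MvPolynomial.eval y (MvPolynomial.pderiv i p)) ≤ ∑ i, C i ^ 2 := by
    unfold N
    refine Finset.sum_le_sum fun i _ => ?_
    rw [Complex.normSq_eq_norm_sq]
    exact pow_le_pow_left₀ (norm_nonneg _) (hC i y hy) 2
  unfold dP
  refine h1.trans ?_
  rw [mul_comm]
  exact mul_le_mul_of_nonneg_right h2 (N_nonneg v)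

theorem dEta_bdd (F : Fin 3 → MvPolynomial (Fin 3) ℂ) :
    ∃ C : ℝ, 0 < C ∧ ∀ y v : V, N y = 1 → N (dEta F y v) ≤ C * N v := by
  choose C hC0 hC using fun j => TA_dP_bdd (TA_Q F j)
  have hs : 0 ≤ ∑ j, C j := Finset.sum_nonneg fun j _ => hC0 j
  refine ⟨∑ j, C j + 1, by linarith, ?_⟩
  intro y v hy
  have h1 : N (dEta F y v) ≤ ∑ j, C j * N v := by
    unfold N
    refine Finset.sum_le_sum fun j _ => ?_
    rw [TA_Q_dEta]
    exact hC j y v hy
  rw [← Finset.sum_mul] at h1
  have := N_nonneg v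
  nlinarith

theorem TA_taylor (p : MvPolynomial (Fin 3) ℂ) : ∃ C : ℝ, 0 ≤ C ∧
    (∀ y : V, ‖y‖ ≤ 1 → ‖MvPolynomial.eval y p‖ ≤ C) ∧
    (∀ y y' : V, ‖y‖ ≤ 1 → ‖y'‖ ≤ 1 →
      ‖MvPolynomial.eval y' p - MvPolynomial.eval y p‖ ≤ C * ‖y' - y‖) ∧
    (∀ y y' : V, ‖y‖ ≤ 1 → ‖y'‖ ≤ 1 →
      ‖MvPolynomial.eval y' p - MvPolynomial.eval y p - dP p y (y' - y)‖ ≤ C * ‖y' - y‖ ^ 2) := by
  induction p using MvPolynomial.induction_on with
  | C a =>
    refine ⟨‖a‖, norm_nonneg _, fun y _ => by simp, fun y y' _ _ => ?_, fun y y' _ _ => ?_⟩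
    · simp only [MvPolynomial.eval_C, sub_self, norm_zero]
      positivity
    · simp only [MvPolynomial.eval_C, sub_self, TA_dP_C, norm_zero]
      positivity
  | add p q hp hq =>
    obtain ⟨C, hC, h1, h2, h3⟩ := hp
    obtain ⟨D, hD, k1, k2, k3⟩ := hq
    refine ⟨C + D, by positivity, fun y hy => ?_, fun y y' hy hy' => ?_, fun y y' hy hy' => ?_⟩
    · rw [map_add]
      exact (norm_add_le _ _).trans (add_le_add (h1 y hy) (k1 y hy))
    · rw [map_add, map_add, add_sub_add_comm, add_mul]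
      exact (norm_add_le _ _).trans (add_le_add (h2 y y' hy hy') (k2 y y' hy hy'))
    · rw [map_add, map_add, TA_dP_addf, add_mul]
      have e : MvPolynomial.eval y' p + MvPolynomial.eval y' q -
          (MvPolynomial.eval y p + MvPolynomial.eval y q) - (dP p y (y' - y) + dP q y (y' - y)) =
          (MvPolynomial.eval y' p - MvPolynomial.eval y p - dP p y (y' - y)) +
          (MvPolynomial.eval y' q - MvPolynomial.eval y q - dP q y (y' - y)) := by ring
      rw [e]
      exact (norm_add_le _ _).trans (add_le_add (h3 y y' hy hy') (k3 y y' hy hy'))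
  | mul_X p i hp =>
    obtain ⟨C, hC, h1, h2, h3⟩ := hp
    have hco : ∀ z : V, ‖z‖ ≤ 1 → ‖z i‖ ≤ 1 := fun z hz => (norm_le_pi_norm z i).trans hz
    refine ⟨2 * C, by positivity, fun y hy => ?_, fun y y' hy hy' => ?_, fun y y' hy hy' => ?_⟩
    · rw [map_mul, MvPolynomial.eval_X, norm_mul]
      have := hco y hy
      nlinarith [h1 y hy, norm_nonneg (y i), norm_nonneg (MvPolynomial.eval y p)]
    · rw [map_mul, map_mul, MvPolynomial.eval_X, MvPolynomial.eval_X]
      have e : MvPolynomial.eval y' p * y' i - MvPolynomial.eval y p * y i =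
          (MvPolynomial.eval y' p - MvPolynomial.eval y p) * y' i +
            MvPolynomial.eval y p * ((y' - y) i) := by
        simp only [Pi.sub_apply]; ring
      rw [e]
      refine (norm_add_le _ _).trans ?_
      rw [norm_mul, norm_mul]
      have a1 := hco y' hy'
      have a2 : ‖(y' - y) i‖ ≤ ‖y' - y‖ := norm_le_pi_norm (y' - y) i
      have a3 := h2 y y' hy hy'
      have a4 := h1 y hy
      have b1 : ‖MvPolynomial.eval y' p - MvPolynomial.eval y p‖ * ‖y' i‖ ≤ C * ‖y' - y‖ * 1 := by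
        gcongr
      have b2 : ‖MvPolynomial.eval y p‖ * ‖(y' - y) i‖ ≤ C * ‖y' - y‖ := by
        gcongr
      linarith
    · rw [map_mul, map_mul, MvPolynomial.eval_X, MvPolynomial.eval_X, TA_dP_mulf, TA_dP_X,
        MvPolynomial.eval_X]
      have e : MvPolynomial.eval y' p * y' i - MvPolynomial.eval y p * y i -
          (dP p y (y' - y) * y i + MvPolynomial.eval y p * (y' - y) i) =
          (MvPolynomial.eval y' p - MvPolynomial.eval y p - dP p y (y' - y)) * y i +
            (MvPolynomial.eval y' p - MvPolynomial.eval y p) * ((y' - y) i) := by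
        simp only [Pi.sub_apply]; ring
      rw [e]
      refine (norm_add_le _ _).trans ?_
      rw [norm_mul, norm_mul]
      have a1 := hco y hy
      have a2 : ‖(y' - y) i‖ ≤ ‖y' - y‖ := norm_le_pi_norm (y' - y) i
      have a3 := h2 y y' hy hy'
      have a4 := h3 y y' hy hy'
      have b1 : ‖MvPolynomial.eval y' p - MvPolynomial.eval y p - dP p y (y' - y)‖ * ‖y i‖ ≤
          C * ‖y' - y‖ ^ 2 * 1 := by
        gcongr
      have b2 : ‖MvPolynomial.eval y' p - MvPolynomial.eval y p‖ * ‖(y' - y) i‖ ≤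
          (C * ‖y' - y‖) * ‖y' - y‖ := by
        gcongr
      nlinarith

theorem eta_taylor {F : Fin 3 → MvPolynomial (Fin 3) ℂ} {d : ℕ} (hF : ∀ j, (F j).IsHomogeneous d) :
    ∃ C : ℝ, 0 < C ∧ ∀ y y' : V, N y = 1 → N y' = 1 →
      N (eta F y' - eta F y - dEta F y (y' - y)) ≤ C * (N (y' - y)) ^ 2 := by
  choose C hC0 hC1 hC2 hC3 using fun j => TA_taylor (TA_Q F j)
  have hs : 0 ≤ ∑ j, C j ^ 2 := Finset.sum_nonneg fun j _ => sq_nonneg _
  refine ⟨∑ j, C j ^ 2 + 1, by linarith, ?_⟩
  intro y y' hy hy'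
  have hn := TA_norm_le hy
  have hn' := TA_norm_le hy'
  have h4 := norm_sq_le_N (y' - y)
  have h1 : N (eta F y' - eta F y - dEta F y (y' - y)) ≤ ∑ j, C j ^ 2 * (N (y' - y)) ^ 2 := by
    unfold N
    refine Finset.sum_le_sum fun j _ => ?_
    have e : (eta F y' - eta F y - dEta F y (y' - y)) j = MvPolynomial.eval y' (TA_Q F j) -
        MvPolynomial.eval y (TA_Q F j) - dP (TA_Q F j) y (y' - y) := by
      rw [Pi.sub_apply, Pi.sub_apply, TA_Q_eta, TA_Q_eta, TA_Q_dEta]
    rw [e, Complex.normSq_eq_norm_sq]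
    have h5 := hC3 j y y' hn hn'
    calc ‖MvPolynomial.eval y' (TA_Q F j) - MvPolynomial.eval y (TA_Q F j) -
          dP (TA_Q F j) y (y' - y)‖ ^ 2 ≤ (C j * ‖y' - y‖ ^ 2) ^ 2 :=
          pow_le_pow_left₀ (norm_nonneg _) h5 2
      _ = C j ^ 2 * (‖y' - y‖ ^ 2) ^ 2 := by ring
      _ ≤ C j ^ 2 * (N (y' - y)) ^ 2 := by
          apply mul_le_mul_of_nonneg_left _ (sq_nonneg _)
          exact pow_le_pow_left₀ (by positivity) h4 2
  rw [← Finset.sum_mul] at h1
  have := sq_nonneg (N (y' - y))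
  linarith

theorem nv_eq (F : Fin 3 → MvPolynomial (Fin 3) ℂ) (y : V) : nv F y = cr y (wv F y) := by
  rw [wv_cr]
  rfl

theorem nv_unit {F : Fin 3 → MvPolynomial (Fin 3) ℂ} {y : V} (h : eta F y ≠ 0) : N (nv F y) = 1 := by
  unfold nv
  have hN := N_pos h
  rw [N_smul, map_inv₀, Complex.normSq_ofReal, Real.mul_self_sqrt hN.le, inv_mul_cancel₀ hN.ne']

theorem bp_nv (F : Fin 3 → MvPolynomial (Fin 3) ℂ) (y : V) : bp (nv F y) y = 0 := by
  rw [nv_eq]
  unfold bp cr
  simp only [Fin.sum_univ_three]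
  simp
  ring

theorem TA_bp_nv_w (F : Fin 3 → MvPolynomial (Fin 3) ℂ) (y : V) : bp (nv F y) (wv F y) = 0 := by
  rw [nv_eq]
  unfold bp cr
  simp only [Fin.sum_univ_three]
  simp
  ring

theorem ip_tv (F : Fin 3 → MvPolynomial (Fin 3) ℂ) (y v : V) : ip v (tv F y) = bp (nv F y) v := by
  unfold ip tv bp
  exact Finset.sum_congr rfl fun j _ => by rw [Complex.conj_conj, mul_comm]

theorem TA_ip_self (x : V) : ip x x = (N x : ℂ) := by
  simp only [ip, N, Complex.mul_conj, Complex.ofReal_sum]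

theorem TA_ip_conj (x y : V) : conj (ip x y) = ip y x := by
  simp only [ip, map_sum, map_mul, Complex.conj_conj]
  exact Finset.sum_congr rfl fun j _ => mul_comm _ _

/-- expansion in an orthonormal basis -/
theorem TA_onb {a b c : V} (ha : ip a a = 1) (hb : ip b b = 1) (hc : ip c c = 1)
    (hab : ip a b = 0) (hac : ip a c = 0) (hbc : ip b c = 0) (v : V) :
    v = ip v a • a + ip v b • b + ip v c • c := by
  have hba : ip b a = 0 := by rw [← TA_ip_conj, hab, map_zero]
  have hca : ip c a = 0 := by rw [← TA_ip_conj, hac, map_zero]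
  have hcb : ip c b = 0 := by rw [← TA_ip_conj, hbc, map_zero]
  have hU : (Matrix.of ![a, b, c] : M3) * (Matrix.of ![a, b, c] : M3)ᴴ = 1 := by
    ext i j
    rw [Matrix.mul_apply]
    have e : ∑ k, (Matrix.of ![a, b, c] : M3) i k * (Matrix.of ![a, b, c] : M3)ᴴ k j =
        ip ((![a, b, c] : Fin 3 → V) i) ((![a, b, c] : Fin 3 → V) j) := by
      unfold ip
      rfl
    rw [e]
    fin_cases i <;> fin_cases j <;> simp [ha, hb, hc, hab, hac, hbc, hba, hca, hcb]
  have hU2 := mul_eq_one_comm.1 hU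
  funext k
  have h1 : ∀ j, ((Matrix.of ![a, b, c] : M3)ᴴ * (Matrix.of ![a, b, c] : M3)) j k =
      conj (a j) * a k + conj (b j) * b k + conj (c j) * c k := by
    intro j
    rw [Matrix.mul_apply, Fin.sum_univ_three]
    rfl
  have h2 : v k = ∑ j, v j * (if j = k then 1 else 0) := by simp
  rw [h2]
  have h3 : ∀ j, (if j = k then (1 : ℂ) else 0) =
      conj (a j) * a k + conj (b j) * b k + conj (c j) * c k := by
    intro j
    rw [← h1, hU2, Matrix.one_apply]
  simp only [h3]
  simp only [Pi.add_apply, Pi.smul_apply, smul_eq_mul, ip, Finset.sum_mul, ← Finset.sum_add_distrib]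
  exact Finset.sum_congr rfl fun j _ => by ring

theorem TA_ip_add (x y z : V) : ip (x + y) z = ip x z + ip y z := by
  simp only [ip, Pi.add_apply, add_mul, Finset.sum_add_distrib]

theorem TA_ip_smul (l : ℂ) (y z : V) : ip (l • y) z = l * ip y z := by
  simp only [ip, Pi.smul_apply, smul_eq_mul, Finset.mul_sum, mul_assoc]

theorem basis {F : Fin 3 → MvPolynomial (Fin 3) ℂ} {y : V} (hy : N y = 1) (h : eta F y ≠ 0) (v : V) :
    v = ip v y • y + ip v (wv F y) • wv F y + ip v (tv F y) • tv F y ∧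
      N v = Complex.normSq (ip v y) + Complex.normSq (ip v (wv F y)) + Complex.normSq (ip v (tv F y)) := by
  have h1 : ip y y = 1 := by rw [TA_ip_self, hy]; simp
  have h2 : ip (wv F y) (wv F y) = 1 := by rw [TA_ip_self, wv_unit hy h]; simp
  have hNt : N (tv F y) = N (nv F y) := by
    unfold N tv
    simp only [Complex.normSq_conj]
  have h3 : ip (tv F y) (tv F y) = 1 := by rw [TA_ip_self, hNt, nv_unit h]; simp
  have h4 : ip y (wv F y) = 0 := by rw [← TA_ip_conj, wv_orth hy, map_zero]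
  have h5 : ip y (tv F y) = 0 := by rw [ip_tv, bp_nv]
  have h6 : ip (wv F y) (tv F y) = 0 := by rw [ip_tv, TA_bp_nv_w]
  have key := TA_onb h1 h2 h3 h4 h5 h6 v
  refine ⟨key, ?_⟩
  have e : ip v v = ip v y * ip y v + ip v (wv F y) * ip (wv F y) v + ip v (tv F y) * ip (tv F y) v := by
    conv_lhs =>
      arg 1
      rw [key]
    rw [TA_ip_add, TA_ip_add, TA_ip_smul, TA_ip_smul, TA_ip_smul]
  rw [TA_ip_self, ← TA_ip_conj v y, ← TA_ip_conj v (wv F y), ← TA_ip_conj v (tv F y),
    Complex.mul_conj, Complex.mul_conj, Complex.mul_conj] at e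
  exact_mod_cast e

theorem TA_meas_cr {f g : V → V} (hf : Measurable f) (hg : Measurable g) :
    Measurable fun y => cr (f y) (g y) := by
  have hf' : ∀ i, Measurable fun y => f y i := fun i => (measurable_pi_apply i).comp hf
  have hg' : ∀ i, Measurable fun y => g y i := fun i => (measurable_pi_apply i).comp hg
  apply measurable_pi_lambda
  intro j
  unfold cr
  fin_cases j
  · exact ((hf' 1).mul (hg' 2)).sub ((hf' 2).mul (hg' 1))
  · exact ((hf' 2).mul (hg' 0)).sub ((hf' 0).mul (hg' 2))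
  · exact ((hf' 0).mul (hg' 1)).sub ((hf' 1).mul (hg' 0))

theorem TA_meas_dEta (F : Fin 3 → MvPolynomial (Fin 3) ℂ) {f : V → V} (hf : Measurable f) :
    Measurable fun y => dEta F y (f y) := by
  have hf' : ∀ i, Measurable fun y => f y i := fun i => (measurable_pi_apply i).comp hf
  apply measurable_pi_lambda
  intro j
  simp only [TA_Q_dEta]
  unfold dP
  apply Finset.measurable_fun_sum
  intro i _
  exact (hf' i).mul (MvPolynomial.continuous_eval _).measurable

theorem measurable_nv (F : Fin 3 → MvPolynomial (Fin 3) ℂ) : Measurable (nv F) := by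
  have : nv F = fun y => cr y (wv F y) := funext fun y => nv_eq F y
  rw [this]
  exact TA_meas_cr measurable_id (measurable_wv F)

theorem TA_meas_tv (F : Fin 3 → MvPolynomial (Fin 3) ℂ) : Measurable (tv F) := by
  apply measurable_pi_lambda
  intro j
  exact Complex.continuous_conj.measurable.comp ((measurable_pi_apply j).comp (measurable_nv F))

theorem measurable_IIq (F : Fin 3 → MvPolynomial (Fin 3) ℂ) : Measurable (IIq F) := by
  unfold IIq
  exact (continuous_N.measurable.comp (TA_meas_cr (TA_meas_dEta F (measurable_wv F))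
    (continuous_eta F).measurable)).div
    ((continuous_N.measurable.comp (continuous_eta F).measurable).pow_const 2)

theorem measurable_Kq (F : Fin 3 → MvPolynomial (Fin 3) ℂ) : Measurable (Kq F) := by
  unfold Kq
  exact (continuous_N.measurable.comp (TA_meas_cr (TA_meas_dEta F (TA_meas_tv F))
    (continuous_eta F).measurable)).div
    ((continuous_N.measurable.comp (continuous_eta F).measurable).pow_const 2)

theorem IIq_nonneg (F : Fin 3 → MvPolynomial (Fin 3) ℂ) (y : V) : 0 ≤ IIq F y := by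
  unfold IIq
  exact div_nonneg (N_nonneg _) (sq_nonneg _)

theorem Kq_nonneg (F : Fin 3 → MvPolynomial (Fin 3) ℂ) (y : V) : 0 ≤ Kq F y := by
  unfold Kq
  exact div_nonneg (N_nonneg _) (sq_nonneg _)

end FT76
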