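import Pool.Agent.H76.FT.TA
import Pool.Agent.H85.DC.Inv

/-!
# Row TC: the Lelong identity for systems of homogeneous polynomials

G i (i in a finite type) homogeneous polynomials of degree k on V without common zero off 0, S(x) = ∑ |G_i(x)|^2 > 0 for x ≠ 0.
`u x = (log S(x) - k log N(x) : ℂ)` is a real `IsFun`: smooth off 0, `S (l x) = |l|^(2k) S x`, `N (l x) = |l|^2 N x`, and at x = 0: u(l • 0) = u 0 trivially.
`L u x j k' = h_jk' - k * Wm x j k'` for x ≠ 0 with (Wirtinger calculus: `dzb k' (log S) = (∑_i G_i conj(∂_k' G_i))/S`, then `dz j` of it)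
 `h_jk' = (∑_i ∂_j G_i conj(∂_k' G_i))/S - (∑_i ∂_j G_i conj(G_i)) (∑_i G_i conj(∂_k' G_i))/S^2`,
and `L (log N) = Wm` is the case G = (X 0, X 1, X 2), k = 1.  (∂_j G_i = eval (pderiv j (G_i)); `dz j` of `eval x f` is `eval x (pderiv j f)`, `dzb j` of it is `0`, `dz j` of `conj (eval x f)` is `0`.)
`quad h w = (∑_i |dP G_i x w|^2)/S - |∑_i dP G_i x w conj(G_i)|^2/S^2 = (∑_i ∑_j |G_i dP G_j w - G_j dP G_i w|^2)/(2 S^2)` (Lagrange identity).
`DdcClosed`: `0 = ∫ pr F (L u) dμ`; `pr F (L u) y = quad (L u y) (wv F y)` (`pr_eq`, `form_L`) `= quad h (wv) - k quad (Wm y) (wv) = quad h (wv) - k` for unit y with eta ≠ 0 (`quad_Wm`, `wv_unit`, `wv_orth`,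
or `pr_Wm`).  `pr F (L u)` is integrable (`pr_int`), so `∫ quad h (wv F y) dμ = k` (μ is a probability measure), the integrand is real and >= 0: `ofReal_integral_eq_lintegral_ofReal`.
-/

open MeasureTheory Filter Topology
open scoped ContDiff BigOperators ComplexConjugate Matrix

namespace FT76

open Pool.Agent.H85.DC

/-- the density of the Levi form of `log ∑ |G_i|^2` along the foliation -/
noncomputable def lvd {ι : Type} [Fintype ι] (G : ι → MvPolynomial (Fin 3) ℂ) (y w : V) : ℝ :=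
  (∑ i, ∑ j, Complex.normSq (MvPolynomial.eval y (G i) * dP (G j) y w - MvPolynomial.eval y (G j) * dP (G i) y w)) /
    (2 * (∑ i, Complex.normSq (MvPolynomial.eval y (G i))) ^ 2)

/-! ### Wirtinger derivatives of polynomials -/

theorem TC_smooth (f : MvPolynomial (Fin 3) ℂ) :
    ContDiff ℝ ∞ (fun x : V => MvPolynomial.eval x f) := by
  induction f using MvPolynomial.induction_on with
  | C a =>
    simp only [MvPolynomial.eval_C]
    exact contDiff_const
  | add p q hp hq =>
    simp only [map_add]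
    exact hp.add hq
  | mul_X p i hp =>
    simp only [map_mul, MvPolynomial.eval_X]
    exact hp.mul (contDiff_apply ℝ ℂ i)

theorem TC_diff (f : MvPolynomial (Fin 3) ℂ) (x : V) :
    DifferentiableAt ℝ (fun x : V => MvPolynomial.eval x f) x :=
  (TC_smooth f).contDiffAt.differentiableAt (by simp)

theorem TC_diff_conj (f : MvPolynomial (Fin 3) ℂ) (x : V) :
    DifferentiableAt ℝ (fun x : V => conj (MvPolynomial.eval x f)) x :=
  (HomB_conj (TC_diff f x).hasFDerivAt).differentiableAt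

theorem TC_dz (j : Fin 3) (f : MvPolynomial (Fin 3) ℂ) (x : V) :
    dz j (fun x : V => MvPolynomial.eval x f) x = MvPolynomial.eval x (MvPolynomial.pderiv j f) := by
  induction f using MvPolynomial.induction_on with
  | C a =>
    simp only [MvPolynomial.eval_C, MvPolynomial.pderiv_C, map_zero]
    exact dz_const j a x
  | add p q hp hq =>
    simp only [map_add]
    rw [dz_add j (TC_diff p x) (TC_diff q x), hp, hq]
  | mul_X p i hp =>
    simp only [map_mul, MvPolynomial.eval_X]
    rw [dz_mul j (TC_diff p x) (HomB_coord i x).differentiableAt, hp, dz_coord,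
      MvPolynomial.pderiv_mul, map_add, map_mul, map_mul, MvPolynomial.eval_X,
      MvPolynomial.pderiv_X]
    congr 2
    by_cases h : j = i
    · subst h
      simp
    · rw [if_neg h, Pi.single_eq_of_ne (Ne.symm h), map_zero]

theorem TC_dzb (j : Fin 3) (f : MvPolynomial (Fin 3) ℂ) (x : V) :
    dzb j (fun x : V => MvPolynomial.eval x f) x = 0 := by
  induction f using MvPolynomial.induction_on with
  | C a =>
    simp only [MvPolynomial.eval_C]
    exact dzb_const j a x
  | add p q hp hq =>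
    simp only [map_add]
    rw [dzb_add j (TC_diff p x) (TC_diff q x), hp, hq, add_zero]
  | mul_X p i hp =>
    simp only [map_mul, MvPolynomial.eval_X]
    rw [dzb_mul j (TC_diff p x) (HomB_coord i x).differentiableAt, hp, dzb_coord, zero_mul, mul_zero,
      add_zero]

theorem TC_dz_conj (j : Fin 3) (f : MvPolynomial (Fin 3) ℂ) (x : V) :
    dz j (fun x : V => conj (MvPolynomial.eval x f)) x = 0 := by
  rw [← conj_dzb, TC_dzb, map_zero]

theorem TC_dzb_conj (j : Fin 3) (f : MvPolynomial (Fin 3) ℂ) (x : V) :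
    dzb j (fun x : V => conj (MvPolynomial.eval x f)) x =
      conj (MvPolynomial.eval x (MvPolynomial.pderiv j f)) := by
  rw [← conj_dz, TC_dz]

/-! ### the sum of squares -/

section

variable {ι : Type} [Fintype ι] (G : ι → MvPolynomial (Fin 3) ℂ)

/-- the sum of squares -/
noncomputable def TC_S (x : V) : ℝ := ∑ i, Complex.normSq (MvPolynomial.eval x (G i))

theorem TC_S_eq (x : V) : ((TC_S G x : ℝ) : ℂ) =
    ∑ i ∈ (Finset.univ : Finset ι), MvPolynomial.eval x (G i) * conj (MvPolynomial.eval x (G i)) := by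
  unfold TC_S
  push_cast
  exact Finset.sum_congr rfl fun i _ => (Complex.mul_conj _).symm

theorem TC_S_smooth : ContDiff ℝ ∞ (TC_S G) := by
  have h : TC_S G = fun x : V => ∑ i, ((MvPolynomial.eval x (G i)).re * (MvPolynomial.eval x (G i)).re +
      (MvPolynomial.eval x (G i)).im * (MvPolynomial.eval x (G i)).im) := by
    funext x
    unfold TC_S
    exact Finset.sum_congr rfl fun j _ => Complex.normSq_apply _
  rw [h]
  refine ContDiff.sum fun j _ => ?_
  have h1 : ContDiff ℝ ∞ (fun x : V => (MvPolynomial.eval x (G j)).re) :=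
    Complex.reCLM.contDiff.comp (TC_smooth (G j))
  have h2 : ContDiff ℝ ∞ (fun x : V => (MvPolynomial.eval x (G j)).im) :=
    Complex.imCLM.contDiff.comp (TC_smooth (G j))
  exact (h1.mul h1).add (h2.mul h2)

theorem TC_S_pos (hne : ∀ x : V, x ≠ 0 → ∃ i, MvPolynomial.eval x (G i) ≠ 0) {x : V} (hx : x ≠ 0) :
    0 < TC_S G x := by
  obtain ⟨i, hi⟩ := hne x hx
  exact Finset.sum_pos' (fun j _ => Complex.normSq_nonneg _)
    ⟨i, Finset.mem_univ i, Complex.normSq_pos.2 hi⟩

theorem TC_mul_diff (f g : MvPolynomial (Fin 3) ℂ) (x : V) :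
    DifferentiableAt ℝ (fun x : V => MvPolynomial.eval x f * conj (MvPolynomial.eval x g)) x :=
  (TC_diff f x).fun_mul (TC_diff_conj g x)

/-- `∑ f_i conj(g_i)` -/
noncomputable def TC_H (f g : ι → MvPolynomial (Fin 3) ℂ) (x : V) : ℂ :=
  ∑ i ∈ (Finset.univ : Finset ι), MvPolynomial.eval x (f i) * conj (MvPolynomial.eval x (g i))

theorem TC_H_diff (f g : ι → MvPolynomial (Fin 3) ℂ) (x : V) :
    DifferentiableAt ℝ (TC_H f g) x := by
  unfold TC_H
  exact DifferentiableAt.fun_sum fun i _ => TC_mul_diff (f i) (g i) x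

theorem TC_H_dz (j : Fin 3) (f g : ι → MvPolynomial (Fin 3) ℂ) (x : V) :
    dz j (TC_H f g) x = TC_H (fun i => MvPolynomial.pderiv j (f i)) g x := by
  unfold TC_H
  rw [dz_sum j _ (fun i (x : V) => MvPolynomial.eval x (f i) * conj (MvPolynomial.eval x (g i)))
    (fun i _ => TC_mul_diff (f i) (g i) x)]
  refine Finset.sum_congr rfl fun i _ => ?_
  rw [dz_mul j (TC_diff (f i) x) (TC_diff_conj (g i) x), TC_dz, TC_dz_conj, mul_zero, add_zero]

theorem TC_H_dzb (j : Fin 3) (f g : ι → MvPolynomial (Fin 3) ℂ) (x : V) :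
    dzb j (TC_H f g) x = TC_H f (fun i => MvPolynomial.pderiv j (g i)) x := by
  unfold TC_H
  rw [dzb_sum j _ (fun i (x : V) => MvPolynomial.eval x (f i) * conj (MvPolynomial.eval x (g i)))
    (fun i _ => TC_mul_diff (f i) (g i) x)]
  refine Finset.sum_congr rfl fun i _ => ?_
  rw [dzb_mul j (TC_diff (f i) x) (TC_diff_conj (g i) x), TC_dzb, TC_dzb_conj, zero_mul, zero_add]

/-- the logarithm of the sum of squares -/
noncomputable def TC_lg (x : V) : ℂ := ((Real.log (TC_S G x) : ℝ) : ℂ)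

theorem TC_lg_smooth (hne : ∀ x : V, x ≠ 0 → ∃ i, MvPolynomial.eval x (G i) ≠ 0) :
    ContDiffOn ℝ ∞ (TC_lg G) {0}ᶜ := by
  have h1 : ContDiffOn ℝ ∞ (fun y => Real.log (TC_S G y)) {0}ᶜ :=
    (TC_S_smooth G).contDiffOn.log fun y hy => (TC_S_pos G hne hy).ne'
  exact Complex.ofRealCLM.contDiff.comp_contDiffOn h1

theorem TC_S_H : (fun y : V => ((TC_S G y : ℝ) : ℂ)) = TC_H G G := by
  funext y
  exact TC_S_eq G y

theorem TC_dzb_lg (hne : ∀ x : V, x ≠ 0 → ∃ i, MvPolynomial.eval x (G i) ≠ 0) (k : Fin 3) {y : V}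
    (hy : y ≠ 0) :
    dzb k (TC_lg G) y = (TC_H G G y)⁻¹ * TC_H G (fun i => MvPolynomial.pderiv k (G i)) y := by
  have h1 : HasDerivAt Real.log (TC_S G y)⁻¹ (TC_S G y) :=
    Real.hasDerivAt_log (TC_S_pos G hne hy).ne'
  have h2 : DifferentiableAt ℝ (TC_S G) y :=
    (TC_S_smooth G).contDiffAt.differentiableAt (by simp)
  have h3 := dzb_comp_real k h1 h2
  have h4 : dzb k (TC_lg G) y = (((TC_S G y)⁻¹ : ℝ) : ℂ) * dzb k (fun z => ((TC_S G z : ℝ) : ℂ)) y := h3
  rw [h4, TC_S_H, TC_H_dzb, Complex.ofReal_inv]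
  congr 2
  exact TC_S_eq G y

theorem TC_L_lg (hne : ∀ x : V, x ≠ 0 → ∃ i, MvPolynomial.eval x (G i) ≠ 0) {x : V} (hx : x ≠ 0)
    (j k : Fin 3) : L (TC_lg G) x j k =
      TC_H (fun i => MvPolynomial.pderiv j (G i)) (fun i => MvPolynomial.pderiv k (G i)) x /
          ((TC_S G x : ℝ) : ℂ) -
        TC_H (fun i => MvPolynomial.pderiv j (G i)) G x *
            TC_H G (fun i => MvPolynomial.pderiv k (G i)) x / ((TC_S G x : ℝ) : ℂ) ^ 2 := by
  have hS : TC_H G G x = ((TC_S G x : ℝ) : ℂ) := (TC_S_eq G x).symm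
  have hS0 : TC_H G G x ≠ 0 := by
    rw [hS]
    exact_mod_cast (TC_S_pos G hne hx).ne'
  have h1 : L (TC_lg G) x j k =
      dz j (fun y => (TC_H G G y)⁻¹ * TC_H G (fun i => MvPolynomial.pderiv k (G i)) y) x :=
    dz_congr j hx fun y hy => TC_dzb_lg G hne k hy
  have hinv : DifferentiableAt ℝ (fun y => (TC_H G G y)⁻¹) x := (TC_H_diff G G x).inv hS0
  rw [h1, dz_mul j hinv (TC_H_diff _ _ x), dz_inv j (TC_H_diff G G x) hS0, TC_H_dz, TC_H_dz, hS]
  rw [hS] at hS0
  field_simp
  ring

/-! ### the quadratic form -/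

theorem TC_quad_sum (f g : ι → MvPolynomial (Fin 3) ℂ) (x w : V) :
    ∑ j, ∑ k, TC_H (fun i => MvPolynomial.pderiv j (f i)) (fun i => MvPolynomial.pderiv k (g i)) x *
      w j * conj (w k) = ∑ i, dP (f i) x w * conj (dP (g i) x w) := by
  unfold TC_H dP
  simp only [map_sum, map_mul, Finset.sum_mul, Finset.mul_sum]
  rw [Finset.sum_comm]
  have : ∀ k : Fin 3, ∑ j : Fin 3, ∑ i : ι, MvPolynomial.eval x (MvPolynomial.pderiv j (f i)) *
      conj (MvPolynomial.eval x (MvPolynomial.pderiv k (g i))) * w j * conj (w k) =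
      ∑ i : ι, ∑ j : Fin 3, MvPolynomial.eval x (MvPolynomial.pderiv j (f i)) *
      conj (MvPolynomial.eval x (MvPolynomial.pderiv k (g i))) * w j * conj (w k) := fun k =>
    Finset.sum_comm
  simp only [this]
  rw [Finset.sum_comm]
  refine Finset.sum_congr rfl fun i _ => Finset.sum_congr rfl fun k _ =>
    Finset.sum_congr rfl fun j _ => ?_
  ring

theorem TC_left (f g : ι → MvPolynomial (Fin 3) ℂ) (x w : V) :
    ∑ j, TC_H (fun i => MvPolynomial.pderiv j (f i)) g x * w j =
      ∑ i, dP (f i) x w * conj (MvPolynomial.eval x (g i)) := by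
  unfold TC_H dP
  simp only [Finset.sum_mul]
  rw [Finset.sum_comm]
  refine Finset.sum_congr rfl fun i _ => Finset.sum_congr rfl fun k _ => ?_
  ring

theorem TC_right (f g : ι → MvPolynomial (Fin 3) ℂ) (x w : V) :
    ∑ k, TC_H f (fun i => MvPolynomial.pderiv k (g i)) x * conj (w k) =
      ∑ i, MvPolynomial.eval x (f i) * conj (dP (g i) x w) := by
  unfold TC_H dP
  simp only [Finset.sum_mul, map_sum, map_mul, Finset.mul_sum]
  rw [Finset.sum_comm]
  refine Finset.sum_congr rfl fun i _ => Finset.sum_congr rfl fun k _ => ?_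
  ring

theorem TC_lagrange (a p : ι → ℂ) :
    ∑ i, ∑ j, Complex.normSq (a i * p j - a j * p i) =
      2 * ((∑ i, Complex.normSq (a i)) * (∑ i, Complex.normSq (p i)) -
        Complex.normSq (∑ i, p i * conj (a i))) := by
  have h1 : ∀ i j, ((Complex.normSq (a i * p j - a j * p i) : ℝ) : ℂ) =
      (a i * conj (a i)) * (p j * conj (p j)) + (p i * conj (p i)) * (a j * conj (a j)) -
        ((a i * conj (p i)) * (p j * conj (a j)) + (p i * conj (a i)) * (a j * conj (p j))) := by
    intro i j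
    rw [← Complex.mul_conj, map_sub, map_mul, map_mul]
    ring
  have h2 : ((∑ i, ∑ j, Complex.normSq (a i * p j - a j * p i) : ℝ) : ℂ) =
      ((2 * ((∑ i, Complex.normSq (a i)) * (∑ i, Complex.normSq (p i)) -
        Complex.normSq (∑ i, p i * conj (a i))) : ℝ) : ℂ) := by
    push_cast
    simp only [h1, Finset.sum_sub_distrib, Finset.sum_add_distrib, ← Finset.mul_sum,
      ← Finset.sum_mul, ← Complex.mul_conj, map_sum, map_mul, Complex.conj_conj]
    have e : ∑ i, conj (p i) * a i = ∑ i, a i * conj (p i) :=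
      Finset.sum_congr rfl fun i _ => mul_comm _ _
    rw [e]
    ring
  exact_mod_cast h2

theorem TC_quad (hne : ∀ x : V, x ≠ 0 → ∃ i, MvPolynomial.eval x (G i) ≠ 0) {x : V} (hx : x ≠ 0)
    (w : V) : quad (L (TC_lg G) x) w = ((lvd G x w : ℝ) : ℂ) := by
  have hS := TC_S_pos G hne hx
  have hS0 : ((TC_S G x : ℝ) : ℂ) ≠ 0 := by exact_mod_cast hS.ne'
  have h1 : quad (L (TC_lg G) x) w =
      (∑ j, ∑ k, TC_H (fun i => MvPolynomial.pderiv j (G i)) (fun i => MvPolynomial.pderiv k (G i)) x *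
        w j * conj (w k)) / ((TC_S G x : ℝ) : ℂ) -
      (∑ j, TC_H (fun i => MvPolynomial.pderiv j (G i)) G x * w j) *
        (∑ k, TC_H G (fun i => MvPolynomial.pderiv k (G i)) x * conj (w k)) /
          ((TC_S G x : ℝ) : ℂ) ^ 2 := by
    unfold quad
    rw [Finset.sum_mul_sum, Finset.sum_div, Finset.sum_div, ← Finset.sum_sub_distrib]
    refine Finset.sum_congr rfl fun j _ => ?_
    rw [Finset.sum_div, Finset.sum_div, ← Finset.sum_sub_distrib]
    refine Finset.sum_congr rfl fun k _ => ?_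
    rw [TC_L_lg G hne hx]
    ring
  have h2 : lvd G x w = ((TC_S G x) * (∑ i, Complex.normSq (dP (G i) x w)) -
      Complex.normSq (∑ i, dP (G i) x w * conj (MvPolynomial.eval x (G i)))) / (TC_S G x) ^ 2 := by
    unfold lvd
    rw [TC_lagrange]
    unfold TC_S
    rw [mul_div_mul_left _ _ (two_ne_zero)]
  have h3 : ∑ i, MvPolynomial.eval x (G i) * conj (dP (G i) x w) =
      conj (∑ i, dP (G i) x w * conj (MvPolynomial.eval x (G i))) := by
    rw [map_sum]
    refine Finset.sum_congr rfl fun i _ => ?_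
    rw [map_mul, Complex.conj_conj, mul_comm]
  have h4 : ∑ i, dP (G i) x w * conj (dP (G i) x w) =
      ((∑ i, Complex.normSq (dP (G i) x w) : ℝ) : ℂ) := by
    push_cast
    exact Finset.sum_congr rfl fun i _ => Complex.mul_conj _
  rw [h1, TC_quad_sum, TC_left, TC_right, h2, h3, Complex.mul_conj, h4]
  push_cast
  field_simp

theorem TC_lvd_nonneg (x w : V) : 0 ≤ lvd G x w := by
  unfold lvd
  refine div_nonneg (Finset.sum_nonneg fun _ _ => Finset.sum_nonneg fun _ _ =>
    Complex.normSq_nonneg _) (by positivity)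

theorem TC_hom {k : ℕ} (hG : ∀ i, (G i).IsHomogeneous k) (l : ℂ) (x : V) :
    TC_S G (l • x) = Complex.normSq l ^ k * TC_S G x := by
  unfold TC_S
  rw [Finset.mul_sum]
  refine Finset.sum_congr rfl fun i _ => ?_
  have h1 : MvPolynomial.eval (l • x) (G i) = l ^ k * MvPolynomial.eval x (G i) := by
    rw [MvPolynomial.eval_eq, MvPolynomial.eval_eq, Finset.mul_sum]
    refine Finset.sum_congr rfl fun d hd => ?_
    have h2 : ∑ i ∈ d.support, d i = k := by
      have h3 := hG i (MvPolynomial.mem_support_iff.1 hd)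
      rw [← h3]
      rw [Finsupp.weight_apply, Finsupp.sum]
      simp
    have h4 : ∏ i ∈ d.support, (l • x) i ^ d i = l ^ k * ∏ i ∈ d.support, x i ^ d i := by
      simp only [Pi.smul_apply, smul_eq_mul, mul_pow]
      rw [Finset.prod_mul_distrib, Finset.prod_pow_eq_pow_sum, h2]
    rw [h4]
    ring
  rw [h1, Complex.normSq_mul, map_pow]

/-- the test function -/
noncomputable def TC_u (k : ℕ) (x : V) : ℂ := TC_lg G x + (-(k : ℂ)) * Inv_lg x

theorem TC_u_fun {k : ℕ} (hG : ∀ i, (G i).IsHomogeneous k)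
    (hne : ∀ x : V, x ≠ 0 → ∃ i, MvPolynomial.eval x (G i) ≠ 0) : IsFun (TC_u G k) := by
  refine ⟨(TC_lg_smooth G hne).add (contDiffOn_const.mul Inv_lg_smooth), fun l x hl => ?_⟩
  by_cases hx : x = 0
  · rw [hx, smul_zero]
  · have hn : Complex.normSq l ≠ 0 := (Complex.normSq_pos.2 hl).ne'
    unfold TC_u TC_lg Inv_lg
    rw [TC_hom G hG, N_smul, Real.log_mul (pow_ne_zero _ hn) (TC_S_pos G hne hx).ne',
      Real.log_mul hn (N_pos hx).ne', Real.log_pow]
    push_cast
    ring

theorem TC_L_u {k : ℕ} (hne : ∀ x : V, x ≠ 0 → ∃ i, MvPolynomial.eval x (G i) ≠ 0) {x : V}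
    (hx : x ≠ 0) (w : V) :
    quad (L (TC_u G k) x) w = ((lvd G x w : ℝ) : ℂ) - (k : ℂ) * quad (Wm x) w := by
  have hs : ContDiffOn ℝ ∞ (fun x => (-(k : ℂ)) * Inv_lg x) {0}ᶜ :=
    contDiffOn_const.mul Inv_lg_smooth
  have h1 : L (TC_u G k) x = L (TC_lg G) x + L (fun x => (-(k : ℂ)) * Inv_lg x) x :=
    Inv_L_add (TC_lg_smooth G hne) hs hx
  have h2 : L (fun x => (-(k : ℂ)) * Inv_lg x) x = (-(k : ℂ)) • Wm x := by
    ext a b
    show dz a (dzb b (fun x => (-(k : ℂ)) * Inv_lg x)) x = (-(k : ℂ)) * Wm x a b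
    rw [dz_congr a hx fun y hy => dzb_const_mul b (-(k : ℂ)) (Inv_diff Inv_lg_smooth hy),
      dz_const_mul a _ (Inv_dzb_diff Inv_lg_smooth b hx)]
    have h3 := congrFun (congrFun (Inv_L_lg hx) a) b
    have h4 : dz a (dzb b Inv_lg) x = Wm x a b := h3
    rw [h4]
  rw [h1, h2, ← TC_quad G hne hx]
  unfold quad
  rw [Finset.mul_sum, ← Finset.sum_sub_distrib]
  refine Finset.sum_congr rfl fun a _ => ?_
  rw [Finset.mul_sum, ← Finset.sum_sub_distrib]
  refine Finset.sum_congr rfl fun b _ => ?_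
  rw [Matrix.add_apply, Matrix.smul_apply, smul_eq_mul]
  ring

end

theorem TC_meas_dP (f : MvPolynomial (Fin 3) ℂ) (F : Fin 3 → MvPolynomial (Fin 3) ℂ) :
    Measurable (fun y => dP f y (wv F y)) := by
  unfold dP
  refine Finset.measurable_sum _ fun i _ => ?_
  exact ((measurable_pi_apply i).comp (measurable_wv F)).mul
    (TC_smooth (MvPolynomial.pderiv i f)).continuous.measurable

theorem measurable_lvd {ι : Type} [Fintype ι] (G : ι → MvPolynomial (Fin 3) ℂ) (F : Fin 3 → MvPolynomial (Fin 3) ℂ) :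
    Measurable (fun y => lvd G y (wv F y)) := by
  have hn : Measurable Complex.normSq := Complex.continuous_normSq.measurable
  have he : ∀ i, Measurable (fun y : V => MvPolynomial.eval y (G i)) := fun i =>
    (TC_smooth (G i)).continuous.measurable
  unfold lvd
  refine Measurable.div ?_ ?_
  · refine Finset.measurable_sum _ fun i _ => Finset.measurable_sum _ fun j _ => ?_
    exact hn.comp (((he i).mul (TC_meas_dP (G j) F)).sub ((he j).mul (TC_meas_dP (G i) F)))
  · exact ((Finset.measurable_sum _ fun i _ => hn.comp (he i)).pow_const 2).const_mul 2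

theorem poly_lelong {ι : Type} [Fintype ι] (G : ι → MvPolynomial (Fin 3) ℂ) (k : ℕ) (hG : ∀ i, (G i).IsHomogeneous k)
    (hne : ∀ x : V, x ≠ 0 → ∃ i, MvPolynomial.eval x (G i) ≠ 0) {F : Fin 3 → MvPolynomial (Fin 3) ℂ} {μ : Measure V}
    (hμ : IsCur F μ) (hd : DdcClosed F μ) :
    ∫⁻ y, ENNReal.ofReal (lvd G y (wv F y)) ∂μ = k := by
  have hu := TC_u_fun G hG hne
  have hform := form_L hu
  haveI : IsProbabilityMeasure μ := ⟨hμ.prob⟩
  have h0 := hd _ hu
  have hint := pr_int hform hμ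
  have hae : ∀ᵐ y ∂μ, pr F (L (TC_u G k)) y = ((lvd G y (wv F y) - k : ℝ) : ℂ) := by
    filter_upwards [hμ.sphere, hμ.sing] with y hy hs
    have hy0 : y ≠ 0 := by
      intro h
      rw [h] at hy
      have : N (0 : V) = 0 := by simp [N]
      rw [this] at hy
      exact zero_ne_one hy
    have h1 : quad (Wm y) (wv F y) = 1 := by
      rw [← pr_eq form_Wm hy]
      exact pr_Wm hy hs
    rw [pr_eq hform hy, TC_L_u G hne hy0, h1]
    push_cast
    ring
  have hint2 : Integrable (fun y => lvd G y (wv F y) - (k : ℝ)) μ := by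
    have h1 : Integrable (fun y => ((lvd G y (wv F y) - k : ℝ) : ℂ)) μ := hint.congr hae
    exact h1.re.congr (Filter.Eventually.of_forall fun y => Complex.ofReal_re _)
  have hint3 : Integrable (fun y => lvd G y (wv F y)) μ := by
    have h1 := hint2.add (integrable_const (k : ℝ))
    exact h1.congr (Filter.Eventually.of_forall fun y => by
      show lvd G y (wv F y) - (k : ℝ) + (k : ℝ) = _
      ring)
  have h2 : ∫ y, lvd G y (wv F y) ∂μ = k := by
    rw [integral_congr_ae hae, integral_complex_ofReal] at h0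
    have h3 : ∫ y, (lvd G y (wv F y) - (k : ℝ)) ∂μ = 0 := by exact_mod_cast h0
    rw [integral_sub hint3 (integrable_const _), integral_const] at h3
    simp only [probReal_univ, one_smul] at h3
    linarith
  rw [← ofReal_integral_eq_lintegral_ofReal hint3
    (Filter.Eventually.of_forall fun y => TC_lvd_nonneg G y _), h2, ENNReal.ofReal_natCast]

end FT76
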