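import Pool.Agent.H76.FT.TC

/-!
# Row TD: the pointwise Lelong bound (7c) and the curvature bound (7d)

(7c) `lelong_pt`: fix a unit vector y.  For s > 0 let G : Fin 3 ⊕ Fin 3 → MvPolynomial: the three components of `x ↦ cr x y` (linear forms: e.g. `X 1 * C (y 2) - X 2 * C (y 1)`, ...) and
 `C s * X j`; degree k = 1, no common zero off 0.  `poly_lelong`: `∫⁻ ofReal (lvd G x (wv F x)) dμ(x) = 1`.
 `dP` of the first components at (x, w) are the components of `cr w y`, so the terms with i, j in the first Fin 3 sum up to `2 N (cr (cr x y) (cr w y))` (for a, b : V: `∑_i ∑_j |a_i b_j - a_j b_i|^2 = 2 N (cr a b)`).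
 `cr (cr x y) (cr w y) = ± det(x,w,y) y` where `det(x,w,y) = bp (cr x w) y` (polynomial identity, `ring` per coordinate), so it is `|bp (nv F x) y|^2` for w = wv F x (`nv_eq`, N y = 1).
 `∑ |G_i(x)|^2 = N (cr x y) + s^2 N x = tau x y + s^2` for unit x (`tau_cross'`).  Hence `lvd ≥ |bp (nv F x) y|^2/(tau x y + s^2)^2`.
 Let s = s_n ↓ 0: `ofReal (|bp|^2/(tau + s_n^2)^2)` increases to `ofReal(|bp|^2/tau^2)` if tau > 0; if tau = 0 then `|bp|^2/tau^2 = 0` in Lean.  Fatou (`lintegral_liminf_le`) or monotone convergence; tau y x = tau x y (`tau_symm`).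
(7d) `curv`: Q from `eta_poly` (degree d+1), G : Fin 3 ⊕ Fin 3 → …: `Q j` and `C s * (X j)^(d+1)`, k = d + 1, no common zero off 0.  The first block gives `lvd ≥ N (cr (eta F y) (dEta F y w))/(N (eta F y) + s^2 c(y))^2`,
 c(y) = ∑ |y_j|^(2(d+1)); as s → 0 it tends to `IIq F y` where eta ≠ 0 (a.e.): Fatou.  (`N (cr a b) = N (cr b a)`.)
-/

open MeasureTheory Filter Topology
open scoped ContDiff BigOperators ComplexConjugate Matrix

namespace FT76

open Pool.Agent.H85.DC

private theorem td_fatou {μ : Measure V} (f : ℕ → V → ENNReal) (hf : ∀ n, Measurable (f n)) (K : ENNReal)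
    (hK : ∀ n, ∫⁻ y, f n y ∂μ ≤ K) (g : V → ENNReal)
    (hle : ∀ y, g y ≤ liminf (fun n => f n y) atTop) : ∫⁻ y, g y ∂μ ≤ K := by
  calc ∫⁻ y, g y ∂μ ≤ ∫⁻ y, liminf (fun n => f n y) atTop ∂μ := lintegral_mono hle
    _ ≤ liminf (fun n => ∫⁻ y, f n y ∂μ) atTop := lintegral_liminf_le hf
    _ ≤ liminf (fun _ : ℕ => K) atTop := liminf_le_liminf (Eventually.of_forall hK)
    _ = K := liminf_const K

private theorem td_two (a b : V) : ∑ i, ∑ j, Complex.normSq (a i * b j - a j * b i) = 2 * N (cr a b) := by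
  have h : ∀ z w : ℂ, Complex.normSq (z - w) = Complex.normSq (w - z) := fun z w => by
    rw [← Complex.normSq_neg, neg_sub]
  unfold N cr
  simp only [Fin.sum_univ_three, sub_self, map_zero, Matrix.cons_val_zero, Matrix.cons_val_one,
    Matrix.cons_val_two, Matrix.cons_val, Matrix.head_cons, Matrix.tail_cons]
  rw [h (a 0 * b 2) (a 2 * b 0), h (a 1 * b 0) (a 0 * b 1), h (a 2 * b 1) (a 1 * b 2)]
  ring

private noncomputable def tdG (Q : Fin 3 → MvPolynomial (Fin 3) ℂ) (k : ℕ) (s : ℂ) :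
    Fin 3 ⊕ Fin 3 → MvPolynomial (Fin 3) ℂ :=
  Sum.elim Q (fun j => MvPolynomial.C s * (MvPolynomial.X j) ^ k)

private theorem td_low (Q : Fin 3 → MvPolynomial (Fin 3) ℂ) (k : ℕ) (s : ℂ) (y w : V) :
    N (cr (fun j => MvPolynomial.eval y (Q j)) (fun j => dP (Q j) y w)) /
      (N (fun j => MvPolynomial.eval y (Q j)) + Complex.normSq s * ∑ j, Complex.normSq (y j) ^ k) ^ 2 ≤
      lvd (tdG Q k s) y w := by
  unfold lvd
  have h1 : ∑ i, Complex.normSq (MvPolynomial.eval y (tdG Q k s i)) =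
      N (fun j => MvPolynomial.eval y (Q j)) + Complex.normSq s * ∑ j, Complex.normSq (y j) ^ k := by
    rw [Fintype.sum_sum_type, Finset.mul_sum]
    congr 1
    refine Finset.sum_congr rfl fun j _ => ?_
    show Complex.normSq (MvPolynomial.eval y (MvPolynomial.C s * (MvPolynomial.X j) ^ k)) = _
    rw [map_mul, MvPolynomial.eval_C, map_pow, MvPolynomial.eval_X, map_mul, map_pow]
  rw [h1, ← div_div]
  refine div_le_div_of_nonneg_right ?_ (sq_nonneg _)
  rw [le_div_iff₀ (by norm_num : (0 : ℝ) < 2), mul_comm,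
    ← td_two (fun j => MvPolynomial.eval y (Q j)) (fun j => dP (Q j) y w)]
  have h0 : ∀ i j, 0 ≤ Complex.normSq (MvPolynomial.eval y (tdG Q k s i) * dP (tdG Q k s j) y w -
      MvPolynomial.eval y (tdG Q k s j) * dP (tdG Q k s i) y w) := fun i j => Complex.normSq_nonneg _
  rw [Fintype.sum_sum_type]
  refine le_trans ?_ (le_add_of_nonneg_right (Finset.sum_nonneg fun i _ => Finset.sum_nonneg fun j _ => h0 _ _))
  refine Finset.sum_le_sum fun i _ => ?_
  rw [Fintype.sum_sum_type]
  refine le_trans ?_ (le_add_of_nonneg_right (Finset.sum_nonneg fun j _ => h0 _ _))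
  exact le_of_eq rfl

private theorem td_main (Q : Fin 3 → MvPolynomial (Fin 3) ℂ) (k : ℕ) (hQ : ∀ j, (Q j).IsHomogeneous k)
    {F : Fin 3 → MvPolynomial (Fin 3) ℂ} {μ : Measure V} (hμ : IsCur F μ) (hd : DdcClosed F μ) :
    ∫⁻ y, ENNReal.ofReal (N (cr (fun j => MvPolynomial.eval y (Q j)) (fun j => dP (Q j) y (wv F y))) /
      (N (fun j => MvPolynomial.eval y (Q j))) ^ 2) ∂μ ≤ k := by
  have hs : ∀ n : ℕ, (((n : ℂ) + 1)⁻¹) ≠ 0 := fun n => inv_ne_zero (by exact_mod_cast Nat.succ_ne_zero n)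
  refine td_fatou (fun n y => ENNReal.ofReal (lvd (tdG Q k (((n : ℂ) + 1)⁻¹)) y (wv F y)))
    (fun n => (measurable_lvd _ F).ennreal_ofReal) k (fun n => ?_) _ (fun y => ?_)
  · refine le_of_eq (poly_lelong _ k ?_ ?_ hμ hd)
    · rintro (j | j)
      · exact hQ j
      · show (MvPolynomial.C (((n : ℂ) + 1)⁻¹) * (MvPolynomial.X j) ^ k).IsHomogeneous k
        have h1 := (MvPolynomial.isHomogeneous_C (Fin 3) (((n : ℂ) + 1)⁻¹)).mul
          (MvPolynomial.isHomogeneous_X_pow (R := ℂ) j k)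
        simpa using h1
    · intro x hx
      obtain ⟨j, hj⟩ : ∃ j, x j ≠ 0 := by
        by_contra h
        push Not at h
        exact hx (funext h)
      refine ⟨Sum.inr j, ?_⟩
      show MvPolynomial.eval x (MvPolynomial.C (((n : ℂ) + 1)⁻¹) * (MvPolynomial.X j) ^ k) ≠ 0
      rw [map_mul, MvPolynomial.eval_C, map_pow, MvPolynomial.eval_X]
      exact mul_ne_zero (hs n) (pow_ne_zero k hj)
  · by_cases h0 : N (fun j => MvPolynomial.eval y (Q j)) = 0
    · rw [h0]
      simp
    · have h1 : Tendsto (fun n : ℕ => N (cr (fun j => MvPolynomial.eval y (Q j)) (fun j => dP (Q j) y (wv F y))) /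
          (N (fun j => MvPolynomial.eval y (Q j)) +
            Complex.normSq (((n : ℂ) + 1)⁻¹) * ∑ j, Complex.normSq (y j) ^ k) ^ 2) atTop
          (nhds (N (cr (fun j => MvPolynomial.eval y (Q j)) (fun j => dP (Q j) y (wv F y))) /
          (N (fun j => MvPolynomial.eval y (Q j)) + 0 * ∑ j, Complex.normSq (y j) ^ k) ^ 2)) := by
        have h2 : Tendsto (fun n : ℕ => Complex.normSq (((n : ℂ) + 1)⁻¹)) atTop (nhds 0) := by
          have h3 : (fun n : ℕ => Complex.normSq (((n : ℂ) + 1)⁻¹)) =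
              fun n : ℕ => (1 / ((n : ℝ) + 1)) * (1 / ((n : ℝ) + 1)) := by
            funext n
            have h4 : ((n : ℂ) + 1)⁻¹ = (((1 / ((n : ℝ) + 1) : ℝ)) : ℂ) := by
              push_cast
              rw [one_div]
            rw [h4, Complex.normSq_ofReal]
          rw [h3]
          have h5 := tendsto_one_div_add_atTop_nhds_zero_nat (𝕜 := ℝ)
          simpa using h5.mul h5
        refine Tendsto.div tendsto_const_nhds ((tendsto_const_nhds.add (h2.mul_const _)).pow 2) ?_
        rw [zero_mul, add_zero]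
        exact pow_ne_zero 2 h0
      rw [zero_mul, add_zero] at h1
      rw [← ((ENNReal.continuous_ofReal.tendsto _).comp h1).liminf_eq]
      refine liminf_le_liminf (Eventually.of_forall fun n => ?_)
      exact ENNReal.ofReal_le_ofReal (td_low Q k _ y (wv F y))

private noncomputable def tdA (y : V) : Fin 3 → MvPolynomial (Fin 3) ℂ :=
  ![MvPolynomial.X 1 * MvPolynomial.C (y 2) - MvPolynomial.X 2 * MvPolynomial.C (y 1),
    MvPolynomial.X 2 * MvPolynomial.C (y 0) - MvPolynomial.X 0 * MvPolynomial.C (y 2),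
    MvPolynomial.X 0 * MvPolynomial.C (y 1) - MvPolynomial.X 1 * MvPolynomial.C (y 0)]

private theorem tdA_hom (y : V) (j : Fin 3) : (tdA y j).IsHomogeneous 1 := by
  have h : ∀ (a b : Fin 3) (c e : ℂ),
      (MvPolynomial.X a * MvPolynomial.C c - MvPolynomial.X b * MvPolynomial.C e :
        MvPolynomial (Fin 3) ℂ).IsHomogeneous 1 := fun a b c e =>
    MvPolynomial.IsHomogeneous.sub
      (by simpa using (MvPolynomial.isHomogeneous_X ℂ a).mul (MvPolynomial.isHomogeneous_C (Fin 3) c))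
      (by simpa using (MvPolynomial.isHomogeneous_X ℂ b).mul (MvPolynomial.isHomogeneous_C (Fin 3) e))
  fin_cases j
  · exact h 1 2 _ _
  · exact h 2 0 _ _
  · exact h 0 1 _ _

private theorem tdA_eval (y x : V) : (fun j => MvPolynomial.eval x (tdA y j)) = cr x y := by
  funext j
  fin_cases j <;> simp [tdA, cr]

private theorem td_dPX (a b : Fin 3) (c e : ℂ) (x v : V) :
    dP (MvPolynomial.X a * MvPolynomial.C c - MvPolynomial.X b * MvPolynomial.C e) x v =
      v a * c - v b * e := by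
  have h : ∀ i, MvPolynomial.eval x (MvPolynomial.pderiv i
      (MvPolynomial.X a * MvPolynomial.C c - MvPolynomial.X b * MvPolynomial.C e)) =
      (if i = a then c else 0) - (if i = b then e else 0) := by
    intro i
    rw [map_sub, MvPolynomial.pderiv_mul, MvPolynomial.pderiv_mul, MvPolynomial.pderiv_C,
      MvPolynomial.pderiv_C, mul_zero, mul_zero, add_zero, add_zero, MvPolynomial.pderiv_X,
      MvPolynomial.pderiv_X, map_sub, map_mul, map_mul, MvPolynomial.eval_C, MvPolynomial.eval_C]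
    congr 1
    · by_cases hi : i = a
      · subst hi; simp
      · simp [Pi.single_apply, hi, Ne.symm hi]
    · by_cases hi : i = b
      · subst hi; simp
      · simp [Pi.single_apply, hi, Ne.symm hi]
  unfold dP
  simp only [h, mul_sub, mul_ite, mul_zero, Finset.sum_sub_distrib, Finset.sum_ite_eq',
    Finset.mem_univ, if_true]

private theorem tdA_dP (y x v : V) : (fun j => dP (tdA y j) x v) = cr v y := by
  funext j
  fin_cases j
  · exact td_dPX 1 2 _ _ x v
  · exact td_dPX 2 0 _ _ x v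
  · exact td_dPX 0 1 _ _ x v

private theorem td_crcr (x w y : V) : cr (cr x y) (cr w y) = bp (cr x w) y • y := by
  funext j
  fin_cases j <;> simp [cr, bp, Fin.sum_univ_three] <;> ring

private theorem td_ne {y : V} (hy : N y = 1) : y ≠ 0 := by
  rintro rfl
  rw [TauM_N_zero] at hy
  exact zero_ne_one hy

private theorem td_crneg (a b : V) : N (cr a b) = N (cr b a) := by
  have h : cr a b = -(cr b a) := by
    funext j
    fin_cases j <;> simp [cr] <;> ring
  rw [h]
  unfold N
  simp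

theorem lelong_pt {F : Fin 3 → MvPolynomial (Fin 3) ℂ} {μ : Measure V} (hμ : IsCur F μ) (hd : DdcClosed F μ)
    {y : V} (hy : N y = 1) :
    ∫⁻ y', ENNReal.ofReal (Complex.normSq (bp (nv F y') y) / (tau y y') ^ 2) ∂μ ≤ 1 := by
  have h1 := td_main (tdA y) 1 (tdA_hom y) hμ hd
  rw [Nat.cast_one] at h1
  refine le_trans (le_of_eq (lintegral_congr_ae ?_)) h1
  filter_upwards [hμ.sphere] with x hx
  rw [tdA_eval, tdA_dP, td_crcr, ← nv_eq, TauM_N_smul, hy, mul_one,
    tau_cross' (td_ne hx) (td_ne hy), hx, hy, one_mul, one_mul, tau_symm y x]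

theorem curv {F : Fin 3 → MvPolynomial (Fin 3) ℂ} {d : ℕ} (hF : ∀ j, (F j).IsHomogeneous d) {μ : Measure V}
    (hμ : IsCur F μ) (hd : DdcClosed F μ) :
    ∫⁻ y, ENNReal.ofReal (IIq F y) ∂μ ≤ d + 1 := by
  obtain ⟨Q, hQ, he, hD⟩ := eta_poly hF
  have h1 := td_main Q (d + 1) hQ hμ hd
  have h2 : (((d + 1 : ℕ)) : ENNReal) = (d : ENNReal) + 1 := by push_cast; rfl
  rw [h2] at h1
  refine le_trans (le_of_eq (lintegral_congr fun y => ?_)) h1
  have h3 : (fun j => MvPolynomial.eval y (Q j)) = eta F y := by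
    funext j
    exact (he y j).symm
  have h4 : (fun j => dP (Q j) y (wv F y)) = dEta F y (wv F y) := by
    funext j
    exact (hD y (wv F y) j).symm
  rw [h3, h4, td_crneg]
  rfl

end FT76
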