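import Pool.Agent.H76.FT.TA

/-!
# Row TE: the secondary part of the loss tends to zero

For unit y put `J ε y = ∫⁻ ofReal (ε⁻¹^2 * exp (-(tau y y')/(16 ε^2))) dμ'(y')`.  Shells: for k : ℕ let `S_k = {y' | k ε^2 ≤ tau y y' < (k+1) ε^2}`; they cover everything (tau >= 0), on `S_k` the exponential is
`≤ exp (-k/16)`, and `μ' S_k ≤ μ' {tau y' y < ((√(k+1)) ε)^2} ≤ 4 (k+1) ε^2` (`hm`, `tau_symm`; μ' is finite).
(a) `J ε y ≤ ∑' k, ofReal (4 (k+1) exp (-k/16)) =: C0 < ⊤` (summable: `summable_pow_mul_geometric_of_norm_lt_one` or ratio test).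
(b) if `μ' {tau y y' < s^2}/s^2 → 0` (s → 0) then `J ε y → 0` as ε → 0+: `J ε y ≤ ∑' k, ofReal (exp(-k/16) (k+1) * (μ' {tau y · < (k+1) ε^2}).toReal/((k+1) ε^2))`; each term tends to 0 and is dominated by the
 summable `4 (k+1) exp(-k/16)` (`tendsto_tsum_of_dominated_convergence` for real series, then ofReal).
`Q2 F μ μ' ε = ∫⁻ y, ofReal (1 + IIq F y) * J ε y dμ` (pull the factor out: `lintegral_const_mul`, `ENNReal.ofReal_mul`), for μ-a.e. y (`hμ.sphere`, `hμ.sing`, `ZeroLelongAll`) the integrand tends to 0; it is dominated by `ofReal (1 + IIq) * C0`,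
whose integral is `≤ C0 (1 + (d+1)) < ⊤`.  Dominated convergence along the filter `𝓝[>] 0` (countably generated; `tendsto_lintegral_filter_of_dominated_convergence`; measurability of `J ε` from `measurable_tau` and
`Measurable.lintegral_prod_right'`).
-/

open MeasureTheory Filter Topology
open scoped ContDiff BigOperators ComplexConjugate Matrix

namespace FT76

open Pool.Agent.H85.DC

/-- the k-th coefficient -/
noncomputable def TE_c (k : ℕ) : ℝ := Real.exp (-(k : ℝ) / 16) * ((k : ℝ) + 1)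

theorem TE_c_nonneg (k : ℕ) : 0 ≤ TE_c k := by
  unfold TE_c
  positivity

theorem TE_c_summable : Summable (fun k : ℕ => TE_c k * 4) := by
  have hr : ‖Real.exp (-1 / 16)‖ < 1 := by
    rw [Real.norm_eq_abs, abs_of_nonneg (Real.exp_nonneg _)]
    rw [← Real.exp_zero]
    exact Real.exp_lt_exp.mpr (by norm_num)
  have h1 := summable_pow_mul_geometric_of_norm_lt_one 1 hr
  have h0 := summable_pow_mul_geometric_of_norm_lt_one 0 hr
  have h2 := (h1.add h0).mul_right (4 : ℝ)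
  refine h2.congr fun k => ?_
  unfold TE_c
  have h3 : Real.exp (-(k : ℝ) / 16) = Real.exp (-1 / 16) ^ k := by
    rw [← Real.exp_nat_mul]
    congr 1
    ring
  rw [h3]
  ring

/-- the quotient -/
noncomputable def TE_q (μ' : Measure V) (y : V) (s : ℝ) : ℝ :=
  (μ' {y' | tau y y' < s ^ 2}).toReal / s ^ 2

theorem TE_q_nonneg (μ' : Measure V) (y : V) (s : ℝ) : 0 ≤ TE_q μ' y s :=
  div_nonneg ENNReal.toReal_nonneg (sq_nonneg s)

theorem TE_q_le {μ' : Measure V}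
    (hm : ∀ (y : V) (s : ℝ), N y = 1 → 0 < s → (μ' {x | tau x y < s ^ 2}).toReal ≤ 4 * s ^ 2)
    {y : V} (hy : N y = 1) {s : ℝ} (hs : 0 < s) : TE_q μ' y s ≤ 4 := by
  unfold TE_q
  rw [div_le_iff₀ (by positivity)]
  have h1 : {y' | tau y y' < s ^ 2} = {x | tau x y < s ^ 2} := by
    ext x
    show tau y x < s ^ 2 ↔ tau x y < s ^ 2
    rw [tau_symm]
  rw [h1]
  exact hm y s hy hs

/-- the inner integral -/
noncomputable def TE_J (μ' : Measure V) (ε : ℝ) (y : V) : ENNReal :=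
  ∫⁻ y', ENNReal.ofReal (ε⁻¹ ^ 2 * Real.exp (-(tau y y') / (16 * ε ^ 2))) ∂μ'

theorem TE_tau_meas (y : V) : Measurable (fun y' : V => tau y y') := by
  have h : Measurable (fun y' : V => ((y, y') : V × V)) := measurable_prodMk_left
  have h2 := measurable_tau.comp h
  exact h2

theorem TE_J_le {μ' : Measure V} [IsFiniteMeasure μ'] {ε : ℝ} (hε : 0 < ε) (y : V) :
    TE_J μ' ε y ≤ ∑' k : ℕ, ENNReal.ofReal (TE_c k * TE_q μ' y (Real.sqrt ((k : ℝ) + 1) * ε)) := by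
  have hset : ∀ k : ℕ, MeasurableSet {y' | tau y y' < (Real.sqrt ((k : ℝ) + 1) * ε) ^ 2} :=
    fun k => measurableSet_lt (TE_tau_meas y) measurable_const
  have hsq : ∀ k : ℕ, (Real.sqrt ((k : ℝ) + 1) * ε) ^ 2 = ((k : ℝ) + 1) * ε ^ 2 := by
    intro k
    rw [mul_pow, Real.sq_sqrt (by positivity)]
  have hpt : ∀ y', ENNReal.ofReal (ε⁻¹ ^ 2 * Real.exp (-(tau y y') / (16 * ε ^ 2))) ≤
      ∑' k : ℕ, Set.indicator {y' | tau y y' < (Real.sqrt ((k : ℝ) + 1) * ε) ^ 2}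
        (fun _ => ENNReal.ofReal (ε⁻¹ ^ 2 * Real.exp (-(k : ℝ) / 16))) y' := by
    intro y'
    have h0 := tau_nonneg y y'
    obtain ⟨k, hk⟩ : ∃ k : ℕ, k = ⌊tau y y' / ε ^ 2⌋₊ := ⟨_, rfl⟩
    have h1 : (k : ℝ) ≤ tau y y' / ε ^ 2 := by
      rw [hk]
      exact Nat.floor_le (by positivity)
    have h2 : tau y y' / ε ^ 2 < (k : ℝ) + 1 := by
      rw [hk]
      exact Nat.lt_floor_add_one _
    refine le_trans ?_ (ENNReal.le_tsum k)
    have hmem : y' ∈ {y' | tau y y' < (Real.sqrt ((k : ℝ) + 1) * ε) ^ 2} := by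
      show tau y y' < (Real.sqrt ((k : ℝ) + 1) * ε) ^ 2
      rw [hsq]
      rwa [div_lt_iff₀ (by positivity)] at h2
    rw [Set.indicator_of_mem hmem]
    refine ENNReal.ofReal_le_ofReal ?_
    refine mul_le_mul_of_nonneg_left (Real.exp_le_exp.mpr ?_) (by positivity)
    have h3 : -(tau y y') / (16 * ε ^ 2) = -(tau y y' / ε ^ 2) / 16 := by
      field_simp
    rw [h3]
    linarith
  unfold TE_J
  refine (lintegral_mono hpt).trans ?_
  rw [lintegral_tsum fun k => (measurable_const.indicator (hset k)).aemeasurable]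
  refine ENNReal.tsum_le_tsum fun k => ?_
  rw [lintegral_indicator (hset k), setLIntegral_const]
  have hfin : μ' {y' | tau y y' < (Real.sqrt ((k : ℝ) + 1) * ε) ^ 2} =
      ENNReal.ofReal (μ' {y' | tau y y' < (Real.sqrt ((k : ℝ) + 1) * ε) ^ 2}).toReal :=
    (ENNReal.ofReal_toReal (measure_ne_top _ _)).symm
  rw [hfin, ← ENNReal.ofReal_mul (by positivity)]
  refine ENNReal.ofReal_le_ofReal (le_of_eq ?_)
  unfold TE_q TE_c
  rw [hsq]
  have hk : (k : ℝ) + 1 ≠ 0 := by positivity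
  field_simp

theorem TE_J_bdd {μ' : Measure V} [IsFiniteMeasure μ']
    (hm : ∀ (y : V) (s : ℝ), N y = 1 → 0 < s → (μ' {x | tau x y < s ^ 2}).toReal ≤ 4 * s ^ 2)
    {ε : ℝ} (hε : 0 < ε) {y : V} (hy : N y = 1) :
    TE_J μ' ε y ≤ ENNReal.ofReal (∑' k : ℕ, TE_c k * 4) := by
  refine (TE_J_le hε y).trans ?_
  rw [ENNReal.ofReal_tsum_of_nonneg (fun k => mul_nonneg (TE_c_nonneg k) (by norm_num)) TE_c_summable]
  refine ENNReal.tsum_le_tsum fun k => ENNReal.ofReal_le_ofReal ?_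
  exact mul_le_mul_of_nonneg_left (TE_q_le hm hy (by positivity)) (TE_c_nonneg k)

theorem TE_J_tendsto {μ' : Measure V} [IsFiniteMeasure μ']
    (hm : ∀ (y : V) (s : ℝ), N y = 1 → 0 < s → (μ' {x | tau x y < s ^ 2}).toReal ≤ 4 * s ^ 2)
    {y : V} (hy : N y = 1) (hz : Tendsto (TE_q μ' y) (𝓝[>] 0) (𝓝 0)) :
    Tendsto (fun ε : ℝ => TE_J μ' ε y) (𝓝[>] 0) (𝓝 0) := by
  have hpos : ∀ᶠ ε : ℝ in 𝓝[>] 0, 0 < ε := self_mem_nhdsWithin
  have hb : ∀ᶠ ε : ℝ in 𝓝[>] 0, ∀ k : ℕ,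
      ‖TE_c k * TE_q μ' y (Real.sqrt ((k : ℝ) + 1) * ε)‖ ≤ TE_c k * 4 := by
    filter_upwards [hpos] with ε hε k
    rw [Real.norm_eq_abs, abs_of_nonneg (mul_nonneg (TE_c_nonneg k) (TE_q_nonneg _ _ _))]
    exact mul_le_mul_of_nonneg_left (TE_q_le hm hy (by positivity)) (TE_c_nonneg k)
  have hterm : ∀ k : ℕ, Tendsto (fun ε : ℝ => TE_c k * TE_q μ' y (Real.sqrt ((k : ℝ) + 1) * ε))
      (𝓝[>] 0) (𝓝 0) := by
    intro k
    have h1 : Tendsto (fun ε : ℝ => Real.sqrt ((k : ℝ) + 1) * ε) (𝓝[>] 0) (𝓝[>] 0) := by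
      rw [tendsto_nhdsWithin_iff]
      constructor
      · have h2 : Tendsto (fun ε : ℝ => Real.sqrt ((k : ℝ) + 1) * ε) (𝓝 0)
            (𝓝 (Real.sqrt ((k : ℝ) + 1) * 0)) := tendsto_id.const_mul _
        rw [mul_zero] at h2
        exact h2.mono_left nhdsWithin_le_nhds
      · filter_upwards [hpos] with ε hε
        show 0 < Real.sqrt ((k : ℝ) + 1) * ε
        positivity
    have h3 := (hz.comp h1).const_mul (TE_c k)
    rw [mul_zero] at h3
    exact h3
  have htot : Tendsto (fun ε : ℝ => ∑' k : ℕ, TE_c k * TE_q μ' y (Real.sqrt ((k : ℝ) + 1) * ε))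
      (𝓝[>] 0) (𝓝 0) := by
    have h1 := tendsto_tsum_of_dominated_convergence TE_c_summable hterm hb
    rw [tsum_zero] at h1
    exact h1
  have htot2 := ENNReal.tendsto_ofReal htot
  rw [ENNReal.ofReal_zero] at htot2
  refine tendsto_of_tendsto_of_tendsto_of_le_of_le' tendsto_const_nhds htot2
    (Eventually.of_forall fun _ => zero_le) ?_
  filter_upwards [hpos, hb] with ε hε hbε
  refine (TE_J_le hε y).trans (le_of_eq ?_)
  refine (ENNReal.ofReal_tsum_of_nonneg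
    (fun k => mul_nonneg (TE_c_nonneg k) (TE_q_nonneg _ _ _)) ?_).symm
  refine TE_c_summable.of_norm_bounded fun k => hbε k

theorem q2_tendsto {F : Fin 3 → MvPolynomial (Fin 3) ℂ} {μ μ' : Measure V} (hμ : IsCur F μ) (hμ' : IsCur F μ')
    (hm : ∀ (y : V) (s : ℝ), N y = 1 → 0 < s → (μ' {x | tau x y < s ^ 2}).toReal ≤ 4 * s ^ 2) (hz : ZeroLelongAll F μ')
    {K : ℝ} (hc : ∫⁻ y, ENNReal.ofReal (IIq F y) ∂μ ≤ ENNReal.ofReal K) :
    Tendsto (fun ε : ℝ => Q2 F μ μ' ε) (𝓝[>] 0) (𝓝 0) := by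
  have hf : IsFiniteMeasure μ := ⟨by rw [hμ.prob]; exact ENNReal.one_lt_top⟩
  have hf' : IsFiniteMeasure μ' := ⟨by rw [hμ'.prob]; exact ENNReal.one_lt_top⟩
  have hpos : ∀ᶠ ε : ℝ in 𝓝[>] 0, 0 < ε := self_mem_nhdsWithin
  have hin : ∀ ε y, ∫⁻ y', ENNReal.ofReal (ε⁻¹ ^ 2 * (1 + IIq F y) *
      Real.exp (-(tau y y') / (16 * ε ^ 2))) ∂μ' =
      ENNReal.ofReal (1 + IIq F y) * TE_J μ' ε y := by
    intro ε y
    unfold TE_J
    rw [← lintegral_const_mul' _ _ ENNReal.ofReal_ne_top]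
    refine lintegral_congr fun y' => ?_
    have h0 := IIq_nonneg F y
    rw [← ENNReal.ofReal_mul (by linarith)]
    congr 1
    ring
  have hlim := tendsto_lintegral_filter_of_dominated_convergence (μ := μ) (l := 𝓝[>] (0 : ℝ))
    (F := fun ε y => ∫⁻ y', ENNReal.ofReal (ε⁻¹ ^ 2 * (1 + IIq F y) *
      Real.exp (-(tau y y') / (16 * ε ^ 2))) ∂μ') (f := fun _ => 0)
    (fun y => ENNReal.ofReal (1 + IIq F y) * ENNReal.ofReal (∑' k : ℕ, TE_c k * 4)) ?_ ?_ ?_ ?_
  · simp only [lintegral_zero] at hlim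
    exact hlim
  · refine Eventually.of_forall fun ε => ?_
    refine Measurable.lintegral_prod_right' (f := fun q : V × V => ENNReal.ofReal (ε⁻¹ ^ 2 *
      (1 + IIq F q.1) * Real.exp (-(tau q.1 q.2) / (16 * ε ^ 2)))) ?_
    refine ENNReal.measurable_ofReal.comp ?_
    refine Measurable.mul ?_ ?_
    · exact measurable_const.mul (measurable_const.add ((measurable_IIq F).comp measurable_fst))
    · exact Real.measurable_exp.comp ((measurable_tau.neg).div_const _)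
  · filter_upwards [hpos] with ε hε
    filter_upwards [hμ.sphere] with y hy
    rw [hin]
    exact mul_le_mul' le_rfl (TE_J_bdd hm hε hy)
  · rw [lintegral_mul_const' _ _ ENNReal.ofReal_ne_top]
    refine ENNReal.mul_ne_top ?_ ENNReal.ofReal_ne_top
    have h1 : ∀ y, ENNReal.ofReal (1 + IIq F y) = 1 + ENNReal.ofReal (IIq F y) := by
      intro y
      rw [ENNReal.ofReal_add zero_le_one (IIq_nonneg F y), ENNReal.ofReal_one]
    simp only [h1]
    rw [lintegral_add_left measurable_const, lintegral_one]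
    refine ENNReal.add_ne_top.mpr ⟨measure_ne_top _ _, ?_⟩
    exact ne_top_of_le_ne_top ENNReal.ofReal_ne_top hc
  · filter_upwards [hμ.sphere, hμ.sing] with y hy hs
    have h1 := TE_J_tendsto hm hy (hz y hy hs)
    have h2 := ENNReal.Tendsto.const_mul (a := ENNReal.ofReal (1 + IIq F y)) h1
      (Or.inr ENNReal.ofReal_ne_top)
    rw [mul_zero] at h2
    refine h2.congr fun ε => ?_
    rw [hin]

end FT76
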