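import Pool.Agent.H76.FT.TA

/-!
# Row TF: summation over the dyadic scales

1. `dyadic_real`: there is C with `∑_{j<n} 16^j exp (-(t 4^j)/8) ≤ C/t^2` for all t > 0, n.  With x_j = t 4^j: the sum is `t^(-2) ∑ x_j^2 exp(-x_j/8)`.  `x (1+x)^2 exp(-x/8) ≤ C'` for x >= 0 (continuous, tends to 0; or
 exp(x/8) >= (x/8)^3/6 and >= 1 etc.: x(1+x)^2 <= 4(1 + x^3) ... ), so `x^2 exp(-x/8) ≤ C' x/(1+x)^2`; with `h x = x/(1+x)`: `h(4x) - h(x) = 3x/((1+x)(1+4x)) ≥ (3/4) x/(1+x)^2`, so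
 `∑_{j<n} x_j/(1+x_j)^2 ≤ (4/3)(h(x_n) - h(x_0)) ≤ 4/3` (telescoping).
2. `dyadic`: with ε = (1/2)^j: `ε⁻¹^4 = 16^j`, `exp (-(tau)/(8 ε^2)) = exp (-(tau 4^j)/8)`.  `∑' j, L1 ... = ∑' ∫⁻∫⁻ = ∫⁻∫⁻ ∑'` (`lintegral_tsum`, measurability from TA and `measurable_tau`); pointwise
 `∑' j, ofReal (16^j Kq |bp|^2 exp(..)) ≤ ofReal (C Kq |bp (nv F y') y|^2/tau^2)`: if tau > 0 by 1. (supremum of the partial sums, `ENNReal.tsum_eq_iSup_nat`/`ENNReal.tsum_le_of_sum_range_le`);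
 if tau = 0 (y, y' unit): y' = c • y with c ≠ 0 (`tau_eq_zero`), so `bp (nv F y') y = c⁻¹ bp (nv F y') y' = 0` (`bp_nv`) and all terms vanish.  (y unit on Kr P r; y' unit a.e.)
 Then `∫⁻ y' ofReal (|bp|^2/tau^2) dμ' ≤ 1` (hypothesis `hl`) for every unit y.
-/

open MeasureTheory Filter Topology
open scoped ContDiff BigOperators ComplexConjugate Matrix

namespace FT76

open Pool.Agent.H85.DC

theorem TF_key {x : ℝ} (hx : 0 < x) :
    x ^ 2 * Real.exp (-x / 8) ≤ 18432 * (4 * x / (1 + 4 * x) - x / (1 + x)) := by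
  have h1 : 1 + x / 24 ≤ Real.exp (x / 24) := by
    have := Real.add_one_le_exp (x / 24)
    linarith
  have h2 : (1 + x) / 24 ≤ Real.exp (x / 24) := by linarith
  have h3 : ((1 + x) / 24) ^ 3 ≤ Real.exp (x / 24) ^ 3 := by
    gcongr
  have h4 : Real.exp (x / 24) ^ 3 = Real.exp (x / 8) := by
    rw [← Real.exp_nat_mul]
    congr 1
    push_cast
    ring
  rw [h4] at h3
  have h5 : Real.exp (-x / 8) = (Real.exp (x / 8))⁻¹ := by
    rw [← Real.exp_neg]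
    congr 1
    ring
  have h6 : (1 + x) ^ 3 * Real.exp (-x / 8) ≤ 13824 := by
    rw [h5, ← div_eq_mul_inv, div_le_iff₀ (Real.exp_pos _)]
    have : ((1 + x) / 24) ^ 3 = (1 + x) ^ 3 / 13824 := by ring
    rw [this, div_le_iff₀ (by norm_num)] at h3
    linarith
  have h7 : 0 < Real.exp (-x / 8) := Real.exp_pos _
  have h8 : 4 * x / (1 + 4 * x) - x / (1 + x) = 3 * x / ((1 + x) * (1 + 4 * x)) := by
    field_simp
    ring
  rw [h8]
  have h9 : x * Real.exp (-x / 8) ≤ 13824 / (1 + x) ^ 2 := by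
    rw [le_div_iff₀ (by positivity)]
    calc x * Real.exp (-x / 8) * (1 + x) ^ 2 ≤ (1 + x) * Real.exp (-x / 8) * (1 + x) ^ 2 := by
          gcongr
          linarith
      _ = (1 + x) ^ 3 * Real.exp (-x / 8) := by ring
      _ ≤ 13824 := h6
  calc x ^ 2 * Real.exp (-x / 8) = x * (x * Real.exp (-x / 8)) := by ring
    _ ≤ x * (13824 / (1 + x) ^ 2) := by gcongr
    _ ≤ 18432 * (3 * x / ((1 + x) * (1 + 4 * x))) := by
      have e1 : x * (13824 / (1 + x) ^ 2) = 13824 * x / ((1 + x) * (1 + x)) := by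
        field_simp
      have e2 : 18432 * (3 * x / ((1 + x) * (1 + 4 * x))) =
          13824 * x / ((1 + x) * ((1 + 4 * x) / 4)) := by
        field_simp
        ring
      rw [e1, e2]
      gcongr
      linarith

theorem dyadic_real : ∃ C : ℝ, 0 < C ∧ ∀ (t : ℝ) (n : ℕ), 0 < t →
    ∑ j ∈ Finset.range n, (16 : ℝ) ^ j * Real.exp (-(t * 4 ^ j) / 8) ≤ C / t ^ 2 := by
  refine ⟨18432, by norm_num, ?_⟩
  intro t n ht
  have h1 : ∀ n : ℕ, ∑ j ∈ Finset.range n, (16 : ℝ) ^ j * Real.exp (-(t * 4 ^ j) / 8) ≤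
      18432 / t ^ 2 * (t * 4 ^ n / (1 + t * 4 ^ n) - t / (1 + t)) := by
    intro n
    induction n with
    | zero => simp
    | succ n ih =>
      rw [Finset.sum_range_succ]
      have hx : 0 < t * 4 ^ n := by positivity
      have h2 := TF_key hx
      have h3 : (16 : ℝ) ^ n * Real.exp (-(t * 4 ^ n) / 8) =
          (t * 4 ^ n) ^ 2 * Real.exp (-(t * 4 ^ n) / 8) / t ^ 2 := by
        have : (t * 4 ^ n) ^ 2 = t ^ 2 * 16 ^ n := by
          rw [mul_pow, ← pow_mul, mul_comm n 2, pow_mul]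
          norm_num
        rw [this]
        field_simp
      have h4 : (16 : ℝ) ^ n * Real.exp (-(t * 4 ^ n) / 8) ≤
          18432 / t ^ 2 * (t * 4 ^ (n + 1) / (1 + t * 4 ^ (n + 1)) -
            t * 4 ^ n / (1 + t * 4 ^ n)) := by
        rw [h3]
        have e1 : 4 * (t * 4 ^ n) = t * 4 ^ (n + 1) := by ring
        rw [e1] at h2
        calc (t * 4 ^ n) ^ 2 * Real.exp (-(t * 4 ^ n) / 8) / t ^ 2 ≤
            18432 * (t * 4 ^ (n + 1) / (1 + t * 4 ^ (n + 1)) - t * 4 ^ n / (1 + t * 4 ^ n)) /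
              t ^ 2 := by gcongr
          _ = _ := by ring
      calc _ ≤ 18432 / t ^ 2 * (t * 4 ^ n / (1 + t * 4 ^ n) - t / (1 + t)) +
          18432 / t ^ 2 * (t * 4 ^ (n + 1) / (1 + t * 4 ^ (n + 1)) -
            t * 4 ^ n / (1 + t * 4 ^ n)) := add_le_add ih h4
        _ = _ := by ring
  refine (h1 n).trans ?_
  have h5 : t * 4 ^ n / (1 + t * 4 ^ n) - t / (1 + t) ≤ 1 := by
    have e1 : t * 4 ^ n / (1 + t * 4 ^ n) ≤ 1 := by
      rw [div_le_one (by positivity)]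
      linarith
    have e2 : 0 ≤ t / (1 + t) := by positivity
    linarith
  calc _ ≤ 18432 / t ^ 2 * 1 := by gcongr
    _ = _ := mul_one _

theorem TF_bp_smul (a : V) (c : ℂ) (v : V) : bp a (c • v) = c * bp a v := by
  unfold bp
  rw [Finset.mul_sum]
  refine Finset.sum_congr rfl fun j _ => ?_
  simp only [Pi.smul_apply, smul_eq_mul]
  ring

theorem TF_ne {y : V} (hy : N y = 1) : y ≠ 0 := by
  rintro rfl
  simp [N] at hy

theorem TF_pt {C : ℝ} (hC : 0 < C) (hd : ∀ (t : ℝ) (n : ℕ), 0 < t →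
    ∑ j ∈ Finset.range n, (16 : ℝ) ^ j * Real.exp (-(t * 4 ^ j) / 8) ≤ C / t ^ 2)
    {K b τ : ℝ} (hK : 0 ≤ K) (hb : 0 ≤ b) (hτ : 0 ≤ τ) (h0 : τ = 0 → b = 0) :
    ∑' j : ℕ, ENNReal.ofReal ((((1 / 2 : ℝ) ^ j)⁻¹) ^ 4 * K * b *
      Real.exp (-τ / (8 * ((1 / 2 : ℝ) ^ j) ^ 2))) ≤
      ENNReal.ofReal C * ENNReal.ofReal K * ENNReal.ofReal (b / τ ^ 2) := by
  have e1 : ∀ j : ℕ, (((1 / 2 : ℝ) ^ j)⁻¹) ^ 4 * K * b *
      Real.exp (-τ / (8 * ((1 / 2 : ℝ) ^ j) ^ 2)) =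
      K * b * ((16 : ℝ) ^ j * Real.exp (-(τ * 4 ^ j) / 8)) := by
    intro j
    have a1 : (((1 / 2 : ℝ) ^ j)⁻¹) ^ 4 = 16 ^ j := by
      rw [← inv_pow, ← pow_mul, mul_comm j 4, pow_mul]
      norm_num
    have a2 : ((1 / 2 : ℝ) ^ j) ^ 2 = (4 ^ j)⁻¹ := by
      rw [← pow_mul, mul_comm j 2, pow_mul, ← inv_pow]
      norm_num
    have a3 : -τ / (8 * ((1 / 2 : ℝ) ^ j) ^ 2) = -(τ * 4 ^ j) / 8 := by
      rw [a2]
      field_simp
    rw [a1, a3]
    ring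
  simp_rw [e1]
  rcases hτ.eq_or_lt with h | h
  · have hb0 := h0 h.symm
    simp [hb0]
  · refine ENNReal.tsum_le_of_sum_range_le fun n => ?_
    rw [← ENNReal.ofReal_sum_of_nonneg (fun j _ => by positivity), ← Finset.mul_sum,
      ← ENNReal.ofReal_mul hC.le, ← ENNReal.ofReal_mul (by positivity)]
    refine ENNReal.ofReal_le_ofReal ?_
    calc K * b * ∑ j ∈ Finset.range n, (16 : ℝ) ^ j * Real.exp (-(τ * 4 ^ j) / 8) ≤
        K * b * (C / τ ^ 2) := by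
          gcongr
          exact hd τ n h
      _ = C * K * (b / τ ^ 2) := by ring

theorem TF_meas (F : Fin 3 → MvPolynomial (Fin 3) ℂ) (ε : ℝ) :
    Measurable (fun q : V × V => ENNReal.ofReal (ε⁻¹ ^ 4 * Kq F q.1 *
      Complex.normSq (bp (nv F q.2) q.1) * Real.exp (-(tau q.1 q.2) / (8 * ε ^ 2)))) := by
  have h1 : Measurable (fun q : V × V => Kq F q.1) := (measurable_Kq F).comp measurable_fst
  have h2 : Measurable (fun q : V × V => bp (nv F q.2) q.1) := by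
    unfold bp
    refine Finset.measurable_fun_sum _ fun j _ => ?_
    have m1 : Measurable (fun q : V × V => nv F q.2 j) :=
      (measurable_pi_apply j).comp ((measurable_nv F).comp measurable_snd)
    have m2 : Measurable (fun q : V × V => q.1 j) :=
      (measurable_pi_apply j).comp measurable_fst
    exact m1.mul m2
  have h3 : Measurable (fun q : V × V => Complex.normSq (bp (nv F q.2) q.1)) :=
    Complex.continuous_normSq.measurable.comp h2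
  have h4 := measurable_tau
  have h5 : Measurable (fun q : V × V => Real.exp (-(tau q.1 q.2) / (8 * ε ^ 2))) :=
    Real.measurable_exp.comp (h4.neg.div_const _)
  exact (((h1.const_mul _).mul h3).mul h5).ennreal_ofReal

/-- the integrand -/
noncomputable def TF_g (F : Fin 3 → MvPolynomial (Fin 3) ℂ) (ε : ℝ) (q : V × V) : ENNReal :=
  ENNReal.ofReal (ε⁻¹ ^ 4 * Kq F q.1 *
      Complex.normSq (bp (nv F q.2) q.1) * Real.exp (-(tau q.1 q.2) / (8 * ε ^ 2)))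

theorem TF_L1 (F : Fin 3 → MvPolynomial (Fin 3) ℂ) (μ μ' : Measure V) (P : Finset V) (r ε : ℝ) :
    L1 F μ μ' P r ε = ∫⁻ y in Kr P r, ∫⁻ y', TF_g F ε (y, y') ∂μ' ∂μ := rfl

theorem TF_g_meas (F : Fin 3 → MvPolynomial (Fin 3) ℂ) (ε : ℝ) : Measurable (TF_g F ε) :=
  TF_meas F ε

theorem TF_sum {C : ℝ} (hC : 0 < C) (hd : ∀ (t : ℝ) (n : ℕ), 0 < t →
    ∑ j ∈ Finset.range n, (16 : ℝ) ^ j * Real.exp (-(t * 4 ^ j) / 8) ≤ C / t ^ 2)
    (F : Fin 3 → MvPolynomial (Fin 3) ℂ) {y y' : V} (hy : N y = 1) (hy' : N y' = 1) :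
    ∑' j : ℕ, TF_g F ((1 / 2 : ℝ) ^ j) (y, y') ≤ ENNReal.ofReal C * ENNReal.ofReal (Kq F y) *
      ENNReal.ofReal (Complex.normSq (bp (nv F y') y) / (tau y y') ^ 2) := by
  have h0 : tau y y' = 0 → Complex.normSq (bp (nv F y') y) = 0 := by
    intro h0
    obtain ⟨c, hc⟩ := tau_eq_zero (TF_ne hy) (TF_ne hy') h0
    have : bp (nv F y') y = 0 := by
      rw [hc, TF_bp_smul, bp_nv, mul_zero]
    rw [this, Complex.normSq_zero]
  exact TF_pt hC hd (Kq_nonneg F y) (Complex.normSq_nonneg (bp (nv F y') y)) (tau_nonneg y y') h0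

theorem dyadic : ∃ C : ℝ, 0 < C ∧ ∀ (F : Fin 3 → MvPolynomial (Fin 3) ℂ) (μ μ' : Measure V) (P : Finset V) (r : ℝ),
    IsCur F μ → IsCur F μ' →
    (∀ y : V, N y = 1 → ∫⁻ y', ENNReal.ofReal (Complex.normSq (bp (nv F y') y) / (tau y y') ^ 2) ∂μ' ≤ 1) →
    ∑' j : ℕ, L1 F μ μ' P r ((1 / 2) ^ j) ≤ ENNReal.ofReal C * ∫⁻ y in Kr P r, ENNReal.ofReal (Kq F y) ∂μ := by
  obtain ⟨C, hC, hd⟩ := dyadic_real
  refine ⟨C, hC, ?_⟩
  intro F μ μ' P r hμ hμ' hl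
  have p1 : IsProbabilityMeasure μ := ⟨hμ.prob⟩
  have p2 : IsProbabilityMeasure μ' := ⟨hμ'.prob⟩
  have hG : ∀ j : ℕ, Measurable (fun y : V => ∫⁻ y', TF_g F ((1 / 2 : ℝ) ^ j) (y, y') ∂μ') :=
    fun j => (TF_g_meas F ((1 / 2 : ℝ) ^ j)).lintegral_prod_right'
  simp_rw [TF_L1]
  rw [← lintegral_tsum (fun j => (hG j).aemeasurable), ← lintegral_const_mul' _ _
    ENNReal.ofReal_ne_top]
  refine lintegral_mono_ae ?_
  have hs : ∀ᵐ y ∂(μ.restrict (Kr P r)), N y = 1 := ae_restrict_of_ae hμ.sphere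
  filter_upwards [hs] with y hy
  have hin : ∀ j : ℕ, Measurable (fun y' : V => TF_g F ((1 / 2 : ℝ) ^ j) (y, y')) :=
    fun j => (TF_g_meas F ((1 / 2 : ℝ) ^ j)).comp measurable_prodMk_left
  rw [← lintegral_tsum (fun j => (hin j).aemeasurable)]
  have h1 : ∫⁻ y', ∑' j : ℕ, TF_g F ((1 / 2 : ℝ) ^ j) (y, y') ∂μ' ≤
      ∫⁻ y', ENNReal.ofReal C * ENNReal.ofReal (Kq F y) *
        ENNReal.ofReal (Complex.normSq (bp (nv F y') y) / (tau y y') ^ 2) ∂μ' := by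
    refine lintegral_mono_ae ?_
    filter_upwards [hμ'.sphere] with y' hy'
    exact TF_sum hC hd F hy hy'
  have h2 : ∫⁻ y', ENNReal.ofReal C * ENNReal.ofReal (Kq F y) *
        ENNReal.ofReal (Complex.normSq (bp (nv F y') y) / (tau y y') ^ 2) ∂μ' =
      ENNReal.ofReal C * ENNReal.ofReal (Kq F y) *
        ∫⁻ y', ENNReal.ofReal (Complex.normSq (bp (nv F y') y) / (tau y y') ^ 2) ∂μ' :=
    lintegral_const_mul' _ _ (ENNReal.mul_ne_top ENNReal.ofReal_ne_top ENNReal.ofReal_ne_top)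
  have h3 : ENNReal.ofReal C * ENNReal.ofReal (Kq F y) *
        ∫⁻ y', ENNReal.ofReal (Complex.normSq (bp (nv F y') y) / (tau y y') ^ 2) ∂μ' ≤
      ENNReal.ofReal C * ENNReal.ofReal (Kq F y) * 1 := by
    gcongr
    exact hl y hy
  rw [mul_one] at h3
  exact h1.trans (h2.le.trans h3)

end FT76
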