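import Pool.Agent.H76.FT.TA

/-!
# Row TG: the truncated energy is o(log 1/ε) when all Lelong numbers off Sing vanish

n := μ + μ', n(V) = 2.  Layer cake, for unit y: `(t + ε^2)⁻¹ = (1+ε^2)⁻¹ + ∫_{√t}^1 2s/(s^2+ε^2)^2 ds` for 0 <= t <= 1, so (Tonelli)
`∫ (tau y y' + ε^2)⁻¹ dn(y') ≤ 2 + ∫_0^1 n{tau y · < s^2} 2s/(s^2+ε^2)^2 ds` (√t < s iff t < s^2; up to the null set of s with equality).
θ_y(s) := n{tau y · < s^2}/s^2 ≤ 8 (mass bounds, `tau_symm`), → 0 as s → 0 for n-a.e. y (`ZeroLelongAll` for both measures; y unit, eta F y ≠ 0 a.e.).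
J(y,ε) := ∫_0^1 θ_y(s) 2 s^3/(s^2+ε^2)^2 ds.  For β in (0,1): `J ≤ (sup_{s<β} θ_y(s)) ∫_0^1 2s^3/(s^2+ε^2)^2 ds + 8 ∫_β^1 2/s ds` and `∫_0^1 2 s^3/(s^2+ε^2)^2 ds ≤ ∫_0^1 2s/(s^2+ε^2) ds = log ((1+ε^2)/ε^2) ≤ 2 log(1/ε) + 1`.
So `J(y,ε)/log(1/ε) → 0` for a.e. y, and `≤ 8 * 3` for ε <= e^(-1): dominated convergence: `∫ J(y,ε) dn(y) = o(log 1/ε)`.
`En n P r ε ≤ ∫ (2 + J(y,ε)) dn(y) ≤ 4 + o(log 1/ε)` (the integrand of `En` is nonnegative; bounded by ε^(-2)).
A discrete alternative to the layer cake: dyadic shells `tau ∈ [4^(-(i+1)), 4^(-i))`, i < I ~ log_4(1/ε^2), on which `(tau + ε^2)⁻¹ ≤ 4^(i+1)` and the mass is `≤ θ_y(2^(-i)) 4^(-i)`, plus the core `tau < 4^(-I) ≤ 4 ε^2` with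
contribution `≤ ε^(-2) 8 * 4 ε^2`: `∫ (tau + ε^2)⁻¹ dn ≤ 32 + 4 ∑_{i<I} θ_y(2^(-i))`, and the Cesàro mean of a sequence tending to 0 tends to 0 (`Filter.Tendsto.cesaro`); dominated convergence for the Cesàro means
(`≤ 8`), I ≤ C log(1/ε).  This avoids one-variable integrals and is recommended.
-/

open MeasureTheory Filter Topology
open scoped ContDiff BigOperators ComplexConjugate Matrix

namespace FT76

open Pool.Agent.H85.DC

theorem TG_pt {t ε : ℝ} (h0 : 0 ≤ t) (h1 : t ≤ 1) (hε : 0 < ε) (I : ℕ) :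
    (t + ε ^ 2)⁻¹ ≤ 1 + ∑ i ∈ Finset.range I, (4 : ℝ) ^ (i + 1) * (if t < (1 / 4) ^ i then 1 else 0) +
      (ε ^ 2)⁻¹ * (if t < (1 / 4) ^ I then 1 else 0) := by
  have hε2 : 0 < ε ^ 2 := by positivity
  have hA : (t + ε ^ 2)⁻¹ ≤ (ε ^ 2)⁻¹ := inv_anti₀ hε2 (by linarith)
  have hs : ∀ I : ℕ, 0 ≤ ∑ i ∈ Finset.range I, (4 : ℝ) ^ (i + 1) * (if t < (1 / 4) ^ i then 1 else 0) := by
    intro I
    refine Finset.sum_nonneg fun i _ => mul_nonneg (by positivity) ?_
    split_ifs <;> norm_num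
  induction I with
  | zero =>
    simp only [Finset.range_zero, Finset.sum_empty, pow_zero, add_zero]
    split_ifs with h
    · rw [mul_one]
      linarith
    · have h2 : t = 1 := le_antisymm h1 (not_lt.1 h)
      rw [mul_zero, add_zero, h2]
      exact inv_le_one_of_one_le₀ (by linarith)
  | succ I ih =>
    by_cases h : t < (1 / 4) ^ (I + 1)
    · rw [if_pos h, mul_one]
      have := hs (I + 1)
      linarith
    · rw [if_neg h, mul_zero, add_zero, Finset.sum_range_succ]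
      by_cases h' : t < (1 / 4) ^ I
      · rw [if_pos h', mul_one]
        have h2 : (1 / 4 : ℝ) ^ (I + 1) ≤ t := not_lt.1 h
        have h3 : (t + ε ^ 2)⁻¹ ≤ ((1 / 4 : ℝ) ^ (I + 1))⁻¹ := inv_anti₀ (by positivity) (by linarith)
        rw [one_div, inv_pow, inv_inv] at h3
        have := hs I
        linarith
      · rw [if_neg h', mul_zero, add_zero] at ih
        rw [if_neg h', mul_zero, add_zero]
        exact ih

/-- the normalised mass of the ball of radius `2^{-i}` -/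
noncomputable def TG_th (n : Measure V) (i : ℕ) (y : V) : ℝ :=
  4 ^ i * (n {y' : V | tau y y' < (1 / 4 : ℝ) ^ i}).toReal

theorem TG_meas (n : Measure V) [SFinite n] (i : ℕ) : Measurable (TG_th n i) := by
  unfold TG_th
  have hs : MeasurableSet {q : V × V | tau q.1 q.2 < (1 / 4 : ℝ) ^ i} :=
    measurableSet_lt measurable_tau measurable_const
  have h1 : Measurable (fun y : V => n (Prod.mk y ⁻¹' {q : V × V | tau q.1 q.2 < (1 / 4 : ℝ) ^ i})) :=
    measurable_measure_prodMk_left hs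
  exact (h1.ennreal_toReal).const_mul _

theorem TG_nonneg (n : Measure V) (i : ℕ) (y : V) : 0 ≤ TG_th n i y :=
  mul_nonneg (by positivity) ENNReal.toReal_nonneg

theorem TG_quarter (i : ℕ) : ((1 / 2 : ℝ) ^ i) ^ 2 = (1 / 4) ^ i := by
  rw [← pow_mul, mul_comm, pow_mul]
  norm_num

theorem TG_le {n : Measure V} {y : V}
    (hm : ∀ s : ℝ, 0 < s → (n {y' : V | tau y y' < s ^ 2}).toReal ≤ 8 * s ^ 2) (i : ℕ) :
    TG_th n i y ≤ 8 := by
  have h1 := hm ((1 / 2) ^ i) (by positivity)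
  rw [TG_quarter] at h1
  unfold TG_th
  calc (4 : ℝ) ^ i * (n {y' : V | tau y y' < (1 / 4 : ℝ) ^ i}).toReal ≤ 4 ^ i * (8 * (1 / 4) ^ i) := by gcongr
    _ = 8 * (4 * (1 / 4)) ^ i := by rw [mul_pow]; ring
    _ = 8 := by norm_num

theorem TG_inner {n : Measure V} [IsFiniteMeasure n] (hn : (n Set.univ).toReal = 2) {y : V}
    (hm : ∀ s : ℝ, 0 < s → (n {y' : V | tau y y' < s ^ 2}).toReal ≤ 8 * s ^ 2) {ε : ℝ} (hε : 0 < ε) {I : ℕ}
    (hI : (1 / 4 : ℝ) ^ I ≤ ε ^ 2) (K : Set V) :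
    ∫ y' in K, (tau y y' + ε ^ 2)⁻¹ ∂n ≤ 10 + 4 * ∑ i ∈ Finset.range I, TG_th n i y := by
  have hε2 : 0 < ε ^ 2 := by positivity
  have htm : Measurable (fun y' : V => tau y y') := measurable_tau.of_uncurry_left
  have hfm : Measurable (fun y' : V => (tau y y' + ε ^ 2)⁻¹) := (htm.add_const _).inv
  have hf0 : ∀ y' : V, 0 ≤ (tau y y' + ε ^ 2)⁻¹ := fun y' =>
    inv_nonneg.2 (add_nonneg (tau_nonneg y y') hε2.le)
  have hfi : Integrable (fun y' : V => (tau y y' + ε ^ 2)⁻¹) n := by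
    refine (integrable_const ((ε ^ 2)⁻¹ : ℝ)).mono' hfm.aestronglyMeasurable
      (Filter.Eventually.of_forall fun y' => ?_)
    rw [Real.norm_of_nonneg (hf0 y')]
    exact inv_anti₀ hε2 (by linarith [tau_nonneg y y'])
  have hSm : ∀ i : ℕ, MeasurableSet {y' : V | tau y y' < (1 / 4 : ℝ) ^ i} := fun i =>
    measurableSet_lt htm measurable_const
  have hSi : ∀ (i : ℕ) (b : ℝ), Integrable
      (fun y' : V => b * Set.indicator {y' : V | tau y y' < (1 / 4 : ℝ) ^ i} (fun _ => (1 : ℝ)) y') n :=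
    fun i b => ((integrable_const (1 : ℝ)).indicator (hSm i)).const_mul b
  have hSI : ∀ (i : ℕ) (b : ℝ),
      ∫ y', b * Set.indicator {y' : V | tau y y' < (1 / 4 : ℝ) ^ i} (fun _ => (1 : ℝ)) y' ∂n =
      b * (n {y' : V | tau y y' < (1 / 4 : ℝ) ^ i}).toReal := by
    intro i b
    rw [integral_const_mul, integral_indicator_const _ (hSm i), smul_eq_mul, mul_one]
    rfl
  have hind : ∀ (i : ℕ) (y' : V), Set.indicator {y' : V | tau y y' < (1 / 4 : ℝ) ^ i}
      (fun _ => (1 : ℝ)) y' = if tau y y' < (1 / 4 : ℝ) ^ i then 1 else 0 := by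
    intro i y'
    by_cases h : tau y y' < (1 / 4 : ℝ) ^ i
    · rw [if_pos h]
      exact Set.indicator_of_mem (s := {y' : V | tau y y' < (1 / 4 : ℝ) ^ i}) h _
    · rw [if_neg h]
      exact Set.indicator_of_notMem (s := {y' : V | tau y y' < (1 / 4 : ℝ) ^ i}) h _
  have hpt : ∀ y' : V, (tau y y' + ε ^ 2)⁻¹ ≤ (1 + ∑ i ∈ Finset.range I, (4 : ℝ) ^ (i + 1) *
      Set.indicator {y' : V | tau y y' < (1 / 4 : ℝ) ^ i} (fun _ => (1 : ℝ)) y') +
      (ε ^ 2)⁻¹ * Set.indicator {y' : V | tau y y' < (1 / 4 : ℝ) ^ I} (fun _ => (1 : ℝ)) y' := by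
    intro y'
    have h1 := TG_pt (tau_nonneg y y') (tau_le_one y y') hε I
    simp only [hind]
    exact h1
  have hgi1 : Integrable (fun y' : V => ∑ i ∈ Finset.range I, (4 : ℝ) ^ (i + 1) *
      Set.indicator {y' : V | tau y y' < (1 / 4 : ℝ) ^ i} (fun _ => (1 : ℝ)) y') n :=
    integrable_finsetSum _ fun i _ => hSi i _
  have hgi2 : Integrable (fun y' : V => (1 : ℝ) + ∑ i ∈ Finset.range I, (4 : ℝ) ^ (i + 1) *
      Set.indicator {y' : V | tau y y' < (1 / 4 : ℝ) ^ i} (fun _ => (1 : ℝ)) y') n :=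
    (integrable_const (1 : ℝ)).add hgi1
  calc ∫ y' in K, (tau y y' + ε ^ 2)⁻¹ ∂n ≤ ∫ y', (tau y y' + ε ^ 2)⁻¹ ∂n :=
        setIntegral_le_integral hfi (Filter.Eventually.of_forall hf0)
    _ ≤ ∫ y', ((1 + ∑ i ∈ Finset.range I, (4 : ℝ) ^ (i + 1) *
      Set.indicator {y' : V | tau y y' < (1 / 4 : ℝ) ^ i} (fun _ => (1 : ℝ)) y') +
      (ε ^ 2)⁻¹ * Set.indicator {y' : V | tau y y' < (1 / 4 : ℝ) ^ I} (fun _ => (1 : ℝ)) y') ∂n :=
        integral_mono hfi (hgi2.add (hSi I _)) hpt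
    _ = 2 + ∑ i ∈ Finset.range I, (4 : ℝ) ^ (i + 1) * (n {y' : V | tau y y' < (1 / 4 : ℝ) ^ i}).toReal +
        (ε ^ 2)⁻¹ * (n {y' : V | tau y y' < (1 / 4 : ℝ) ^ I}).toReal := by
        rw [integral_add hgi2 (hSi I _), integral_add (integrable_const _) hgi1,
          integral_finsetSum _ (fun i _ => hSi i _), hSI, integral_const, smul_eq_mul, mul_one]
        congr 1
        congr 1
        exact Finset.sum_congr rfl fun i _ => hSI i _
    _ ≤ 10 + 4 * ∑ i ∈ Finset.range I, TG_th n i y := by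
        have h1 : (ε ^ 2)⁻¹ * (n {y' : V | tau y y' < (1 / 4 : ℝ) ^ I}).toReal ≤ 8 := by
          have h2 := hm ((1 / 2) ^ I) (by positivity)
          rw [TG_quarter] at h2
          rw [inv_mul_le_iff₀ hε2]
          linarith
        have h3 : ∑ i ∈ Finset.range I, (4 : ℝ) ^ (i + 1) *
            (n {y' : V | tau y y' < (1 / 4 : ℝ) ^ i}).toReal =
            4 * ∑ i ∈ Finset.range I, TG_th n i y := by
          rw [Finset.mul_sum]
          refine Finset.sum_congr rfl fun i _ => ?_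
          unfold TG_th
          ring
        rw [h3]
        linarith

theorem TG_tendsto {n : Measure V} [IsFiniteMeasure n]
    (hm : ∀ᵐ y ∂n, ∀ s : ℝ, 0 < s → (n {y' : V | tau y y' < s ^ 2}).toReal ≤ 8 * s ^ 2)
    (hz : ∀ᵐ y ∂n, Tendsto (fun i => TG_th n i y) atTop (𝓝 0)) :
    Tendsto (fun i => ∫ y, TG_th n i y ∂n) atTop (𝓝 0) := by
  have h := tendsto_integral_of_dominated_convergence (μ := n) (F := fun i y => TG_th n i y)
    (f := fun _ => (0 : ℝ)) (fun _ => (8 : ℝ)) (fun i => (TG_meas n i).aestronglyMeasurable)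
    (integrable_const _) (fun i => by
      filter_upwards [hm] with y hy
      rw [Real.norm_of_nonneg (TG_nonneg n i y)]
      exact TG_le hy i) hz
  simpa using h

theorem TG_I {ε L : ℝ} (hε : 0 < ε) (hL : L = Real.log (1 / ε)) (hL0 : 0 < L) :
    ∃ I : ℕ, (1 / 4 : ℝ) ^ I ≤ ε ^ 2 ∧ L ≤ I ∧ (I : ℝ) ≤ 2 * L + 1 := by
  have hl1 := Real.log_two_gt_d9
  have hl2 := Real.log_two_lt_d9
  refine ⟨⌈L / Real.log 2⌉₊, ?_, ?_, ?_⟩
  · set I := ⌈L / Real.log 2⌉₊ with hI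
    have h1 : L / Real.log 2 ≤ I := Nat.le_ceil _
    have h2 : L ≤ I * Real.log 2 := by
      rwa [div_le_iff₀ (by linarith)] at h1
    have h3 : 1 / ε ≤ 2 ^ I := by
      have h4 := Real.exp_le_exp.2 h2
      rw [hL, Real.exp_log (by positivity)] at h4
      calc 1 / ε ≤ Real.exp (I * Real.log 2) := h4
        _ = 2 ^ I := by
          rw [mul_comm, Real.exp_mul, Real.exp_log (by norm_num), Real.rpow_natCast]
    have h5 : (1 / 2 : ℝ) ^ I ≤ ε := by
      rw [one_div, inv_pow]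
      exact inv_le_of_inv_le₀ hε (by rwa [one_div] at h3)
    rw [← TG_quarter]
    exact pow_le_pow_left₀ (by positivity) h5 2
  · have h1 : L / Real.log 2 ≤ (⌈L / Real.log 2⌉₊ : ℝ) := Nat.le_ceil _
    refine le_trans ?_ h1
    rw [le_div_iff₀ (by linarith)]
    nlinarith
  · have h1 := (Nat.ceil_lt_add_one (a := L / Real.log 2) (by positivity)).le
    refine h1.trans ?_
    have h2 : L / Real.log 2 ≤ 2 * L := by
      rw [div_le_iff₀ (by linarith)]
      nlinarith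
    linarith

theorem en_small2 {F : Fin 3 → MvPolynomial (Fin 3) ℂ} {P : Finset V} {μ μ' : Measure V} (hμ : IsCur F μ)
    (hμ' : IsCur F μ')
    (hm : ∀ (y : V) (s : ℝ), N y = 1 → 0 < s → (μ {x | tau x y < s ^ 2}).toReal ≤ 4 * s ^ 2)
    (hm' : ∀ (y : V) (s : ℝ), N y = 1 → 0 < s → (μ' {x | tau x y < s ^ 2}).toReal ≤ 4 * s ^ 2)
    (hz : ZeroLelongAll F μ) (hz' : ZeroLelongAll F μ') {r η : ℝ} (hη : 0 < η) :
    ∃ ε0 : ℝ, 0 < ε0 ∧ ∀ ε : ℝ, 0 < ε → ε < ε0 → En (μ + μ') P r ε ≤ η * Real.log (1 / ε) := by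
  have hp : IsProbabilityMeasure μ := ⟨hμ.prob⟩
  have hp' : IsProbabilityMeasure μ' := ⟨hμ'.prob⟩
  obtain ⟨n, hn⟩ : ∃ n : Measure V, n = μ + μ' := ⟨_, rfl⟩
  have hfin : IsFiniteMeasure n := by
    rw [hn]
    infer_instance
  rw [← hn]
  have hadd : ∀ S : Set V, (n S).toReal = (μ S).toReal + (μ' S).toReal := by
    intro S
    rw [hn, Measure.add_apply, ENNReal.toReal_add (measure_ne_top _ _) (measure_ne_top _ _)]
  have hn2 : (n Set.univ).toReal = 2 := by
    rw [hadd, hμ.prob, hμ'.prob]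
    norm_num
  have hae : ∀ᵐ y ∂n, N y = 1 ∧ eta F y ≠ 0 := by
    rw [hn, ae_add_measure_iff]
    refine ⟨?_, ?_⟩
    · filter_upwards [hμ.sphere, hμ.sing] with y h2 h3 using ⟨h2, h3⟩
    · filter_upwards [hμ'.sphere, hμ'.sing] with y h2 h3 using ⟨h2, h3⟩
  have hmass : ∀ (y : V) (s : ℝ), N y = 1 → 0 < s →
      (n {y' : V | tau y y' < s ^ 2}).toReal ≤ 8 * s ^ 2 := by
    intro y s hy hs
    have h1 := hm y s hy hs
    have h2 := hm' y s hy hs
    have h3 : {x : V | tau x y < s ^ 2} = {y' : V | tau y y' < s ^ 2} := by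
      ext x
      rw [Set.mem_ofPred_eq, Set.mem_ofPred_eq, tau_symm]
    rw [h3] at h1 h2
    rw [hadd]
    linarith
  have hmae : ∀ᵐ y ∂n, ∀ s : ℝ, 0 < s → (n {y' : V | tau y y' < s ^ 2}).toReal ≤ 8 * s ^ 2 := by
    filter_upwards [hae] with y hy s hs using hmass y s hy.1 hs
  have hzae : ∀ᵐ y ∂n, Tendsto (fun i => TG_th n i y) atTop (𝓝 0) := by
    filter_upwards [hae] with y hy
    have h1 := (hz y hy.1 hy.2).add (hz' y hy.1 hy.2)
    have h2 : Tendsto (fun i : ℕ => (1 / 2 : ℝ) ^ i) atTop (𝓝[>] 0) :=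
      tendsto_pow_atTop_nhdsWithin_zero_of_lt_one (by norm_num) (by norm_num)
    have h3 := h1.comp h2
    rw [add_zero] at h3
    refine h3.congr fun i => ?_
    simp only [Function.comp_apply]
    rw [TG_quarter]
    unfold TG_th
    rw [hadd, ← add_div, div_eq_mul_inv, ← inv_pow, mul_comm]
    norm_num
  have hTh := TG_tendsto hmae hzae
  have hces := hTh.cesaro
  have hη16 : 0 < η / 16 := by positivity
  obtain ⟨I0, hI0⟩ := (hces.eventually (gt_mem_nhds hη16)).exists_forall_of_atTop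
  refine ⟨Real.exp (-(max (I0 : ℝ) (40 / η + 1))), Real.exp_pos _, fun ε hε hεlt => ?_⟩
  obtain ⟨L, hL⟩ : ∃ L : ℝ, L = Real.log (1 / ε) := ⟨_, rfl⟩
  have hLM : max (I0 : ℝ) (40 / η + 1) < L := by
    have h1 := Real.log_lt_log hε hεlt
    rw [Real.log_exp] at h1
    rw [hL, one_div, Real.log_inv]
    linarith
  have hL1 : (I0 : ℝ) < L := (le_max_left _ _).trans_lt hLM
  have hL2 : 40 / η + 1 < L := (le_max_right _ _).trans_lt hLM
  have hL0 : 0 < L := lt_of_le_of_lt (Nat.cast_nonneg _) hL1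
  obtain ⟨I, hI1, hI2, hI3⟩ := TG_I hε hL hL0
  have hII : I0 ≤ I := by
    have : (I0 : ℝ) ≤ I := hL1.le.trans hI2
    exact_mod_cast this
  have hIpos : (0 : ℝ) < I := hL0.trans_le hI2
  have hsum : ∑ i ∈ Finset.range I, ∫ y, TG_th n i y ∂n ≤ η / 16 * I := by
    have h1 := (hI0 I hII).le
    rw [inv_mul_le_iff₀ hIpos] at h1
    linarith
  have hthi : ∀ i, Integrable (TG_th n i) n := by
    intro i
    refine (integrable_const (8 : ℝ)).mono' (TG_meas n i).aestronglyMeasurable ?_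
    filter_upwards [hmae] with y hy
    rw [Real.norm_of_nonneg (TG_nonneg n i y)]
    exact TG_le hy i
  have hGi1 : Integrable (fun y => 4 * ∑ i ∈ Finset.range I, TG_th n i y) n :=
    (integrable_finsetSum _ fun i _ => hthi i).const_mul 4
  have hGi : Integrable (fun y => 10 + 4 * ∑ i ∈ Finset.range I, TG_th n i y) n :=
    (integrable_const (10 : ℝ)).add hGi1
  have hG0 : ∀ y, 0 ≤ 10 + 4 * ∑ i ∈ Finset.range I, TG_th n i y := by
    intro y
    have := Finset.sum_nonneg (fun i (_ : i ∈ Finset.range I) => TG_nonneg n i y)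
    linarith
  have hEn : En n P r ε ≤ 20 + 4 * ∑ i ∈ Finset.range I, ∫ y, TG_th n i y ∂n := by
    unfold En
    calc ∫ y in Kr P r, ∫ y' in Kr P r, (tau y y' + ε ^ 2)⁻¹ ∂n ∂n
        ≤ ∫ y in Kr P r, (10 + 4 * ∑ i ∈ Finset.range I, TG_th n i y) ∂n := by
          refine integral_mono_of_nonneg (Filter.Eventually.of_forall fun y => ?_) hGi.restrict ?_
          · exact integral_nonneg fun y' => inv_nonneg.2 (add_nonneg (tau_nonneg y y') (sq_nonneg ε))
          · refine ae_restrict_of_ae ?_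
            filter_upwards [hmae] with y hy
            exact TG_inner hn2 hy hε hI1 _
      _ ≤ ∫ y, (10 + 4 * ∑ i ∈ Finset.range I, TG_th n i y) ∂n :=
          setIntegral_le_integral hGi (Filter.Eventually.of_forall hG0)
      _ = _ := by
          rw [integral_add (integrable_const _) hGi1, integral_const_mul,
            integral_finsetSum _ (fun i _ => hthi i), integral_const]
          congr 1
          rw [smul_eq_mul]
          show (n Set.univ).toReal * 10 = 20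
          rw [hn2]
          norm_num
  have hηL : 40 ≤ η * L - η := by
    have h1 : 40 / η ≤ L - 1 := by linarith
    rw [div_le_iff₀ hη] at h1
    linarith
  calc En n P r ε ≤ 20 + 4 * ∑ i ∈ Finset.range I, ∫ y, TG_th n i y ∂n := hEn
    _ ≤ 20 + 4 * (η / 16 * I) := by gcongr
    _ ≤ 20 + 4 * (η / 16 * (2 * L + 1)) := by gcongr
    _ ≤ η * L := by linarith
    _ = η * Real.log (1 / ε) := by rw [hL]

end FT76
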