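import Pool.Agent.H76.FT.TA

/-!
# Row TH: the loss in terms of the conormals

1. `dir2`: for x ≠ 0 and unit y, y' off the zeros of eta F: `wed (perp x (wv F y)) (perp x (wv F y')) ≤ 6 (tau x y + tau x y') + 3 N (cr (nv F y) (nv F y'))`.
 This is step (2) of row Dir of helper85 (`Pool.Agent.H85.DC.Dir`), before the last estimate: wlog x unit (`perp (l x) w = perp x w`, `tau_smul_left`); phases l, l' with `N (x - l y) ≤ 2 tau x y`, `N (x - l' y') ≤ 2 tau x y'`
 (`tau_phase`).  A = cr x (wv F y), B = cr x (wv F y'), N A, N B ≤ 1, `wed (perp x w) (perp x v) = N (cr A B)` (Binet-Cauchy `binet`: `N A = N (perp x w)`, `ip A B = ip w' v'`; `tau_cross`).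
 `A - l • nv F y = cr (x - l y) (wv F y)` (`nv_eq`), norm² ≤ 2 tau x y; the same for B.  `cr A B = cr (A - l n) B + cr (l n) (B - l' n') + l l' cr n n'`, `N (a+b+c) ≤ 3(N a + N b + N c)`, `N (cr a b) ≤ N a N b`.
2. `loss2`: as in row LosA of helper85 (`loss_bound`), with dir2 instead of `dir`.  By `ee_smsm`: `Re ee (sm μ) (sm μ') (x) = ∫∫ kk(τ) kk(τ') N x^(-2) B dμ'(y') dμ(y)`, τ = tau x y, τ' = tau x y',
 `B = wed + ε^2 (N w' + N v') + 2 ε^4`, `0 ≤ B ≤ 5`.  Tonelli.  Fix unit y, y'.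
 (A) y ∉ Kr P (r0/4): some p has tau y p < r0/4; for x in the region (tau x p ≥ r0) `√tau(x,y) ≥ √r0 - √r0/2`, so tau x y ≥ r0/4 and `kk kk' B ≤ 2ε^(-4) e^(-r0/(4ε^2)) * 2 ε^(-4) * 5`; integrate `N^(-2) wt` (total π^3/2).
 (B) y ∈ Kr P (r0/4): `B ≤ 6 (τ + τ') + 3 D + 4 ε^2`, D = N (cr (nv y) (nv y')).  `kk kk' ≤ 4 ε^(-8) e^(-a)`, a = (τ+τ')/ε^2; `(6 ε^2 a + 3 D + 4 ε^2) e^(-a) ≤ (16 ε^2 + 3 D) e^(-a/2)` (a e^(-a/2) ≤ 1), and `e^(-a/2) = e^(-a/4) e^(-a/4)`,
 a ≥ tau y y'/(2 ε^2) (`tau_two`), `e^(-a/4) ≤ e^(-τ/(4ε^2))`, `∫ e^(-τ/(4ε^2)) dν ≤ π^3 (4 ε^2)^2` (`nu_exp`, `nuP`).  So the contribution is `≤ C ε^(-8) (ε^2 + D) ε^4 e^(-tau(y,y')/(8ε^2))`.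
-/

open MeasureTheory Filter Topology
open scoped ContDiff BigOperators ComplexConjugate Matrix

namespace FT76

open Pool.Agent.H85.DC

private theorem TH_cr_le (a b : V) : N (cr a b) ≤ N a * N b := by
  rw [tau_cross]
  have := Complex.normSq_nonneg (ip a b)
  linarith

private theorem TH_wed (a b : V) : wed a b = N (cr a b) := by
  unfold wed
  rw [tau_cross]

private theorem TH_ip_sub (a b x : V) (s t : ℂ) :
    ip (a - s • x) (b - t • x) = ip a b - conj t * ip a x - s * conj (ip b x) +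
      s * conj t * (N x : ℂ) := by
  rw [← TauM_ip_self x]
  simp only [ip, Fin.sum_univ_three, Pi.sub_apply, Pi.smul_apply, smul_eq_mul, map_add, map_sub,
    map_mul, Complex.conj_conj]
  ring

private theorem TH_perp {x : V} (hx : N x = 1) (w v : V) :
    ip (perp x w) (perp x v) = ip (cr x w) (cr x v) := by
  unfold perp
  rw [TH_ip_sub, binet, hx, Complex.ofReal_one, div_one, div_one]
  ring

private theorem TH_perpN {x : V} (hx : N x = 1) (w : V) : N (perp x w) = N (cr x w) := by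
  have h := TH_perp hx w w
  rw [TauM_ip_self, TauM_ip_self] at h
  exact_mod_cast h

private theorem TH_key {x : V} (hx : N x = 1) (w v : V) :
    wed (perp x w) (perp x v) = N (cr (cr x w) (cr x v)) := by
  rw [← TH_wed]
  unfold wed
  rw [TH_perp hx, TH_perpN hx, TH_perpN hx]

private theorem TH_perp_smul {l : ℂ} (hl : l ≠ 0) {x : V} (hx : x ≠ 0) (w : V) :
    perp (l • x) w = perp x w := by
  unfold perp
  have h1 : (Complex.normSq l : ℂ) = l * conj l := (Complex.mul_conj l).symm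
  have h2 : (N x : ℂ) ≠ 0 := by exact_mod_cast (TauM_N_pos hx).ne'
  have h3 : conj l ≠ 0 := (map_ne_zero _).2 hl
  rw [TauM_ip_smul_right, TauM_N_smul, Complex.ofReal_mul, h1, smul_smul]
  congr 2
  field_simp

private theorem TH_nsq3 (a b c : ℂ) : Complex.normSq (a + b + c) ≤
    3 * (Complex.normSq a + Complex.normSq b + Complex.normSq c) := by
  simp only [Complex.normSq_apply, Complex.add_re, Complex.add_im]
  nlinarith [sq_nonneg (a.re - b.re), sq_nonneg (a.re - c.re), sq_nonneg (b.re - c.re),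
    sq_nonneg (a.im - b.im), sq_nonneg (a.im - c.im), sq_nonneg (b.im - c.im)]

private theorem TH_N3 (a b c : V) : N (a + b + c) ≤ 3 * (N a + N b + N c) := by
  unfold N
  rw [← Finset.sum_add_distrib, ← Finset.sum_add_distrib, Finset.mul_sum]
  exact Finset.sum_le_sum fun j _ => TH_nsq3 _ _ _

private theorem TH_unit {F : Fin 3 → MvPolynomial (Fin 3) ℂ} {x y y' : V}
    (hx : N x = 1) (hy : N y = 1) (hy' : N y' = 1) (h : eta F y ≠ 0) (h' : eta F y' ≠ 0) :
    wed (perp x (wv F y)) (perp x (wv F y')) ≤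
        6 * (tau x y + tau x y') + 3 * N (cr (nv F y) (nv F y')) := by
  obtain ⟨l, hl, hly⟩ := tau_phase hx hy
  obtain ⟨l', hl', hly'⟩ := tau_phase hx hy'
  have w1 := wv_unit hy h
  have v1 := wv_unit hy' h'
  rw [TH_key hx, nv_eq, nv_eq]
  obtain ⟨w, hw⟩ : ∃ w, w = wv F y := ⟨_, rfl⟩
  obtain ⟨v, hv⟩ : ∃ v, v = wv F y' := ⟨_, rfl⟩
  rw [← hw, ← hv]
  rw [← hw] at w1
  rw [← hv] at v1
  have e : cr (cr x w) (cr x v) = cr (cr (x - l • y) w) (cr x v) +
      cr (l • cr y w) (cr (x - l' • y') v) + cr (l • cr y w) (l' • cr y' v) := by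
    have a1 : cr (x - l • y) w = cr x w - l • cr y w := by rw [cr_sub_left, cr_smul_left]
    have a2 : cr (x - l' • y') v = cr x v - l' • cr y' v := by rw [cr_sub_left, cr_smul_left]
    rw [a1, a2, cr_sub_left, cr_sub_right]
    abel
  have n1 : N (cr (cr (x - l • y) w) (cr x v)) ≤ 2 * tau x y := by
    have b1 := TH_cr_le (x - l • y) w
    have b2 := TH_cr_le x v
    have b3 := TH_cr_le (cr (x - l • y) w) (cr x v)
    rw [w1, mul_one] at b1
    rw [hx, v1, mul_one] at b2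
    have b4 := TauM_N_nonneg (cr (x - l • y) w)
    have b5 := TauM_N_nonneg (cr x v)
    nlinarith
  have n2 : N (cr (l • cr y w) (cr (x - l' • y') v)) ≤ 2 * tau x y' := by
    have b1 := TH_cr_le (x - l' • y') v
    have b2 := TH_cr_le y w
    have b3 := TH_cr_le (l • cr y w) (cr (x - l' • y') v)
    rw [TauM_N_smul, hl, one_mul] at b3
    rw [v1, mul_one] at b1
    rw [hy, w1, mul_one] at b2
    have b4 := TauM_N_nonneg (cr (x - l' • y') v)
    have b5 := TauM_N_nonneg (cr y w)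
    nlinarith
  have n3 : N (cr (l • cr y w) (l' • cr y' v)) = N (cr (cr y w) (cr y' v)) := by
    rw [cr_smul_left, cr_smul_right, TauM_N_smul, TauM_N_smul, hl, hl', one_mul, one_mul]
  rw [e]
  have m := TH_N3 (cr (cr (x - l • y) w) (cr x v)) (cr (l • cr y w) (cr (x - l' • y') v))
    (cr (l • cr y w) (l' • cr y' v))
  rw [n3] at m
  linarith

theorem dir2 {F : Fin 3 → MvPolynomial (Fin 3) ℂ} {x y y' : V} (hx : x ≠ 0) (hy : N y = 1) (hy' : N y' = 1)
    (h : eta F y ≠ 0) (h' : eta F y' ≠ 0) :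
    wed (perp x (wv F y)) (perp x (wv F y')) ≤ 6 * (tau x y + tau x y') + 3 * N (cr (nv F y) (nv F y')) := by
  have hN := TauM_N_pos hx
  have hl : (((Real.sqrt (N x))⁻¹ : ℝ) : ℂ) ≠ 0 := by
    have : 0 < Real.sqrt (N x) := Real.sqrt_pos.2 hN
    exact_mod_cast (inv_pos.2 this).ne'
  have hu : N ((((Real.sqrt (N x))⁻¹ : ℝ) : ℂ) • x) = 1 := by
    rw [TauM_N_smul, Complex.normSq_ofReal, ← mul_inv, Real.mul_self_sqrt hN.le]
    exact inv_mul_cancel₀ hN.ne'
  have key := TH_unit (F := F) hu hy hy' h h'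
  rwa [TH_perp_smul hl hx, TH_perp_smul hl hx, tau_smul_left hl, tau_smul_left hl] at key

private theorem TH_exp (a : ℝ) (ha : 0 ≤ a) : Real.exp (-a) ≤ Real.exp (-(a / 4)) * Real.exp (-(a / 4)) := by
  rw [← Real.exp_add]
  apply Real.exp_le_exp.2
  linarith

private theorem TH_ptB {F : Fin 3 → MvPolynomial (Fin 3) ℂ} {ε : ℝ} (hε : 0 < ε) (h1 : ε ≤ 1) {x y y' : V}
    (hx : x ≠ 0) (hy : N y = 1) (hy' : N y' = 1) (he : eta F y ≠ 0) (he' : eta F y' ≠ 0) :
    LosA_k F ε x y y' ≤ (64 * ε⁻¹ ^ 8 * (N (cr (nv F y) (nv F y')) + ε ^ 2) * (Real.exp (-(tau y y') / (8 * ε ^ 2)) *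
      Real.exp (-(tau y x) / (4 * ε ^ 2)))) / (N x) ^ 2 := by
  unfold LosA_k
  have hdir := dir2 hx hy hy' he he'
  have hN := LosA_N_pos hx
  have k1 := kk_nonneg (ε := ε) (tau_le_one x y)
  have k2 := kk_nonneg (ε := ε) (tau_le_one x y')
  have t1 := tau_nonneg x y
  have t2 := tau_nonneg x y'
  have t3 := tau_nonneg y y'
  have k3 := kk_le hε h1 t1
  have k4 := kk_le hε h1 t2
  have h3 := wed_nonneg (perp x (wv F y)) (perp x (wv F y'))
  have h4 := LosA_N_nonneg (perp x (wv F y))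
  have h5 := LosA_N_nonneg (perp x (wv F y'))
  have h6 := LosA_perp_le (F := F) hx hy he
  have h7 := LosA_perp_le (F := F) hx hy' he'
  have e2 : ε ^ 2 ≤ 1 := pow_le_one₀ hε.le h1
  have e4 : ε ^ 4 ≤ ε ^ 2 := pow_le_pow_of_le_one hε.le h1 (by norm_num)
  have htri : tau y y' ≤ 2 * tau x y + 2 * tau x y' := by
    have := tau_two (LosA_ne hy) hx (LosA_ne hy')
    rw [tau_symm y x] at this
    exact this
  obtain ⟨D, hD⟩ : ∃ D : ℝ, D = N (cr (nv F y) (nv F y')) := ⟨_, rfl⟩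
  have hD0 : 0 ≤ D := by rw [hD]; exact LosA_N_nonneg _
  rw [← hD] at hdir ⊢
  have hB : wed (perp x (wv F y)) (perp x (wv F y')) +
          ε ^ 2 * (N (perp x (wv F y)) + N (perp x (wv F y'))) + 2 * ε ^ 4 ≤
      6 * (tau x y + tau x y') + 3 * D + 4 * ε ^ 2 := by
    have b2 : ε ^ 2 * (N (perp x (wv F y)) + N (perp x (wv F y'))) ≤ ε ^ 2 * 2 := by gcongr; linarith
    linarith
  obtain ⟨a, ha⟩ : ∃ a : ℝ, a = (tau x y + tau x y') / ε ^ 2 := ⟨_, rfl⟩
  have ha0 : 0 ≤ a := by rw [ha]; positivity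
  have hkk : kk ε (tau x y) * kk ε (tau x y') ≤ 4 * ε⁻¹ ^ 8 * Real.exp (-a) := by
    calc _ ≤ (2 * ε⁻¹ ^ 4 * Real.exp (-tau x y / ε ^ 2)) * (2 * ε⁻¹ ^ 4 * Real.exp (-tau x y' / ε ^ 2)) :=
          mul_le_mul k3 k4 k2 (by positivity)
      _ = 4 * ε⁻¹ ^ 8 * (Real.exp (-tau x y / ε ^ 2) * Real.exp (-tau x y' / ε ^ 2)) := by ring
      _ = _ := by
          rw [← Real.exp_add, ha]
          congr 2
          ring
  have hE1 : Real.exp (-(a / 4)) ≤ Real.exp (-(tau y y') / (8 * ε ^ 2)) := by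
    apply Real.exp_le_exp.2
    rw [ha, neg_div, neg_le_neg_iff, div_div, div_le_div_iff₀ (by positivity) (by positivity)]
    have : 0 < ε ^ 2 := by positivity
    nlinarith
  have hE2 : Real.exp (-(a / 4)) ≤ Real.exp (-(tau y x) / (4 * ε ^ 2)) := by
    apply Real.exp_le_exp.2
    rw [ha, neg_div, neg_le_neg_iff, div_div, div_le_div_iff₀ (by positivity) (by positivity), tau_symm y x]
    have : 0 < ε ^ 2 := by positivity
    nlinarith
  have hae : tau x y + tau x y' = ε ^ 2 * a := by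
    rw [ha]
    field_simp
  have hEE : Real.exp (-(a / 4)) * Real.exp (-(a / 4)) ≤
      Real.exp (-(tau y y') / (8 * ε ^ 2)) * Real.exp (-(tau y x) / (4 * ε ^ 2)) := by gcongr
  have hsum : (6 * (ε ^ 2 * a) + 3 * D + 4 * ε ^ 2) * Real.exp (-a) ≤
      16 * (D + ε ^ 2) * (Real.exp (-(a / 4)) * Real.exp (-(a / 4))) := by
    have q1 := LosA_exp a ha0
    have q2 := TH_exp a ha0
    have q3 : 0 < Real.exp (-a) := Real.exp_pos _
    have q4 : (0 : ℝ) ≤ 6 * ε ^ 2 := by positivity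
    have q5 := mul_le_mul_of_nonneg_left q1 q4
    have q6 := mul_le_mul_of_nonneg_left q2 (by positivity : (0 : ℝ) ≤ 3 * D)
    have q7 : 0 ≤ ε ^ 2 * Real.exp (-a) := by positivity
    have q8 : 0 ≤ ε ^ 2 * (Real.exp (-(a / 4)) * Real.exp (-(a / 4))) := by positivity
    have q9 : 0 ≤ D * (Real.exp (-(a / 4)) * Real.exp (-(a / 4))) := by positivity
    nlinarith
  have hprod : (kk ε (tau x y) * kk ε (tau x y')) * (6 * (tau x y + tau x y') + 3 * D + 4 * ε ^ 2) ≤
      64 * ε⁻¹ ^ 8 * (D + ε ^ 2) * (Real.exp (-(tau y y') / (8 * ε ^ 2)) * Real.exp (-(tau y x) / (4 * ε ^ 2))) := by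
    rw [hae]
    calc _ ≤ (4 * ε⁻¹ ^ 8 * Real.exp (-a)) * (6 * (ε ^ 2 * a) + 3 * D + 4 * ε ^ 2) := by gcongr
      _ = 4 * ε⁻¹ ^ 8 * ((6 * (ε ^ 2 * a) + 3 * D + 4 * ε ^ 2) * Real.exp (-a)) := by ring
      _ ≤ 4 * ε⁻¹ ^ 8 * (16 * (D + ε ^ 2) * (Real.exp (-(a / 4)) * Real.exp (-(a / 4)))) := by gcongr
      _ ≤ 4 * ε⁻¹ ^ 8 * (16 * (D + ε ^ 2) * (Real.exp (-(tau y y') / (8 * ε ^ 2)) *
            Real.exp (-(tau y x) / (4 * ε ^ 2)))) := by gcongr
      _ = _ := by ring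
  calc _ = (kk ε (tau x y) * kk ε (tau x y')) * (wed (perp x (wv F y)) (perp x (wv F y')) +
          ε ^ 2 * (N (perp x (wv F y)) + N (perp x (wv F y'))) + 2 * ε ^ 4) / (N x) ^ 2 := by ring
    _ ≤ (kk ε (tau x y) * kk ε (tau x y')) * (6 * (tau x y + tau x y') + 3 * D + 4 * ε ^ 2) / (N x) ^ 2 := by gcongr
    _ ≤ _ := by gcongr

private theorem TH_cr_cont : Continuous (fun q : V × V => cr q.1 q.2) := by
  unfold cr
  refine continuous_pi fun j => ?_
  fin_cases j <;> simp <;> fun_prop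

private theorem TH_ncr_meas : Measurable (fun q : V × V => N (cr q.1 q.2)) := by
  have hc : Continuous (fun q : V × V => N (cr q.1 q.2)) := LosA_cont_N.comp TH_cr_cont
  exact hc.measurable

private theorem TH_pair_meas (n : V → V) (hn : Measurable n) : Measurable (fun q : V × V => (n q.1, n q.2)) := by
  have a := hn.comp (measurable_fst : Measurable (Prod.fst : V × V → V))
  have b := hn.comp (measurable_snd : Measurable (Prod.snd : V × V → V))
  exact a.prodMk b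

private theorem TH_nn_meas (n : V → V) (hn : Measurable n) : Measurable (fun q : V × V => N (cr (n q.1) (n q.2))) := by
  have h := TH_ncr_meas.comp (TH_pair_meas n hn)
  simpa only [Function.comp_def] using h

private theorem TH_gen_meas (g h : V × V → ℝ) (hg : Measurable g) (hh : Measurable h) (a b : ℝ) :
    Measurable (fun q : V × V => ENNReal.ofReal (a * (g q + b) * h q)) := by
  have h1 : Measurable (fun q : V × V => a * (g q + b)) := (hg.add_const b).const_mul a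
  exact (h1.mul hh).ennreal_ofReal

private theorem TH_meas (F : Fin 3 → MvPolynomial (Fin 3) ℂ) (ε : ℝ) :
    Measurable (fun q : V × V => ENNReal.ofReal (ε⁻¹ ^ 4 * (N (cr (nv F q.1) (nv F q.2)) + ε ^ 2) *
            Real.exp (-(tau q.1 q.2) / (8 * ε ^ 2)))) :=
  TH_gen_meas (fun q => N (cr (nv F q.1) (nv F q.2))) (fun q => Real.exp (-(tau q.1 q.2) / (8 * ε ^ 2)))
    (TH_nn_meas (nv F) (measurable_nv F)) (LosA_exp_meas (8 * ε ^ 2)) (ε⁻¹ ^ 4) (ε ^ 2)

theorem loss2 {F : Fin 3 → MvPolynomial (Fin 3) ℂ} {d : ℕ} (hF : ∀ j, (F j).IsHomogeneous d) {P : Finset V}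
    (hP : SingPts F P) :
    ∃ C : ℝ, 0 < C ∧ ∀ (μ μ' : Measure V), IsCur F μ → IsCur F μ' →
      ∀ (ε r0 : ℝ), 0 < ε → ε ≤ 1 → 0 < r0 → r0 ≤ 1 →
        ENNReal.ofReal (Loss F μ μ' P r0 ε) ≤ ENNReal.ofReal C *
          ((∫⁻ y in Kr P (r0 / 4), ∫⁻ y', ENNReal.ofReal (ε⁻¹ ^ 4 * (N (cr (nv F y) (nv F y')) + ε ^ 2) *
            Real.exp (-(tau y y') / (8 * ε ^ 2))) ∂μ' ∂μ) + ENNReal.ofReal (ε⁻¹ ^ 8 * Real.exp (-r0 / (4 * ε ^ 2)))) := by
  refine ⟨1024 * Real.pi ^ 3, by positivity, ?_⟩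
  intro μ μ' hμ hμ' ε r0 hε h1 hr0 hr1
  have : IsProbabilityMeasure μ := ⟨hμ.prob⟩
  have : IsProbabilityMeasure μ' := ⟨hμ'.prob⟩
  obtain ⟨U, hU⟩ : ∃ U : ℝ, U = 64 * ε⁻¹ ^ 4 := ⟨_, rfl⟩
  have hU0 : 0 ≤ U := by rw [hU]; positivity
  obtain ⟨W, hW⟩ : ∃ W : ℝ, W = 20 * ε⁻¹ ^ 8 * Real.exp (-r0 / (4 * ε ^ 2)) := ⟨_, rfl⟩
  have hW0 : 0 ≤ W := by rw [hW]; positivity
  have hb8 : 0 < 8 * ε ^ 2 := by positivity
  have hb4 : 0 < 4 * ε ^ 2 := by positivity
  have hKm : MeasurableSet (Kr P (r0 / 4)) := Kr_meas P _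
  obtain ⟨E1, hE1⟩ : ∃ E1 : V → ENNReal, E1 = fun y => ∫⁻ y', ENNReal.ofReal (ε⁻¹ ^ 4 *
      (N (cr (nv F y) (nv F y')) + ε ^ 2) * Real.exp (-(tau y y') / (8 * ε ^ 2))) ∂μ' :=
    ⟨_, rfl⟩
  have hE1m : Measurable E1 := by
    rw [hE1]
    exact (TH_meas F ε).lintegral_prod_right'
  obtain ⟨G, hG⟩ : ∃ G : V → ENNReal, G = (Kr P (r0 / 4)).indicator (fun y => ENNReal.ofReal U * E1 y) := ⟨_, rfl⟩
  have hGm : Measurable G := by
    rw [hG]
    exact (hE1m.const_mul _).indicator hKm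
  have hgm : Measurable (fun q : V × V => G q.2 * ENNReal.ofReal (Real.exp (-(tau q.2 q.1) / (4 * ε ^ 2)))) :=
    (hGm.comp measurable_snd).mul ((LosA_exp_meas (4 * ε ^ 2)).comp (measurable_snd.prodMk measurable_fst)).ennreal_ofReal
  have haeμ : ∀ᵐ y ∂μ, N y = 1 ∧ eta F y ≠ 0 := by
    filter_upwards [hμ.sphere, hμ.sing] with y h2 h3 using ⟨h2, h3⟩
  have haeμ' : ∀ᵐ y ∂μ', N y = 1 ∧ eta F y ≠ 0 := by
    filter_upwards [hμ'.sphere, hμ'.sing] with y h2 h3 using ⟨h2, h3⟩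
  -- the pointwise bound
  have hpt : ∀ x ∈ {x : V | x ≠ 0 ∧ ∀ p ∈ P, r0 ≤ tau x p},
      ‖(ee (sm F μ ε x) (sm F μ' ε x)).re * wt x‖ₑ ≤
      ENNReal.ofReal (wt x / (N x) ^ 2) *
        (∫⁻ y, G y * ENNReal.ofReal (Real.exp (-(tau y x) / (4 * ε ^ 2))) ∂μ + ENNReal.ofReal W) := by
    rintro x ⟨hx, hxP⟩
    have hN := LosA_N_pos hx
    have hNi : 0 ≤ ((N x) ^ 2)⁻¹ := by positivity
    have hwt : 0 ≤ wt x := (Real.exp_pos _).le
    rw [ee_smsm hμ hμ' hε h1 hx, Complex.ofReal_re, enorm_mul, Real.enorm_eq_ofReal hwt]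
    have h2 := LosA_enorm μ μ' (fun y y' => LosA_k F ε x y y') (fun y y' => LosA_k_nonneg F ε x y y')
    have h3 : ∫⁻ y, ∫⁻ y', ENNReal.ofReal (LosA_k F ε x y y') ∂μ' ∂μ ≤
        ENNReal.ofReal ((N x) ^ 2)⁻¹ *
        (∫⁻ y, G y * ENNReal.ofReal (Real.exp (-(tau y x) / (4 * ε ^ 2))) ∂μ + ENNReal.ofReal W) := by
      calc _ ≤ ∫⁻ y, ENNReal.ofReal ((N x) ^ 2)⁻¹ *
            (G y * ENNReal.ofReal (Real.exp (-(tau y x) / (4 * ε ^ 2))) + ENNReal.ofReal W) ∂μ := by
            apply lintegral_mono_ae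
            filter_upwards [haeμ] with y hy
            by_cases hyK : y ∈ Kr P (r0 / 4)
            · calc _ ≤ ∫⁻ y', ENNReal.ofReal (((N x) ^ 2)⁻¹ * U * Real.exp (-(tau y x) / (4 * ε ^ 2))) *
                    ENNReal.ofReal (ε⁻¹ ^ 4 *
      (N (cr (nv F y) (nv F y')) + ε ^ 2) * Real.exp (-(tau y y') / (8 * ε ^ 2))) ∂μ' := by
                    apply lintegral_mono_ae
                    filter_upwards [haeμ'] with y' hy'
                    rw [← ENNReal.ofReal_mul (by positivity)]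
                    apply ENNReal.ofReal_le_ofReal
                    refine (TH_ptB hε h1 hx hy.1 hy'.1 hy.2 hy'.2).trans
                      (le_of_eq ?_)
                    rw [hU]
                    field_simp
                _ = ENNReal.ofReal ((N x) ^ 2)⁻¹ * (G y * ENNReal.ofReal (Real.exp (-(tau y x) / (4 * ε ^ 2)))) := by
                    rw [lintegral_const_mul' _ _ ENNReal.ofReal_ne_top, hG, Set.indicator_of_mem hyK, hE1,
                      ENNReal.ofReal_mul (by positivity), ENNReal.ofReal_mul hNi]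
                    ring
                _ ≤ _ := by
                    gcongr
                    exact le_self_add
            · have ht : r0 / 4 ≤ tau x y := LosA_far hr0 hx hy.1 hP.unit hxP hyK
              calc _ ≤ ∫⁻ y', ENNReal.ofReal (((N x) ^ 2)⁻¹ * W) ∂μ' := by
                    apply lintegral_mono_ae
                    filter_upwards [haeμ'] with y' hy'
                    apply ENNReal.ofReal_le_ofReal
                    refine (LosA_ptA hε h1 hx hy.1 hy'.1 hy.2 hy'.2 ht).trans (le_of_eq ?_)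
                    rw [hW]
                    field_simp
                _ = ENNReal.ofReal ((N x) ^ 2)⁻¹ * ENNReal.ofReal W := by
                    rw [lintegral_const, measure_univ, mul_one, ENNReal.ofReal_mul hNi]
                _ ≤ _ := by
                    gcongr
                    exact le_add_self
        _ = _ := by
            rw [lintegral_const_mul' _ _ ENNReal.ofReal_ne_top, lintegral_add_right _ measurable_const,
              lintegral_const, measure_univ, mul_one]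
    calc _ ≤ (ENNReal.ofReal ((N x) ^ 2)⁻¹ *
        (∫⁻ y, G y * ENNReal.ofReal (Real.exp (-(tau y x) / (4 * ε ^ 2))) ∂μ + ENNReal.ofReal W)) *
          ENNReal.ofReal (wt x) := by
          gcongr
          exact h2.trans h3
      _ = _ := by
          rw [div_eq_mul_inv, ENNReal.ofReal_mul hwt]
          ring
  -- the integral over x
  have hmeasx : Measurable (fun x : V => ∫⁻ y, G y * ENNReal.ofReal (Real.exp (-(tau y x) / (4 * ε ^ 2))) ∂μ +
      ENNReal.ofReal W) := (hgm.lintegral_prod_right').add_const _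
  have hdens : Measurable (fun x : V => ENNReal.ofReal (wt x / (N x) ^ 2)) := by
    apply Measurable.ennreal_ofReal
    unfold wt
    exact (Real.measurable_exp.comp LosA_cont_N.measurable.neg).div (LosA_cont_N.measurable.pow_const 2)
  have hRm : MeasurableSet {x : V | x ≠ 0 ∧ ∀ p ∈ P, r0 ≤ tau x p} := by
    have e1 : {x : V | x ≠ 0 ∧ ∀ p ∈ P, r0 ≤ tau x p} = {0}ᶜ ∩ ⋂ p ∈ P, {x : V | r0 ≤ tau x p} := by
      ext x
      simp
    rw [e1]
    refine (measurableSet_singleton (0 : V)).compl.inter (Finset.measurableSet_biInter P (fun p _ => ?_))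
    have hf : Measurable (fun _ : V => r0) := measurable_const
    exact measurableSet_le hf (LosA_tau_meas p)
  have hpi : 0 < Real.pi ^ 3 := by positivity
  have hab : ENNReal.ofReal (Loss F μ μ' P r0 ε) ≤ ‖Loss F μ μ' P r0 ε‖ₑ := by
    rw [← ofReal_norm]
    exact ENNReal.ofReal_le_ofReal (le_abs_self _)
  refine hab.trans ?_
  calc ‖Loss F μ μ' P r0 ε‖ₑ ≤ ∫⁻ x in {x : V | x ≠ 0 ∧ ∀ p ∈ P, r0 ≤ tau x p},
          ‖(ee (sm F μ ε x) (sm F μ' ε x)).re * wt x‖ₑ := enorm_integral_le_lintegral_enorm _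
      _ ≤ ∫⁻ x in {x : V | x ≠ 0 ∧ ∀ p ∈ P, r0 ≤ tau x p}, ENNReal.ofReal (wt x / (N x) ^ 2) *
        (∫⁻ y, G y * ENNReal.ofReal (Real.exp (-(tau y x) / (4 * ε ^ 2))) ∂μ + ENNReal.ofReal W) :=
          setLIntegral_mono' hRm hpt
      _ ≤ ∫⁻ x, ENNReal.ofReal (wt x / (N x) ^ 2) *
        (∫⁻ y, G y * ENNReal.ofReal (Real.exp (-(tau y x) / (4 * ε ^ 2))) ∂μ + ENNReal.ofReal W) :=
          setLIntegral_le_lintegral _ _
      _ = ∫⁻ x, (∫⁻ y, G y * ENNReal.ofReal (Real.exp (-(tau y x) / (4 * ε ^ 2))) ∂μ + ENNReal.ofReal W) ∂nuP := by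
          unfold nuP
          rw [lintegral_withDensity_eq_lintegral_mul _ hdens hmeasx]
          rfl
      _ = ∫⁻ x, ∫⁻ y, G y * ENNReal.ofReal (Real.exp (-(tau y x) / (4 * ε ^ 2))) ∂μ ∂nuP +
          ENNReal.ofReal W * nuP Set.univ := by
          rw [lintegral_add_right _ measurable_const, lintegral_const]
      _ = ∫⁻ y, ∫⁻ x, G y * ENNReal.ofReal (Real.exp (-(tau y x) / (4 * ε ^ 2))) ∂nuP ∂μ +
          ENNReal.ofReal W * nuP Set.univ := by
          congr 1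
          exact lintegral_lintegral_swap hgm.aemeasurable
      _ ≤ ∫⁻ y, G y * ENNReal.ofReal (Real.pi ^ 3 * (4 * ε ^ 2) ^ 2) ∂μ +
          ENNReal.ofReal W * nuP Set.univ := by
          gcongr ?_ + _
          apply lintegral_mono_ae
          filter_upwards [haeμ] with y hy
          rw [lintegral_const_mul]
          · gcongr
            exact nu_exp (LosA_ne hy.1) hb4
          · exact ((LosA_exp_meas (4 * ε ^ 2)).comp (measurable_const.prodMk measurable_id)).ennreal_ofReal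
      _ = ENNReal.ofReal U * (∫⁻ y in Kr P (r0 / 4), E1 y ∂μ) * ENNReal.ofReal (Real.pi ^ 3 * (4 * ε ^ 2) ^ 2) +
          ENNReal.ofReal W * ENNReal.ofReal (Real.pi ^ 3 / 2) := by
          rw [lintegral_mul_const _ hGm, hG, lintegral_indicator hKm, lintegral_const_mul' _ _ ENNReal.ofReal_ne_top,
            nuP_univ]
      _ = ENNReal.ofReal (1024 * Real.pi ^ 3) * (∫⁻ y in Kr P (r0 / 4), E1 y ∂μ) +
          ENNReal.ofReal (10 * Real.pi ^ 3) * ENNReal.ofReal (ε⁻¹ ^ 8 * Real.exp (-r0 / (4 * ε ^ 2))) := by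
          congr 1
          · rw [mul_right_comm, ← ENNReal.ofReal_mul hU0]
            congr 2
            rw [hU]
            field_simp
            ring
          · rw [← ENNReal.ofReal_mul hW0, ← ENNReal.ofReal_mul (by positivity)]
            congr 1
            rw [hW]
            ring
      _ ≤ ENNReal.ofReal (1024 * Real.pi ^ 3) * (∫⁻ y in Kr P (r0 / 4), E1 y ∂μ) +
          ENNReal.ofReal (1024 * Real.pi ^ 3) * ENNReal.ofReal (ε⁻¹ ^ 8 * Real.exp (-r0 / (4 * ε ^ 2))) := by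
          gcongr
          norm_num
      _ = _ := by
          rw [mul_add, hE1]

end FT76
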