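import Pool.Agent.H76.FT.TB
import Pool.Agent.H76.FT.TH

/-!
# Row TI: decomposition of the loss

From `loss2` and `tay` (constants C, c).  `nullst_Kr`: `c1 (r0/4)^m ≤ N (eta F y)` on `Kr P (r0/4)` (wlog m ≥ 1, c1 ≤ 1).  D := N (cr (nv y) (nv y')) ≤ 1.
Let y ∈ Kr P (r0/4), y' unit, eta F y' ≠ 0 (a.e.), t = tau y y'.
(i) t ≤ c N (eta F y): `D ≤ C (t IIq + |bp|^2 Kq + t^2/N(eta))`.  `t e^(-t/(8ε^2)) ≤ 16 ε^2 e^(-t/(16ε^2))` (x e^(-x/16) ≤ 16 with x = t/ε^2), `t^2 e^(-t/(8ε^2)) ≤ 256 ε^4 e^(-t/(16 ε^2))` (x^2 e^(-x/16) ≤ 256: (x/16)^2 ≤ e^(x/16)).  So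
 `ε^(-4) D e^(-t/(8ε^2)) ≤ C (16 ε^(-2) IIq e^(-t/(16ε^2)) + ε^(-4) |bp|^2 Kq e^(-t/(8ε^2)) + 256 e^(-t/(16ε^2))/N(eta))` and `1/N(eta) ≤ C' r0^(-m)`, `e^(-t/(16 ε^2))/N(eta) ≤ C' r0^(-m) ε^2 * (ε^(-2) (1 + IIq) e^(-t/(16ε^2)))`.
(ii) t > c N (eta F y) ≥ c' r0^m: `ε^(-4) D e^(-t/(8ε^2)) ≤ ε^(-4) e^(-c' r0^m/(8 ε^2))`.
The term `ε^(-4) ε^2 e^(-t/(8ε^2)) ≤ ε^(-2) (1 + IIq) e^(-t/(16ε^2))`.  Finally `e^(-r0/(4ε^2)) ≤ e^(-c'' r0^m/ε^2)` for c'' ≤ 1/4, m ≥ 1, r0 ≤ 1, and ε^(-4) ≤ ε^(-8).  Integrate (everything in `∫⁻`; `lintegral_mono_ae`, `lintegral_add_left`;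
 measurability from TA and `measurable_tau`; the integral over `Kr` is at most the one over V).
-/

open MeasureTheory Filter Topology
open scoped ContDiff BigOperators ComplexConjugate Matrix

namespace FT76

open Pool.Agent.H85.DC


theorem TI_x1 {x : ℝ} (_hx : 0 ≤ x) : x * Real.exp (-x) ≤ 1 := by
  have h1 := Real.add_one_le_exp x
  have h2 : x ≤ Real.exp x := by linarith
  calc x * Real.exp (-x) ≤ Real.exp x * Real.exp (-x) :=
        mul_le_mul_of_nonneg_right h2 (Real.exp_pos _).le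
    _ = 1 := by rw [← Real.exp_add]; simp

theorem TI_x2 {x : ℝ} (hx : 0 ≤ x) : x ^ 2 * Real.exp (-x) ≤ 4 := by
  have h1 := TI_x1 (x := x / 2) (by linarith)
  have h2 : 0 ≤ x / 2 * Real.exp (-(x / 2)) := mul_nonneg (by linarith) (Real.exp_pos _).le
  have h3 : (x / 2 * Real.exp (-(x / 2))) ^ 2 ≤ 1 := by nlinarith
  have h4 : (x / 2 * Real.exp (-(x / 2))) ^ 2 = x ^ 2 * Real.exp (-x) / 4 := by
    rw [mul_pow, ← Real.exp_nat_mul]
    have : ((2 : ℕ) : ℝ) * -(x / 2) = -x := by push_cast; ring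
    rw [this]; ring
  rw [h4] at h3
  linarith

set_option maxHeartbeats 1000000 in
theorem TI_point {ε r0 t e D I K b Ct ct c2 : ℝ} {m : ℕ} (hε : 0 < ε) (hε1 : ε ≤ 1) (hr : 0 < r0)
    (ht : 0 ≤ t) (he : 0 < e) (hD1 : D ≤ 1) (hI : 0 ≤ I) (hK : 0 ≤ K) (hb : 0 ≤ b)
    (hCt : 0 < Ct) (hct : 0 < ct) (hc2 : 0 < c2) (hce : c2 * r0 ^ m ≤ e)
    (htay : t ≤ ct * e → D ≤ Ct * (t * I + b * K + t ^ 2 / e)) :
    ε⁻¹ ^ 4 * (D + ε ^ 2) * Real.exp (-t / (8 * ε ^ 2)) ≤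
      Ct * (ε⁻¹ ^ 4 * K * b * Real.exp (-t / (8 * ε ^ 2))) +
      (16 * Ct + 1024 * Ct / c2 + 1) * (1 + r0⁻¹ ^ m * ε ^ 2) *
        (ε⁻¹ ^ 2 * (1 + I) * Real.exp (-t / (16 * ε ^ 2))) +
      ε⁻¹ ^ 8 * Real.exp (-(ct * c2 / 8 * r0 ^ m) / ε ^ 2) := by
  have hε2 : 0 < ε ^ 2 := by positivity
  set E := Real.exp (-t / (16 * ε ^ 2)) with hE
  have hE0 : 0 < E := Real.exp_pos _
  have hE1 : E ≤ 1 := Real.exp_le_one_iff.2 (by
    rw [neg_div]
    have : 0 ≤ t / (16 * ε ^ 2) := by positivity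
    linarith)
  have h8 : Real.exp (-t / (8 * ε ^ 2)) = E * E := by
    rw [hE, ← Real.exp_add]
    congr 1
    field_simp
    ring
  have hx : 0 ≤ t / (16 * ε ^ 2) := by positivity
  have hEx : E = Real.exp (-(t / (16 * ε ^ 2))) := by rw [hE, neg_div]
  have h16 : t * E ≤ 16 * ε ^ 2 := by
    have h1 := TI_x1 hx
    rw [← hEx] at h1
    have h2 : t / (16 * ε ^ 2) * E = t * E / (16 * ε ^ 2) := by ring
    rw [h2, div_le_one (by positivity)] at h1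
    exact h1
  have h256 : t ^ 2 * E ≤ 1024 * ε ^ 4 := by
    have h1 := TI_x2 hx
    rw [← hEx] at h1
    have h2 : (t / (16 * ε ^ 2)) ^ 2 * E = t ^ 2 * E / (256 * ε ^ 4) := by
      rw [div_pow]; ring
    rw [h2, div_le_iff₀ (by positivity)] at h1
    linarith
  have hinv : 0 < ε⁻¹ := by positivity
  have hεi : ε⁻¹ * ε = 1 := by field_simp
  have hri : 0 < r0⁻¹ ^ m := by positivity
  -- the term B
  have hB0 : 0 ≤ ε⁻¹ ^ 2 * (1 + I) * E := by positivity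
  set B := ε⁻¹ ^ 2 * (1 + I) * E with hB
  have hR : (1 : ℝ) ≤ 1 + r0⁻¹ ^ m * ε ^ 2 := by
    have : 0 ≤ r0⁻¹ ^ m * ε ^ 2 := by positivity
    linarith
  -- third summand of the left side
  have hT3 : ε⁻¹ ^ 4 * ε ^ 2 * (E * E) ≤ B := by
    have h1 : ε⁻¹ ^ 4 * ε ^ 2 = ε⁻¹ ^ 2 := by field_simp
    rw [h1, hB]
    have h2 : E * E ≤ (1 + I) * E := mul_le_mul_of_nonneg_right (by linarith) hE0.le
    calc ε⁻¹ ^ 2 * (E * E) ≤ ε⁻¹ ^ 2 * ((1 + I) * E) :=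
          mul_le_mul_of_nonneg_left h2 (by positivity)
      _ = _ := by ring
  have hlast : 0 ≤ ε⁻¹ ^ 8 * Real.exp (-(ct * c2 / 8 * r0 ^ m) / ε ^ 2) := by positivity
  have hA : 0 ≤ Ct * (ε⁻¹ ^ 4 * K * b * Real.exp (-t / (8 * ε ^ 2))) := by positivity
  rcases le_or_gt t (ct * e) with hte | hte
  · have hD := htay hte
    have hsplit : ε⁻¹ ^ 4 * (D + ε ^ 2) * Real.exp (-t / (8 * ε ^ 2)) ≤
        Ct * (ε⁻¹ ^ 4 * K * b * (E * E)) + Ct * (ε⁻¹ ^ 4 * (t * I) * (E * E)) +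
          Ct * (ε⁻¹ ^ 4 * (t ^ 2 / e) * (E * E)) + ε⁻¹ ^ 4 * ε ^ 2 * (E * E) := by
      rw [h8]
      have h1 : ε⁻¹ ^ 4 * (D + ε ^ 2) * (E * E) ≤
          ε⁻¹ ^ 4 * (Ct * (t * I + b * K + t ^ 2 / e) + ε ^ 2) * (E * E) := by
        gcongr
      refine h1.trans (le_of_eq ?_)
      ring
    have hT1 : ε⁻¹ ^ 4 * (t * I) * (E * E) ≤ 16 * B := by
      have h1 : ε⁻¹ ^ 4 * (t * I) * (E * E) = ε⁻¹ ^ 4 * I * E * (t * E) := by ring
      have h2 : ε⁻¹ ^ 4 * I * E * (t * E) ≤ ε⁻¹ ^ 4 * I * E * (16 * ε ^ 2) :=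
        mul_le_mul_of_nonneg_left h16 (by positivity)
      have h3 : ε⁻¹ ^ 4 * I * E * (16 * ε ^ 2) = 16 * (ε⁻¹ ^ 2 * I * E) := by
        field_simp
      rw [h1]
      refine h2.trans ?_
      rw [h3, hB]
      have : ε⁻¹ ^ 2 * I * E ≤ ε⁻¹ ^ 2 * (1 + I) * E := by
        gcongr
        linarith
      linarith
    have hT2 : ε⁻¹ ^ 4 * (t ^ 2 / e) * (E * E) ≤ 1024 / c2 * (r0⁻¹ ^ m * ε ^ 2) * B := by
      have h1 : ε⁻¹ ^ 4 * (t ^ 2 / e) * (E * E) = ε⁻¹ ^ 4 * (1 / e) * E * (t ^ 2 * E) := by ring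
      have h2 : ε⁻¹ ^ 4 * (1 / e) * E * (t ^ 2 * E) ≤ ε⁻¹ ^ 4 * (1 / e) * E * (1024 * ε ^ 4) :=
        mul_le_mul_of_nonneg_left h256 (by positivity)
      have h3 : ε⁻¹ ^ 4 * (1 / e) * E * (1024 * ε ^ 4) = 1024 * (1 / e) * E := by
        field_simp
      have h4 : 1 / e ≤ 1 / (c2 * r0 ^ m) :=
        one_div_le_one_div_of_le (by positivity) hce
      have h5 : 1 / (c2 * r0 ^ m) = r0⁻¹ ^ m / c2 := by
        rw [inv_pow]; field_simp
      have h6 : 1024 * (1 / e) * E ≤ 1024 * (r0⁻¹ ^ m / c2) * E := by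
        rw [← h5]; gcongr
      have h7 : E ≤ ε ^ 2 * B := by
        rw [hB]
        have : ε ^ 2 * (ε⁻¹ ^ 2 * (1 + I) * E) = (1 + I) * E := by
          field_simp
        have h8 : 1 * E ≤ (1 + I) * E := mul_le_mul_of_nonneg_right (by linarith) hE0.le
        rw [this]; linarith
      rw [h1]
      refine h2.trans ?_
      rw [h3]
      refine h6.trans ?_
      calc 1024 * (r0⁻¹ ^ m / c2) * E ≤ 1024 * (r0⁻¹ ^ m / c2) * (ε ^ 2 * B) :=
            mul_le_mul_of_nonneg_left h7 (by positivity)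
        _ = _ := by ring
    rw [h8] at hsplit ⊢
    have hc16 : 0 ≤ 16 * Ct := by positivity
    have hc1024 : 0 ≤ 1024 * Ct / c2 := by positivity
    have hR0 : 0 ≤ r0⁻¹ ^ m * ε ^ 2 := by positivity
    have e1 : Ct * (ε⁻¹ ^ 4 * (t * I) * (E * E)) ≤ 16 * Ct * B := by
      have := mul_le_mul_of_nonneg_left hT1 hCt.le
      linarith
    have e2 : Ct * (ε⁻¹ ^ 4 * (t ^ 2 / e) * (E * E)) ≤ 1024 * Ct / c2 * (r0⁻¹ ^ m * ε ^ 2) * B := by
      have := mul_le_mul_of_nonneg_left hT2 hCt.le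
      refine this.trans (le_of_eq ?_)
      ring
    have e3 : (16 * Ct + 1024 * Ct / c2 + 1) * (1 + r0⁻¹ ^ m * ε ^ 2) * B =
        16 * Ct * B + 1024 * Ct / c2 * (r0⁻¹ ^ m * ε ^ 2) * B + B +
        (16 * Ct * (r0⁻¹ ^ m * ε ^ 2) * B + 1024 * Ct / c2 * B + (r0⁻¹ ^ m * ε ^ 2) * B) := by ring
    have e4 : 0 ≤ 16 * Ct * (r0⁻¹ ^ m * ε ^ 2) * B + 1024 * Ct / c2 * B + (r0⁻¹ ^ m * ε ^ 2) * B := by
      positivity
    linarith
  · have h1 : ε⁻¹ ^ 4 * (D + ε ^ 2) * Real.exp (-t / (8 * ε ^ 2)) =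
        ε⁻¹ ^ 4 * D * (E * E) + ε⁻¹ ^ 4 * ε ^ 2 * (E * E) := by rw [h8]; ring
    have h2 : ε⁻¹ ^ 4 * D * (E * E) ≤ ε⁻¹ ^ 8 * Real.exp (-(ct * c2 / 8 * r0 ^ m) / ε ^ 2) := by
      rw [← h8]
      have h3 : Real.exp (-t / (8 * ε ^ 2)) ≤ Real.exp (-(ct * c2 / 8 * r0 ^ m) / ε ^ 2) := by
        apply Real.exp_le_exp.2
        rw [div_le_div_iff₀ (by positivity) hε2]
        have h4 : ct * c2 * r0 ^ m ≤ t := by
          have := mul_le_mul_of_nonneg_left hce hct.le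
          linarith
        have h5 := mul_le_mul_of_nonneg_right h4 hε2.le
        linarith
      have h4 : (1 : ℝ) ≤ ε⁻¹ := (one_le_inv₀ hε).2 hε1
      have h5 : ε⁻¹ ^ 4 ≤ ε⁻¹ ^ 8 := pow_le_pow_right₀ h4 (by norm_num)
      have h6 : ε⁻¹ ^ 4 * D ≤ ε⁻¹ ^ 8 := by
        calc ε⁻¹ ^ 4 * D ≤ ε⁻¹ ^ 4 * 1 := mul_le_mul_of_nonneg_left hD1 (by positivity)
          _ ≤ ε⁻¹ ^ 8 := by rw [mul_one]; exact h5
      exact mul_le_mul h6 h3 (Real.exp_pos _).le (by positivity)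
    have h3 : B ≤ (16 * Ct + 1024 * Ct / c2 + 1) * (1 + r0⁻¹ ^ m * ε ^ 2) * B := by
      have h4 : (1 : ℝ) ≤ 16 * Ct + 1024 * Ct / c2 + 1 := by
        have : 0 ≤ 16 * Ct + 1024 * Ct / c2 := by positivity
        linarith
      have h5 : (1 : ℝ) ≤ (16 * Ct + 1024 * Ct / c2 + 1) * (1 + r0⁻¹ ^ m * ε ^ 2) :=
        one_le_mul_of_one_le_of_one_le h4 hR
      have h6 := mul_le_mul_of_nonneg_right h5 hB0
      linarith
    rw [h1]
    linarith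

theorem TI_bp_meas (y : V) : Measurable (fun n : V => Complex.normSq (bp n y)) := by
  unfold bp
  refine (Complex.continuous_normSq.comp ?_).measurable
  exact continuous_finsetSum _ fun j _ => (continuous_apply j).mul continuous_const

theorem TI_bp_meas2 : Measurable (fun q : V × V => Complex.normSq (bp q.1 q.2)) := by
  unfold bp
  refine (Complex.continuous_normSq.comp ?_).measurable
  exact continuous_finsetSum _ fun j _ =>
    ((continuous_apply j).comp continuous_fst).mul ((continuous_apply j).comp continuous_snd)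

/-- the integrand of `L1` -/
noncomputable def TI_f1 (F : Fin 3 → MvPolynomial (Fin 3) ℂ) (ε : ℝ) (q : V × V) : ENNReal :=
  ENNReal.ofReal (ε⁻¹ ^ 4 * Kq F q.1 * Complex.normSq (bp (nv F q.2) q.1) *
    Real.exp (-(tau q.1 q.2) / (8 * ε ^ 2)))

/-- the integrand of `Q2` -/
noncomputable def TI_f2 (F : Fin 3 → MvPolynomial (Fin 3) ℂ) (ε : ℝ) (q : V × V) : ENNReal :=
  ENNReal.ofReal (ε⁻¹ ^ 2 * (1 + IIq F q.1) * Real.exp (-(tau q.1 q.2) / (16 * ε ^ 2)))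

theorem TI_exp_meas (k : ℝ) : Measurable (fun q : V × V => Real.exp (-(tau q.1 q.2) / k)) := by
  have h1 : Measurable (fun q : V × V => tau q.1 q.2) := measurable_tau
  have h2 : Measurable (fun q : V × V => -(tau q.1 q.2)) := h1.neg
  have h3 : Measurable (fun q : V × V => -(tau q.1 q.2) / k) := h2.div_const k
  exact h3.exp

theorem TI_bpn_meas (F : Fin 3 → MvPolynomial (Fin 3) ℂ) :
    Measurable (fun q : V × V => Complex.normSq (bp (nv F q.2) q.1)) := by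
  have h3 : Measurable (fun q : V × V => (nv F q.2, q.1)) :=
    ((measurable_nv F).comp measurable_snd).prodMk measurable_fst
  have h4 := TI_bp_meas2.comp h3
  exact h4

theorem TI_f1_meas (F : Fin 3 → MvPolynomial (Fin 3) ℂ) (ε : ℝ) : Measurable (TI_f1 F ε) := by
  have h1 : Measurable (fun q : V × V => Kq F q.1) := (measurable_Kq F).comp measurable_fst
  have h2 : Measurable (fun q : V × V => ε⁻¹ ^ 4 * Kq F q.1) := h1.const_mul _
  have h3 := (h2.mul (TI_bpn_meas F)).mul (TI_exp_meas (8 * ε ^ 2))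
  exact h3.ennreal_ofReal

theorem TI_f2_meas (F : Fin 3 → MvPolynomial (Fin 3) ℂ) (ε : ℝ) : Measurable (TI_f2 F ε) := by
  have h1 : Measurable (fun q : V × V => IIq F q.1) := (measurable_IIq F).comp measurable_fst
  have h2 : Measurable (fun q : V × V => ε⁻¹ ^ 2 * (1 + IIq F q.1)) :=
    (h1.const_add 1).const_mul _
  have h3 := h2.mul (TI_exp_meas (16 * ε ^ 2))
  exact h3.ennreal_ofReal

/-- linearity of the double integral -/
theorem TI_lin {μ μ' : Measure V} [IsProbabilityMeasure μ] [IsProbabilityMeasure μ'] {K : Set V}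
    {f1 f2 : V × V → ENNReal} (h1 : Measurable f1) (h2 : Measurable f2) (a b k : ENNReal) :
    ∫⁻ y in K, ∫⁻ y', (a * f1 (y, y') + b * f2 (y, y') + k) ∂μ' ∂μ ≤
      a * (∫⁻ y in K, ∫⁻ y', f1 (y, y') ∂μ' ∂μ) + b * (∫⁻ y, ∫⁻ y', f2 (y, y') ∂μ' ∂μ) + k := by
  have i1 : ∀ y, ∫⁻ y', (a * f1 (y, y') + b * f2 (y, y') + k) ∂μ' =
      a * (∫⁻ y', f1 (y, y') ∂μ') + b * (∫⁻ y', f2 (y, y') ∂μ') + k := by
    intro y
    have m1 : Measurable (fun y' => f1 (y, y')) := h1.comp measurable_prodMk_left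
    have m2 : Measurable (fun y' => f2 (y, y')) := h2.comp measurable_prodMk_left
    have ms : Measurable (fun y' => a * f1 (y, y') + b * f2 (y, y')) :=
      (m1.const_mul a).add (m2.const_mul b)
    rw [lintegral_add_left ms,
      lintegral_add_left (m1.const_mul a), lintegral_const_mul a m1, lintegral_const_mul b m2,
      lintegral_const, measure_univ, mul_one]
  simp_rw [i1]
  have m1 : Measurable (fun y => ∫⁻ y', f1 (y, y') ∂μ') := h1.lintegral_prod_right'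
  have m2 : Measurable (fun y => ∫⁻ y', f2 (y, y') ∂μ') := h2.lintegral_prod_right'
  have ms : Measurable (fun y => a * (∫⁻ y', f1 (y, y') ∂μ') + b * (∫⁻ y', f2 (y, y') ∂μ')) :=
    (m1.const_mul a).add (m2.const_mul b)
  rw [lintegral_add_left ms,
    lintegral_add_left (m1.const_mul a), lintegral_const_mul a m1, lintegral_const_mul b m2,
    lintegral_const]
  have e1 : ∫⁻ y in K, ∫⁻ y', f2 (y, y') ∂μ' ∂μ ≤ ∫⁻ y, ∫⁻ y', f2 (y, y') ∂μ' ∂μ :=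
    setLIntegral_le_lintegral _ _
  have e2 : k * (μ.restrict K) Set.univ ≤ k := by
    rw [Measure.restrict_apply_univ]
    calc k * μ K ≤ k * 1 := by gcongr; exact prob_le_one
      _ = k := mul_one k
  gcongr

theorem TI_L1 (F : Fin 3 → MvPolynomial (Fin 3) ℂ) (μ μ' : Measure V) (P : Finset V) (r ε : ℝ) :
    L1 F μ μ' P r ε = ∫⁻ y in Kr P r, ∫⁻ y', TI_f1 F ε (y, y') ∂μ' ∂μ := rfl

theorem TI_Q2 (F : Fin 3 → MvPolynomial (Fin 3) ℂ) (μ μ' : Measure V) (ε : ℝ) :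
    Q2 F μ μ' ε = ∫⁻ y, ∫⁻ y', TI_f2 F ε (y, y') ∂μ' ∂μ := rfl

theorem loss3 {F : Fin 3 → MvPolynomial (Fin 3) ℂ} {d : ℕ} (hF : ∀ j, (F j).IsHomogeneous d) {P : Finset V}
    (hP : SingPts F P) :
    ∃ (C c : ℝ) (m : ℕ), 0 < C ∧ 0 < c ∧ ∀ (μ μ' : Measure V), IsCur F μ → IsCur F μ' →
      ∀ (ε r0 : ℝ), 0 < ε → ε ≤ 1 → 0 < r0 → r0 ≤ 1 →
        ENNReal.ofReal (Loss F μ μ' P r0 ε) ≤ ENNReal.ofReal C *
          (L1 F μ μ' P (r0 / 4) ε + ENNReal.ofReal (1 + r0⁻¹ ^ m * ε ^ 2) * Q2 F μ μ' ε +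
            ENNReal.ofReal (ε⁻¹ ^ 8 * Real.exp (-(c * r0 ^ m) / ε ^ 2))) := by
  obtain ⟨C1, hC1, hloss⟩ := loss2 hF hP
  obtain ⟨Ct, ct, hCt, hct, htay⟩ := tay hF
  obtain ⟨c1, m1, hc1, hnull⟩ := nullst_Kr hP
  have hc2 : 0 < c1 / 4 ^ m1 := by positivity
  set c2 : ℝ := c1 / 4 ^ m1 with hc2def
  set K0 : ℝ := 16 * Ct + 1024 * Ct / c2 + 1 with hK0
  have hK0p : 0 < K0 := by positivity
  refine ⟨C1 * (Ct + K0 + 2), min (ct * c2 / 8) (1 / 4), m1 + 1, by positivity,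
    lt_min (by positivity) (by norm_num), ?_⟩
  intro μ μ' hμ hμ' ε r0 hε hε1 hr hr1
  have : IsProbabilityMeasure μ := ⟨hμ.prob⟩
  have : IsProbabilityMeasure μ' := ⟨hμ'.prob⟩
  set c : ℝ := min (ct * c2 / 8) (1 / 4) with hc
  have hc0 : 0 < c := lt_min (by positivity) (by norm_num)
  have hε2 : 0 < ε ^ 2 := by positivity
  set X : ℝ := ε⁻¹ ^ 8 * Real.exp (-(c * r0 ^ (m1 + 1)) / ε ^ 2) with hX
  have hX0 : 0 ≤ X := by positivity
  have hrm : r0 ^ (m1 + 1) ≤ r0 ^ m1 := pow_le_pow_of_le_one hr.le hr1 (Nat.le_succ _)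
  have hr1' : r0 ^ (m1 + 1) ≤ r0 := by
    calc r0 ^ (m1 + 1) ≤ r0 ^ 1 := pow_le_pow_of_le_one hr.le hr1 (by omega)
      _ = r0 := pow_one _
  have hrp : 0 < r0 ^ (m1 + 1) := by positivity
  -- pointwise bound
  have hpt : ∀ᵐ y ∂(μ.restrict (Kr P (r0 / 4))), ∀ᵐ y' ∂μ',
      ENNReal.ofReal (ε⁻¹ ^ 4 * (N (cr (nv F y) (nv F y')) + ε ^ 2) *
            Real.exp (-(tau y y') / (8 * ε ^ 2))) ≤
      ENNReal.ofReal Ct * TI_f1 F ε (y, y') +
        ENNReal.ofReal (K0 * (1 + r0⁻¹ ^ (m1 + 1) * ε ^ 2)) * TI_f2 F ε (y, y') +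
        ENNReal.ofReal X := by
    filter_upwards [ae_restrict_of_ae hμ.sing, ae_restrict_of_ae hμ.sphere,
      ae_restrict_mem (Kr_meas P (r0 / 4))] with y hy1 hy2 hy3
    filter_upwards [hμ'.sing, hμ'.sphere] with y' hy1' hy2'
    have he : c2 * r0 ^ (m1 + 1) ≤ N (eta F y) := by
      have h1 := hnull (r0 / 4) (by positivity) (by linarith) y hy3
      have h2 : c1 * (r0 / 4) ^ m1 = c2 * r0 ^ m1 := by
        rw [hc2def, div_pow]; ring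
      rw [h2] at h1
      exact (mul_le_mul_of_nonneg_left hrm hc2.le).trans h1
    have he0 : 0 < N (eta F y) := lt_of_lt_of_le (by positivity) he
    have hD1 : N (cr (nv F y) (nv F y')) ≤ 1 := by
      rw [tau_cross, nv_unit hy1, nv_unit hy1', one_mul]
      have := Complex.normSq_nonneg (ip (nv F y) (nv F y'))
      linarith
    have h := TI_point (ε := ε) (r0 := r0) (t := tau y y') (e := N (eta F y))
      (D := N (cr (nv F y) (nv F y'))) (I := IIq F y) (K := Kq F y)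
      (b := Complex.normSq (bp (nv F y') y)) (Ct := Ct) (ct := ct) (c2 := c2) (m := m1 + 1)
      hε hε1 hr (tau_nonneg _ _) he0 hD1 (IIq_nonneg F y) (Kq_nonneg F y)
      (Complex.normSq_nonneg _) hCt hct hc2 he (fun hle => htay y y' hy2 hy2' hy1 hy1' hle)
    have hexp : Real.exp (-(ct * c2 / 8 * r0 ^ (m1 + 1)) / ε ^ 2) ≤
        Real.exp (-(c * r0 ^ (m1 + 1)) / ε ^ 2) := by
      apply Real.exp_le_exp.2
      apply div_le_div_of_nonneg_right _ hε2.le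
      have := mul_le_mul_of_nonneg_right (min_le_left (ct * c2 / 8) (1 / 4 : ℝ)) hrp.le
      linarith
    have h2 : ε⁻¹ ^ 8 * Real.exp (-(ct * c2 / 8 * r0 ^ (m1 + 1)) / ε ^ 2) ≤ X :=
      mul_le_mul_of_nonneg_left hexp (by positivity)
    have hI := IIq_nonneg F y
    have hK := Kq_nonneg F y
    have hb := Complex.normSq_nonneg (bp (nv F y') y)
    have hA : 0 ≤ ε⁻¹ ^ 4 * Kq F y * Complex.normSq (bp (nv F y') y) *
      Real.exp (-(tau y y') / (8 * ε ^ 2)) := by positivity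
    have hB : 0 ≤ ε⁻¹ ^ 2 * (1 + IIq F y) * Real.exp (-(tau y y') / (16 * ε ^ 2)) := by positivity
    unfold TI_f1 TI_f2
    have hR : 0 ≤ K0 * (1 + r0⁻¹ ^ (m1 + 1) * ε ^ 2) := by positivity
    rw [← ENNReal.ofReal_mul hCt.le, ← ENNReal.ofReal_mul hR,
      ← ENNReal.ofReal_add (mul_nonneg hCt.le hA) (mul_nonneg hR hB),
      ← ENNReal.ofReal_add (add_nonneg (mul_nonneg hCt.le hA) (mul_nonneg hR hB)) hX0]
    apply ENNReal.ofReal_le_ofReal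
    linarith
  have hint : (∫⁻ y in Kr P (r0 / 4), ∫⁻ y', ENNReal.ofReal (ε⁻¹ ^ 4 *
      (N (cr (nv F y) (nv F y')) + ε ^ 2) * Real.exp (-(tau y y') / (8 * ε ^ 2))) ∂μ' ∂μ) ≤
      ENNReal.ofReal Ct * L1 F μ μ' P (r0 / 4) ε +
        ENNReal.ofReal (K0 * (1 + r0⁻¹ ^ (m1 + 1) * ε ^ 2)) * Q2 F μ μ' ε + ENNReal.ofReal X := by
    refine (lintegral_mono_ae (hpt.mono fun y hy => lintegral_mono_ae hy)).trans ?_
    rw [TI_L1, TI_Q2]
    exact TI_lin (TI_f1_meas F ε) (TI_f2_meas F ε) _ _ _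
  have hlast : ENNReal.ofReal (ε⁻¹ ^ 8 * Real.exp (-r0 / (4 * ε ^ 2))) ≤ ENNReal.ofReal X := by
    apply ENNReal.ofReal_le_ofReal
    refine mul_le_mul_of_nonneg_left (Real.exp_le_exp.2 ?_) (by positivity)
    rw [div_le_div_iff₀ (by positivity) hε2]
    have h1 : c * r0 ^ (m1 + 1) ≤ 1 / 4 * r0 :=
      mul_le_mul (min_le_right _ _) hr1' hrp.le (by norm_num)
    nlinarith
  refine (hloss μ μ' hμ hμ' ε r0 hε hε1 hr hr1).trans ?_
  rw [ENNReal.ofReal_mul hC1.le, mul_assoc]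
  gcongr
  refine (add_le_add hint hlast).trans ?_
  set l1 := L1 F μ μ' P (r0 / 4) ε
  set q2 := Q2 F μ μ' ε
  set x := ENNReal.ofReal X
  rw [ENNReal.ofReal_mul hK0p.le]
  set R := ENNReal.ofReal (1 + r0⁻¹ ^ (m1 + 1) * ε ^ 2)
  have ha : ENNReal.ofReal Ct ≤ ENNReal.ofReal (Ct + K0 + 2) :=
    ENNReal.ofReal_le_ofReal (by linarith)
  have hb : ENNReal.ofReal K0 ≤ ENNReal.ofReal (Ct + K0 + 2) :=
    ENNReal.ofReal_le_ofReal (by linarith)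
  have hk : (2 : ENNReal) ≤ ENNReal.ofReal (Ct + K0 + 2) := by
    rw [← ENNReal.ofReal_ofNat 2]
    exact ENNReal.ofReal_le_ofReal (by linarith)
  calc ENNReal.ofReal Ct * l1 + ENNReal.ofReal K0 * R * q2 + x + x =
      ENNReal.ofReal Ct * l1 + ENNReal.ofReal K0 * (R * q2) + 2 * x := by ring
    _ ≤ ENNReal.ofReal (Ct + K0 + 2) * l1 + ENNReal.ofReal (Ct + K0 + 2) * (R * q2) +
        ENNReal.ofReal (Ct + K0 + 2) * x := by gcongr
    _ = ENNReal.ofReal (Ct + K0 + 2) * (l1 + R * q2 + x) := by ring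

end FT76
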