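import Pool.Agent.H76.FT.TI
import Pool.Agent.H76.FT.TD
import Pool.Agent.H76.FT.TE
import Pool.Agent.H76.FT.TF
import Pool.Agent.H76.FT.TG
import Pool.Agent.H85.DC.Mb
import Pool.Agent.H85.DC.FinW

/-!
# Row TJ: choice of the scale

Constants: C1, c, m from `loss3` (wlog m ≥ 1: for m = 0 ... use max m 1, r0 ≤ 1), C2 from `EK`, C3 from `dyadic`; `lelong_pt` for μ', `curv` for μ (K = d + 1), `mass_bound` for both, `q2_tendsto`, `en_small2`.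
Given ρ ≤ 1/2, r, η, ε0.  Choose c' in (0, 1] with `6 c' m ≤ 1` and `C1 C3 C2 * 6 c' ≤ η/8`.  For J : ℕ put s1 = c' J (≥ 1 for large J), r0 = ρ^2 exp(-(6 s1 + 1))/2 (< 1), so `log (1/(r0/4)) = log (8/ρ^2) + 6 c' J + 1`.
`∑_{j ∈ [J, 2J)} L1 (r0/4) ((1/2)^j) ≤ C3 C2 (2 + log(8/ρ^2) + 6 c' J)` (`dyadic`, `EK` with r = r0/4), so some j ∈ [J, 2J) has `L1 ≤ C3 C2 ((2 + log(8/ρ^2))/J + 6 c')`, and `C1` times it is `≤ η/4` for J large.
Let ε = (1/2)^j ≤ (1/2)^J.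
 - `r0^(-m) ε^2 ≤ (2e/ρ^2)^m exp(6 c' m J) 4^(-J) ≤ (2e/ρ^2)^m (e/4)^J ≤ 1` for J large, so `ofReal(1 + ..) * Q2 ≤ 2 Q2 → 0` (`q2_tendsto`: there is δ with Q2 ε ≤ η/(8 C1) for ε < δ).
 - `c r0^m/ε^2 ≥ c (ρ^2/(2e))^m exp(-6c' m J) 4^J ≥ c_ρ (4/e)^J` and `ε^(-8) ≤ 2^(16 J)`: `ε^(-8) exp(-c r0^m/ε^2) ≤ 2^(16J) exp(-c_ρ (4/e)^J) → 0`.
 So Loss ≤ η (ofReal comparison: `ENNReal.ofReal_le_ofReal_iff` with 0 ≤ η).
 - `(1 + En)/s1 ≤ (1 + η' log(1/ε))/(c' J) ≤ (1 + η' 2 J log 2)/(c' J) ≤ η` with η' = c' η/4 and J large (`en_small2`).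
 - ε < ε0 for J large.
-/

open MeasureTheory Filter Topology
open scoped ContDiff BigOperators ComplexConjugate Matrix

namespace FT76

open Pool.Agent.H85.DC

/-- the radius at step `J` -/
noncomputable def TJ_r (ρ c' : ℝ) (J : ℕ) : ℝ := ρ ^ 2 * Real.exp (-(6 * (c' * J) + 1)) / 2

theorem TJ_r_pos {ρ : ℝ} (hρ : 0 < ρ) (c' : ℝ) (J : ℕ) : 0 < TJ_r ρ c' J := by
  unfold TJ_r
  positivity

theorem TJ_r_le {ρ c' : ℝ} (hρ : 0 < ρ) (hρ' : ρ ≤ 1 / 2) (hc : 0 ≤ c') (J : ℕ) : TJ_r ρ c' J < 1 := by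
  unfold TJ_r
  have h1 : Real.exp (-(6 * (c' * J) + 1)) ≤ 1 := Real.exp_le_one_iff.2 (by
    have : 0 ≤ c' * J := by positivity
    linarith)
  have h2 : ρ ^ 2 ≤ 1 := by nlinarith
  have h3 : ρ ^ 2 * Real.exp (-(6 * (c' * J) + 1)) ≤ 1 * 1 :=
    mul_le_mul h2 h1 (Real.exp_pos _).le zero_le_one
  linarith

theorem TJ_log {ρ : ℝ} (hρ : 0 < ρ) (c' : ℝ) (J : ℕ) :
    Real.log (1 / (TJ_r ρ c' J / 4)) = Real.log (8 / ρ ^ 2) + 6 * (c' * J) + 1 := by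
  have h1 : 1 / (TJ_r ρ c' J / 4) = 8 / ρ ^ 2 * Real.exp (6 * (c' * J) + 1) := by
    unfold TJ_r
    rw [Real.exp_neg]
    have := Real.exp_pos (6 * (c' * J) + 1)
    field_simp
    ring
  rw [h1, Real.log_mul (by positivity) (Real.exp_pos _).ne', Real.log_exp]
  ring

/-- `r^(-m) 4^(-J)` is small -/
theorem TJ_lim1 {ρ c' : ℝ} (hρ : 0 < ρ) (m : ℕ) (hc : 6 * c' * m ≤ 1) :
    ∀ᶠ J : ℕ in atTop, (TJ_r ρ c' J)⁻¹ ^ m * ((1 / 4 : ℝ) ^ J) ≤ 1 := by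
  have key : ∀ J : ℕ, (TJ_r ρ c' J)⁻¹ ^ m * ((1 / 4 : ℝ) ^ J) ≤
      (2 * Real.exp 1 / ρ ^ 2) ^ m * (Real.exp 1 / 4) ^ J := by
    intro J
    have h1 : (TJ_r ρ c' J)⁻¹ = (2 * Real.exp 1 / ρ ^ 2) * Real.exp (6 * (c' * J)) := by
      unfold TJ_r
      rw [Real.exp_neg, Real.exp_add]
      have := Real.exp_pos (6 * (c' * J))
      have := Real.exp_pos 1
      field_simp
    rw [h1, mul_pow, ← Real.exp_nat_mul]
    have h2 : Real.exp ((m : ℝ) * (6 * (c' * J))) ≤ Real.exp 1 ^ J := by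
      rw [← Real.exp_nat_mul]
      apply Real.exp_le_exp.2
      have : (J : ℝ) * (6 * c' * m) ≤ J * 1 := mul_le_mul_of_nonneg_left hc (by positivity)
      linarith
    have h3 : (Real.exp 1 / 4) ^ J = Real.exp 1 ^ J * (1 / 4 : ℝ) ^ J := by
      rw [← mul_pow]
      congr 1
      ring
    rw [h3, mul_assoc]
    have hp : (0 : ℝ) ≤ (2 * Real.exp 1 / ρ ^ 2) ^ m := by positivity
    have hq : (0 : ℝ) ≤ (1 / 4 : ℝ) ^ J := by positivity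
    exact mul_le_mul_of_nonneg_left (mul_le_mul_of_nonneg_right h2 hq) hp
  have he : Real.exp 1 < 4 := by
    have := Real.exp_one_lt_d9
    linarith
  have ht : Tendsto (fun J : ℕ => (2 * Real.exp 1 / ρ ^ 2) ^ m * (Real.exp 1 / 4) ^ J) atTop (𝓝 0) := by
    have h := (tendsto_pow_atTop_nhds_zero_of_lt_one (r := Real.exp 1 / 4) (by positivity)
      (by rw [div_lt_one (by norm_num)]; exact he)).const_mul ((2 * Real.exp 1 / ρ ^ 2) ^ m)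
    rwa [mul_zero] at h
  filter_upwards [ht.eventually_le_const (show (0 : ℝ) < 1 by norm_num)] with J hJ
  exact (key J).trans hJ

/-- `2^(16 J) exp (-c r^m 4^J)` is small -/
theorem TJ_lim2 {ρ c' c : ℝ} (hρ : 0 < ρ) (hcc : 0 < c) (m : ℕ) (hc : 6 * c' * m ≤ 1) {β : ℝ} (hβ : 0 < β) :
    ∀ᶠ J : ℕ in atTop, (2 : ℝ) ^ (16 * J) * Real.exp (-(c * TJ_r ρ c' J ^ m) * 4 ^ J) ≤ β := by
  have he0 := Real.exp_pos 1
  have he : Real.exp 1 < 4 := by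
    have := Real.exp_one_lt_d9
    linarith
  obtain ⟨a, ha⟩ : ∃ a : ℝ, a = c * (ρ ^ 2 / (2 * Real.exp 1)) ^ m := ⟨_, rfl⟩
  have ha0 : 0 < a := by rw [ha]; positivity
  have key : ∀ J : ℕ, a * (4 / Real.exp 1) ^ J ≤ c * TJ_r ρ c' J ^ m * 4 ^ J := by
    intro J
    have h1 : TJ_r ρ c' J = (ρ ^ 2 / (2 * Real.exp 1)) * Real.exp (-(6 * (c' * J))) := by
      unfold TJ_r
      rw [neg_add, Real.exp_add, Real.exp_neg 1]
      field_simp
    rw [h1, mul_pow, ← Real.exp_nat_mul, ha]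
    have h2 : (Real.exp 1 ^ J)⁻¹ ≤ Real.exp ((m : ℝ) * (-(6 * (c' * J)))) := by
      rw [← Real.exp_nat_mul, ← Real.exp_neg]
      apply Real.exp_le_exp.2
      have : (J : ℝ) * (6 * c' * m) ≤ J * 1 := mul_le_mul_of_nonneg_left hc (by positivity)
      linarith
    have h3 : (4 / Real.exp 1) ^ J = (Real.exp 1 ^ J)⁻¹ * 4 ^ J := by
      rw [div_pow]
      field_simp
    rw [h3]
    have hp : (0 : ℝ) ≤ c * (ρ ^ 2 / (2 * Real.exp 1)) ^ m := by positivity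
    have hq : (0 : ℝ) ≤ (4 : ℝ) ^ J := by positivity
    calc c * (ρ ^ 2 / (2 * Real.exp 1)) ^ m * ((Real.exp 1 ^ J)⁻¹ * 4 ^ J)
        ≤ c * (ρ ^ 2 / (2 * Real.exp 1)) ^ m * (Real.exp ((m : ℝ) * (-(6 * (c' * J)))) * 4 ^ J) :=
          mul_le_mul_of_nonneg_left (mul_le_mul_of_nonneg_right h2 hq) hp
      _ = _ := by ring
  -- a (4/e)^J - 16 J log 2 tends to infinity
  have hq1 : 1 < 4 / Real.exp 1 := by
    rw [lt_div_iff₀ he0]
    linarith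
  have ht : Tendsto (fun J : ℕ => (J : ℝ) / (4 / Real.exp 1) ^ J) atTop (𝓝 0) := by
    have := tendsto_pow_const_div_const_pow_of_one_lt 1 hq1
    simpa using this
  have hl2 : 0 < Real.log 2 := Real.log_pos (by norm_num)
  have hbig : Tendsto (fun J : ℕ => (4 / Real.exp 1) ^ J) atTop atTop := tendsto_pow_atTop_atTop_of_one_lt hq1
  have h4 : ∀ᶠ J : ℕ in atTop, (J : ℝ) / (4 / Real.exp 1) ^ J ≤ a / (32 * Real.log 2) :=
    ht.eventually_le_const (by positivity)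
  have h5 : ∀ᶠ J : ℕ in atTop, -Real.log β ≤ a / 2 * (4 / Real.exp 1) ^ J := by
    have := hbig.const_mul_atTop (show 0 < a / 2 by positivity)
    exact this.eventually_ge_atTop _
  filter_upwards [h4, h5] with J h4 h5
  have hpos : 0 < (4 / Real.exp 1) ^ J := by positivity
  rw [div_le_iff₀ hpos] at h4
  have h6 : (2 : ℝ) ^ (16 * J) = Real.exp (16 * J * Real.log 2) := by
    rw [← Real.exp_log (show (0 : ℝ) < 2 ^ (16 * J) by positivity), Real.log_pow]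
    push_cast
    ring_nf
  rw [h6, ← Real.exp_add]
  have h7 : Real.exp (Real.log β) = β := Real.exp_log hβ
  rw [← h7]
  apply Real.exp_le_exp.2
  have h8 := key J
  have h9 : 16 * (J : ℝ) * Real.log 2 ≤ a / 2 * (4 / Real.exp 1) ^ J := by
    calc 16 * (J : ℝ) * Real.log 2 ≤ 16 * (a / (32 * Real.log 2) * (4 / Real.exp 1) ^ J) * Real.log 2 := by
          gcongr
      _ = _ := by
          field_simp
          ring
  nlinarith

/-- pigeonhole among the scales -/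
theorem TJ_pigeon (f : ℕ → ENNReal) (B : ℝ) (h : ∑' j, f j ≤ ENNReal.ofReal B) (J : ℕ) (hJ : 0 < J) :
    ∃ j, J ≤ j ∧ j < 2 * J ∧ f j ≤ ENNReal.ofReal (B / J) := by
  by_contra hcon
  push Not at hcon
  have h1 : ∑ j ∈ Finset.Ico J (2 * J), ENNReal.ofReal (B / J) < ∑ j ∈ Finset.Ico J (2 * J), f j := by
    refine ENNReal.sum_lt_sum_of_nonempty ?_ ?_
    · rw [Finset.nonempty_Ico]
      omega
    · intro j hj
      rw [Finset.mem_Ico] at hj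
      exact hcon j hj.1 hj.2
  have h2 := (h1.trans_le (ENNReal.sum_le_tsum _)).trans_le h
  rw [Finset.sum_const, Nat.card_Ico, nsmul_eq_mul, show 2 * J - J = J by omega,
    ← ENNReal.ofReal_natCast, ← ENNReal.ofReal_mul (by positivity)] at h2
  have h3 : (J : ℝ) * (B / J) = B := by
    have : (J : ℝ) ≠ 0 := by positivity
    field_simp
  rw [h3] at h2
  exact lt_irrefl _ h2

theorem TJ_c (m : ℕ) {A η : ℝ} (hA : 0 ≤ A) (hη : 0 < η) :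
    ∃ c' : ℝ, 0 < c' ∧ 6 * c' * m ≤ 1 ∧ A * (6 * c') ≤ η / 8 := by
  obtain ⟨c1, h1⟩ : ∃ c1 : ℝ, c1 = 1 / (6 * ((m : ℝ) + 1)) := ⟨_, rfl⟩
  obtain ⟨c2, h2⟩ : ∃ c2 : ℝ, c2 = η / (48 * (A + 1)) := ⟨_, rfl⟩
  have p1 : 0 < c1 := by rw [h1]; positivity
  have p2 : 0 < c2 := by rw [h2]; positivity
  have q1 : 6 * c1 * m ≤ 1 := by
    rw [h1, show 6 * (1 / (6 * ((m : ℝ) + 1))) * m = m / (m + 1) by field_simp, div_le_one (by positivity)]
    linarith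
  have q2 : A * (6 * c2) ≤ η / 8 := by
    rw [h2, show A * (6 * (η / (48 * (A + 1)))) = (A / (A + 1)) * (η / 8) by field_simp; ring]
    have h4 : A / (A + 1) ≤ 1 := by
      rw [div_le_one (by positivity)]
      linarith
    exact mul_le_of_le_one_left (by positivity) h4
  refine ⟨min c1 c2, lt_min p1 p2, le_trans ?_ q1, le_trans ?_ q2⟩
  · exact mul_le_mul_of_nonneg_right (mul_le_mul_of_nonneg_left (min_le_left _ _) (by norm_num)) (Nat.cast_nonneg m)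
  · exact mul_le_mul_of_nonneg_left (mul_le_mul_of_nonneg_left (min_le_right _ _) (by norm_num)) hA

theorem TJ_en {c' η x : ℝ} {j J : ℕ} (hc' : 0 < c') (hη : 0 < η) (hJ : 0 < (J : ℝ)) (hj : (j : ℝ) ≤ 2 * J)
    (e5 : 2 / (c' * η) ≤ J) (h1 : x ≤ c' * η / 4 * (j * Real.log 2)) : (1 + x) / (c' * J) ≤ η := by
  have hl2 : Real.log 2 < 1 := by
    have := Real.log_two_lt_d9
    linarith
  have h4 : (j : ℝ) * Real.log 2 ≤ 2 * J :=
    (mul_le_mul hj hl2.le (Real.log_pos (by norm_num)).le (by positivity)).trans_eq (mul_one _)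
  have h5 : c' * η / 4 * (j * Real.log 2) ≤ c' * η / 4 * (2 * J) := mul_le_mul_of_nonneg_left h4 (by positivity)
  have h6 : 1 ≤ η * (c' * J) / 2 := by
    rw [div_le_iff₀ (by positivity)] at e5
    linarith
  rw [div_le_iff₀ (by positivity)]
  linarith

theorem TJ_l8 {ρ : ℝ} (hρ : 0 < ρ) (hρ' : ρ ≤ 1 / 2) : 0 ≤ Real.log (8 / ρ ^ 2) := by
  apply Real.log_nonneg
  rw [le_div_iff₀ (by positivity)]
  nlinarith

theorem TJ_exp {a : ℝ} (ha : 0 ≤ a) {j J : ℕ} (hj : J ≤ j) : -a / ((1 / 2 : ℝ) ^ j) ^ 2 ≤ -a * 4 ^ J := by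
  have h22 : ((1 / 2 : ℝ) ^ j) ^ 2 = (4 ^ j)⁻¹ := by
    rw [← pow_mul, mul_comm, pow_mul, ← inv_pow]
    norm_num
  rw [h22, div_inv_eq_mul, neg_mul, neg_mul]
  exact neg_le_neg (mul_le_mul_of_nonneg_left (pow_le_pow_right₀ (by norm_num) hj) ha)

theorem admW {F : Fin 3 → MvPolynomial (Fin 3) ℂ} {d : ℕ} (hF : ∀ j, (F j).IsHomogeneous d) {P : Finset V}
    (hP : SingPts F P) {μ μ' : Measure V} (hμ : IsCur F μ) (hμ' : IsCur F μ') (dμ : DdcClosed F μ)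
    (dμ' : DdcClosed F μ') (hz : ZeroLelongAll F μ) (hz' : ZeroLelongAll F μ') (hE : EK F P μ) : AdmW F μ μ' P := by
  obtain ⟨C1, c, m, hC1, hc, hloss⟩ := loss3 hF hP
  obtain ⟨C2, hC2, hEK⟩ := hE
  obtain ⟨C3, hC3, hdy⟩ := dyadic
  have hlel : ∀ y : V, N y = 1 →
      ∫⁻ y', ENNReal.ofReal (Complex.normSq (bp (nv F y') y) / (tau y y') ^ 2) ∂μ' ≤ 1 :=
    fun y hy => lelong_pt hμ' dμ' hy
  have hcurv : ∫⁻ y, ENNReal.ofReal (IIq F y) ∂μ ≤ ENNReal.ofReal ((d : ℝ) + 1) := by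
    refine (curv hF hμ dμ).trans ?_
    rw [ENNReal.ofReal_add (by positivity) zero_le_one, ENNReal.ofReal_natCast, ENNReal.ofReal_one]
  have hm : ∀ (y : V) (s : ℝ), N y = 1 → 0 < s → (μ {x | tau x y < s ^ 2}).toReal ≤ 4 * s ^ 2 :=
    fun y s hy hs => mass_bound hμ dμ hy hs
  have hm' : ∀ (y : V) (s : ℝ), N y = 1 → 0 < s → (μ' {x | tau x y < s ^ 2}).toReal ≤ 4 * s ^ 2 :=
    fun y s hy hs => mass_bound hμ' dμ' hy hs
  have hq := q2_tendsto hμ hμ' hm' hz' hcurv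
  intro ρ r η ε0 hρ hρ' hr hη hε0
  obtain ⟨c', hc'0, hc'1, hc'2⟩ := TJ_c m (A := C1 * C3 * C2) (by positivity) hη
  obtain ⟨ε1, hε1, hEn⟩ := en_small2 (P := P) hμ hμ' hm hm' hz hz' (r := r) (η := c' * η / 4) (by positivity)
  obtain ⟨ε2, hε2, hQ⟩ : ∃ ε2 : ℝ, 0 < ε2 ∧ ∀ ε, 0 < ε → ε < ε2 → Q2 F μ μ' ε ≤ ENNReal.ofReal (η / (8 * C1)) := by
    have h1 : ∀ᶠ ε in 𝓝[>] (0 : ℝ), Q2 F μ μ' ε ≤ ENNReal.ofReal (η / (8 * C1)) := by
      apply hq.eventually_le_const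
      rw [ENNReal.ofReal_pos]
      positivity
    obtain ⟨u, hu, hu2⟩ := (mem_nhdsGT_iff_exists_Ioo_subset).1 h1
    exact ⟨u, hu, fun ε h2 h3 => hu2 ⟨h2, h3⟩⟩
  -- choice of J
  have hJt : Tendsto (fun J : ℕ => (J : ℝ)) atTop atTop := tendsto_natCast_atTop_atTop
  have e1 : ∀ᶠ J : ℕ in atTop, 1 / c' ≤ J := hJt.eventually_ge_atTop _
  have e2 : ∀ᶠ J : ℕ in atTop, 8 * (C1 * C3 * C2 * (2 + |Real.log (8 / ρ ^ 2)|)) / η ≤ J := hJt.eventually_ge_atTop _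
  have e3 := TJ_lim1 (c' := c') hρ m hc'1
  have e4 := TJ_lim2 (c' := c') hρ hc m hc'1 (β := η / (4 * C1)) (by positivity)
  have e5 : ∀ᶠ J : ℕ in atTop, 2 / (c' * η) ≤ J := hJt.eventually_ge_atTop _
  have e6 : ∀ᶠ J : ℕ in atTop, ((1 / 2 : ℝ)) ^ J < min ε0 (min ε1 ε2) := by
    have := tendsto_pow_atTop_nhds_zero_of_lt_one (r := (1 / 2 : ℝ)) (by norm_num) (by norm_num)
    exact this.eventually_lt_const (lt_min hε0 (lt_min hε1 hε2))
  obtain ⟨J, ⟨⟨⟨⟨⟨⟨e1, e2⟩, e3⟩, e4⟩, e5⟩, e6⟩, e7⟩⟩ := ((((((e1.and e2).and e3).and e4).and e5).and e6).and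
    (eventually_ge_atTop 1)).exists
  have hJ0 : 0 < J := e7
  have hJr : (0 : ℝ) < J := by exact_mod_cast hJ0
  have hr0 := TJ_r_pos hρ c' J
  have hr1 := TJ_r_le hρ hρ' hc'0.le J
  -- pigeonhole
  obtain ⟨B, hBdef⟩ : ∃ B : ℝ, B = C3 * (C2 * (1 + (Real.log (8 / ρ ^ 2) + 6 * (c' * J) + 1))) := ⟨_, rfl⟩
  have hlog : 0 ≤ Real.log (8 / ρ ^ 2) := TJ_l8 hρ hρ'
  have hB0 : 0 ≤ B := by
    rw [hBdef]
    positivity
  have hsum : ∑' j : ℕ, L1 F μ μ' P (TJ_r ρ c' J / 4) ((1 / 2) ^ j) ≤ ENNReal.ofReal B := by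
    refine (hdy F μ μ' P _ hμ hμ' hlel).trans ?_
    rw [hBdef, ENNReal.ofReal_mul hC3.le]
    gcongr
    have h := hEK (TJ_r ρ c' J / 4) (by positivity) (by linarith)
    rwa [TJ_log hρ c' J] at h
  obtain ⟨j, hj1, hj2, hj3⟩ := TJ_pigeon _ B hsum J hJ0
  have hεpos : (0 : ℝ) < (1 / 2) ^ j := by positivity
  have hεJ : ((1 : ℝ) / 2) ^ j ≤ (1 / 2) ^ J := pow_le_pow_of_le_one (by norm_num) (by norm_num) hj1
  have hε1' : ((1 : ℝ) / 2) ^ j < ε1 := lt_of_le_of_lt hεJ (e6.trans_le ((min_le_right _ _).trans (min_le_left _ _)))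
  have hε2' : ((1 : ℝ) / 2) ^ j < ε2 := lt_of_le_of_lt hεJ (e6.trans_le ((min_le_right _ _).trans (min_le_right _ _)))
  have hs1 : 1 ≤ c' * J := by
    rw [div_le_iff₀ hc'0] at e1
    linarith
  refine ⟨(1 / 2) ^ j, hεpos, lt_of_le_of_lt hεJ (e6.trans_le (min_le_left _ _)), c' * J, hs1, ?_, ?_⟩
  · -- the energy
    have h1 := hEn _ hεpos hε1'
    have h2 : Real.log (1 / (1 / 2) ^ j) = j * Real.log 2 := by
      rw [one_div, ← inv_pow, Real.log_pow]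
      norm_num
    rw [h2] at h1
    exact TJ_en hc'0 hη hJr (by exact_mod_cast hj2.le) e5 h1
  · -- the loss
    have hεle : ((1 : ℝ) / 2) ^ j ≤ 1 := pow_le_one₀ (by norm_num) (by norm_num)
    have h0 := hloss μ μ' hμ hμ' ((1 / 2) ^ j) (TJ_r ρ c' J) hεpos hεle hr0 hr1.le
    have hr00 : ρ ^ 2 * Real.exp (-(6 * (c' * J) + 1)) / 2 = TJ_r ρ c' J := rfl
    rw [hr00]
    -- first term
    have t1 : ENNReal.ofReal C1 * L1 F μ μ' P (TJ_r ρ c' J / 4) ((1 / 2) ^ j) ≤ ENNReal.ofReal (η / 4) := by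
      calc ENNReal.ofReal C1 * L1 F μ μ' P (TJ_r ρ c' J / 4) ((1 / 2) ^ j)
          ≤ ENNReal.ofReal C1 * ENNReal.ofReal (B / J) := by gcongr
        _ = ENNReal.ofReal (C1 * (B / J)) := (ENNReal.ofReal_mul hC1.le).symm
        _ ≤ ENNReal.ofReal (η / 4) := by
          apply ENNReal.ofReal_le_ofReal
          have h1 : C1 * (B / J) = C1 * C3 * C2 * (2 + Real.log (8 / ρ ^ 2)) / J + C1 * C3 * C2 * (6 * c') := by
            rw [hBdef]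
            field_simp
            ring
          rw [h1]
          have h2 : C1 * C3 * C2 * (2 + Real.log (8 / ρ ^ 2)) / J ≤ η / 8 := by
            rw [abs_of_nonneg hlog, div_le_iff₀ hη] at e2
            rw [div_le_iff₀ hJr]
            linarith
          linarith
    have t2 : ENNReal.ofReal C1 * (ENNReal.ofReal (1 + (TJ_r ρ c' J)⁻¹ ^ m * ((1 / 2) ^ j) ^ 2) *
        Q2 F μ μ' ((1 / 2) ^ j)) ≤ ENNReal.ofReal (η / 4) := by
      have h1 : 1 + (TJ_r ρ c' J)⁻¹ ^ m * (((1 : ℝ) / 2) ^ j) ^ 2 ≤ 2 := by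
        have h2 : (((1 : ℝ) / 2) ^ j) ^ 2 ≤ (1 / 4) ^ J := by
          calc (((1 : ℝ) / 2) ^ j) ^ 2 ≤ ((1 / 2) ^ J) ^ 2 := by gcongr
            _ = (1 / 4) ^ J := by
              rw [← pow_mul, mul_comm, pow_mul]
              norm_num
        have h3 : (TJ_r ρ c' J)⁻¹ ^ m * (((1 : ℝ) / 2) ^ j) ^ 2 ≤ (TJ_r ρ c' J)⁻¹ ^ m * (1 / 4) ^ J := by
          gcongr
        linarith
      calc ENNReal.ofReal C1 * (ENNReal.ofReal (1 + (TJ_r ρ c' J)⁻¹ ^ m * ((1 / 2) ^ j) ^ 2) *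
          Q2 F μ μ' ((1 / 2) ^ j))
          ≤ ENNReal.ofReal C1 * (ENNReal.ofReal 2 * ENNReal.ofReal (η / (8 * C1))) := by
            gcongr
            exact hQ _ hεpos hε2'
        _ = ENNReal.ofReal (C1 * (2 * (η / (8 * C1)))) := by
            rw [ENNReal.ofReal_mul hC1.le, ENNReal.ofReal_mul (by norm_num)]
        _ = ENNReal.ofReal (η / 4) := by
            congr 1
            field_simp
            norm_num
    have t3 : ENNReal.ofReal C1 * ENNReal.ofReal (((1 / 2 : ℝ) ^ j)⁻¹ ^ 8 *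
        Real.exp (-(c * (TJ_r ρ c' J) ^ m) / ((1 / 2) ^ j) ^ 2)) ≤ ENNReal.ofReal (η / 4) := by
      rw [← ENNReal.ofReal_mul hC1.le]
      apply ENNReal.ofReal_le_ofReal
      have h1 : ((1 / 2 : ℝ) ^ j)⁻¹ ^ 8 ≤ 2 ^ (16 * J) := by
        have h11 : ((1 / 2 : ℝ) ^ j)⁻¹ = 2 ^ j := by
          rw [one_div, inv_pow, inv_inv]
        rw [h11, ← pow_mul]
        exact pow_le_pow_right₀ (by norm_num) (by omega)
      have h2 : -(c * (TJ_r ρ c' J) ^ m) / ((1 / 2) ^ j) ^ 2 ≤ -(c * TJ_r ρ c' J ^ m) * 4 ^ J :=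
        TJ_exp (by positivity) hj1
      calc C1 * (((1 / 2 : ℝ) ^ j)⁻¹ ^ 8 * Real.exp (-(c * (TJ_r ρ c' J) ^ m) / ((1 / 2) ^ j) ^ 2))
          ≤ C1 * (2 ^ (16 * J) * Real.exp (-(c * TJ_r ρ c' J ^ m) * 4 ^ J)) := by
            gcongr
        _ ≤ C1 * (η / (4 * C1)) := by gcongr
        _ = η / 4 := by field_simp
    have hfin : ENNReal.ofReal (Loss F μ μ' P (TJ_r ρ c' J) ((1 / 2) ^ j)) ≤ ENNReal.ofReal η := by
      refine h0.trans ?_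
      rw [mul_add, mul_add]
      refine (add_le_add (add_le_add t1 t2) t3).trans ?_
      rw [← ENNReal.ofReal_add (by positivity) (by positivity), ← ENNReal.ofReal_add (by positivity) (by positivity)]
      apply ENNReal.ofReal_le_ofReal
      linarith
    exact (ENNReal.ofReal_le_ofReal_iff hη.le).1 hfin

end FT76
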