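import Pool.Agent.H76.FT.TJ

/-!
# Row TK: from helper85's hypothesis `EnergyE` to `EK`, and the main theorem without energy hypothesis

1. `dEta_eq_fderiv`: `fderiv ℂ (eta F) y v = dEta F y v` (components: `eta_poly` or `dP_hasDeriv`: the map `x ↦ eta F x` is complex differentiable, being polynomial; the derivative along the line `t ↦ y + t v` at t = 0 is
   `dEta F y v`).
2. `K2_eq`: `K2 F y = Kq F y` when `eta F y ≠ 0`: `tv F y = (√(N eta))⁻¹ • conj(eta)` (the factor is real), `dEta` is linear (`dEta_smul`), `cr` bilinear, `N (c • a) = normSq c * N a`, `normSq ((√e)⁻¹) = 1/e`: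
   `Kq = N (cr (dEta (conj eta)) eta)/(e * e^2)`.
3. `ek_of_energyE`: by `nullst_Kr` there are c > 0, m with `c r^m ≤ N (eta F y)` for y in Kr P r, 0 < r < 1; wlog c < 1 and m ≥ 1, so r' := c r^m is in (0,1) and
   `∫⁻_{Kr P r} Kq ≤ ∫⁻_{r' ≤ N eta} K2 ≤ ofReal (C (1 + log (1/r')))`, `log (1/r') = log (1/c) + m log (1/r)`; C may be replaced by |C|.
4. `mainE`: P from `exists_singPts`; `admW` with μ = μT, μ' = μS gives `AdmW F μT μS P`; `admW_symm`, `closed_of_admW`.
-/

open MeasureTheory Filter Topology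
open scoped ContDiff BigOperators ComplexConjugate Matrix

namespace FT76

open Pool.Agent.H85.DC

theorem TK_diff (p : MvPolynomial (Fin 3) ℂ) :
    Differentiable ℂ (fun y : V => MvPolynomial.eval y p) := by
  induction p using MvPolynomial.induction_on with
  | C a =>
    simp only [MvPolynomial.eval_C]
    exact differentiable_const a
  | add p q hp hq =>
    simp only [map_add]
    exact hp.add hq
  | mul_X p i hp =>
    simp only [map_mul, MvPolynomial.eval_X]
    exact hp.mul (differentiable_apply i)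

theorem TK_eta_diff (F : Fin 3 → MvPolynomial (Fin 3) ℂ) : Differentiable ℂ (eta F) := by
  have hZ : ∀ j, Differentiable ℂ (fun y : V => Zf F y j) := fun j => TK_diff (F j)
  have hy : ∀ j : Fin 3, Differentiable ℂ (fun y : V => y j) := fun j => differentiable_apply j
  refine differentiable_pi.mpr fun j => ?_
  fin_cases j
  · exact ((hy 1).mul (hZ 2)).sub ((hy 2).mul (hZ 1))
  · exact ((hy 2).mul (hZ 0)).sub ((hy 0).mul (hZ 2))
  · exact ((hy 0).mul (hZ 1)).sub ((hy 1).mul (hZ 0))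

theorem TK_deriv (F : Fin 3 → MvPolynomial (Fin 3) ℂ) (y v : V) :
    HasDerivAt (fun t : ℂ => eta F (y + t • v)) (dEta F y v) 0 := by
  have hZ : ∀ j, HasDerivAt (fun t : ℂ => Zf F (y + t • v) j) (dZ F y v j) 0 := by
    intro j
    have h := dP_hasDeriv (F j) y v 0
    rw [zero_smul, add_zero] at h
    exact h
  have hy : ∀ j : Fin 3, HasDerivAt (fun t : ℂ => (y + t • v) j) (v j) 0 := by
    intro j
    have h1 : HasDerivAt (fun t : ℂ => y j + t * v j) (0 + 1 * v j) 0 :=
      (hasDerivAt_const (0 : ℂ) (y j)).add ((hasDerivAt_id (0 : ℂ)).mul_const (v j))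
    rw [zero_add, one_mul] at h1
    exact h1
  have e0 : y + (0 : ℂ) • v = y := by rw [zero_smul, add_zero]
  have hm : ∀ i k : Fin 3, HasDerivAt (fun t : ℂ => (y + t • v) i * Zf F (y + t • v) k)
      (v i * Zf F y k + y i * dZ F y v k) 0 := by
    intro i k
    have h := (hy i).mul (hZ k)
    simp only [e0] at h
    exact h
  refine hasDerivAt_pi.mpr fun j => ?_
  fin_cases j
  · have h := (hm 1 2).sub (hm 2 1)
    have e : dEta F y v 0 = v 1 * Zf F y 2 + y 1 * dZ F y v 2 -
        (v 2 * Zf F y 1 + y 2 * dZ F y v 1) := by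
      show (v 1 * Zf F y 2 - v 2 * Zf F y 1) + (y 1 * dZ F y v 2 - y 2 * dZ F y v 1) = _
      ring
    show HasDerivAt _ (dEta F y v 0) 0
    rw [e]
    exact h
  · have h := (hm 2 0).sub (hm 0 2)
    have e : dEta F y v 1 = v 2 * Zf F y 0 + y 2 * dZ F y v 0 -
        (v 0 * Zf F y 2 + y 0 * dZ F y v 2) := by
      show (v 2 * Zf F y 0 - v 0 * Zf F y 2) + (y 2 * dZ F y v 0 - y 0 * dZ F y v 2) = _
      ring
    show HasDerivAt _ (dEta F y v 1) 0
    rw [e]
    exact h
  · have h := (hm 0 1).sub (hm 1 0)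
    have e : dEta F y v 2 = v 0 * Zf F y 1 + y 0 * dZ F y v 1 -
        (v 1 * Zf F y 0 + y 1 * dZ F y v 0) := by
      show (v 0 * Zf F y 1 - v 1 * Zf F y 0) + (y 0 * dZ F y v 1 - y 1 * dZ F y v 0) = _
      ring
    show HasDerivAt _ (dEta F y v 2) 0
    rw [e]
    exact h

theorem dEta_eq_fderiv (F : Fin 3 → MvPolynomial (Fin 3) ℂ) (y v : V) : fderiv ℂ (eta F) y v = dEta F y v := by
  have h1 : HasDerivAt (fun t : ℂ => y + t • v) v 0 := by
    have h := (hasDerivAt_const (0 : ℂ) y).add ((hasDerivAt_id (0 : ℂ)).smul_const v)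
    rw [zero_add, one_smul] at h
    exact h
  have h2 : HasFDerivAt (eta F) (fderiv ℂ (eta F) y) (y + (0 : ℂ) • v) := by
    rw [zero_smul, add_zero]
    exact (TK_eta_diff F y).hasFDerivAt
  have h3 : HasDerivAt (eta F ∘ fun t : ℂ => y + t • v) (fderiv ℂ (eta F) y v) 0 :=
    HasFDerivAt.comp_hasDerivAt (0 : ℂ) h2 h1
  exact h3.unique (TK_deriv F y v)

theorem K2_eq (F : Fin 3 → MvPolynomial (Fin 3) ℂ) {y : V} (h : eta F y ≠ 0) : K2 F y = Kq F y := by
  have hN : 0 < N (eta F y) := N_pos h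
  set c : ℂ := ((Real.sqrt (N (eta F y)))⁻¹ : ℂ) with hc
  have htv : tv F y = c • (fun j => conj (eta F y j)) := by
    funext j
    show conj (nv F y j) = c * conj (eta F y j)
    show conj (c * eta F y j) = c * conj (eta F y j)
    rw [map_mul, hc, map_inv₀, Complex.conj_ofReal]
  have hnc : Complex.normSq c = (N (eta F y))⁻¹ := by
    rw [hc, map_inv₀, Complex.normSq_ofReal, Real.mul_self_sqrt hN.le]
  unfold K2 Kq
  rw [dEta_eq_fderiv, htv, dEta_smul, cr_smul_left, N_smul, hnc]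
  field_simp

theorem ek_of_energyE {F : Fin 3 → MvPolynomial (Fin 3) ℂ} {P : Finset V} (hP : SingPts F P) {μ : Measure V}
    (hμ : IsCur F μ) (h : EnergyE F μ) : EK F P μ := by
  obtain ⟨C0, hC0⟩ := h
  obtain ⟨c, m, hc, hK⟩ := nullst_Kr hP
  set c' : ℝ := min c (1 / 2) with hc'
  have hc'0 : 0 < c' := lt_min hc (by norm_num)
  have hc'h : c' ≤ 1 / 2 := min_le_right _ _
  have hc'c : c' ≤ c := min_le_left _ _
  have hlc : 0 ≤ Real.log (1 / c') := by
    apply Real.log_nonneg
    rw [le_div_iff₀ hc'0]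
    linarith
  refine ⟨|C0| * (1 + Real.log (1 / c') + (m + 1 : ℕ)), by positivity, fun r hr hr1 => ?_⟩
  set r' : ℝ := c' * r ^ (m + 1) with hr'
  have hrm : 0 < r ^ (m + 1) := pow_pos hr _
  have hrm1 : r ^ (m + 1) ≤ 1 := pow_le_one₀ hr.le hr1.le
  have hr'0 : 0 < r' := mul_pos hc'0 hrm
  have hr'1 : r' < 1 := by
    have : r' ≤ 1 / 2 * 1 := mul_le_mul hc'h hrm1 hrm.le (by norm_num)
    linarith
  have hsub : Kr P r ⊆ {y | r' ≤ N (eta F y)} := by
    intro y hy
    have h1 := hK r hr hr1.le y hy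
    have h2 : r ^ (m + 1) ≤ r ^ m := pow_le_pow_of_le_one hr.le hr1.le (Nat.le_succ m)
    have h3 : r' ≤ c * r ^ m := mul_le_mul hc'c h2 hrm.le hc.le
    exact h3.trans h1
  have hmeas : MeasurableSet {y : V | r' ≤ N (eta F y)} := by
    have h1 : Continuous (fun y : V => N (eta F y)) :=
      continuous_N.comp (TK_eta_diff F).continuous
    exact measurableSet_le measurable_const h1.measurable
  have e1 : ∫⁻ y in {y : V | r' ≤ N (eta F y)}, ENNReal.ofReal (Kq F y) ∂μ =
      ∫⁻ y in {y : V | r' ≤ N (eta F y)}, ENNReal.ofReal (K2 F y) ∂μ := by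
    refine setLIntegral_congr_fun hmeas fun y hy => ?_
    have hne : eta F y ≠ 0 := by
      intro h0
      have h1 : r' ≤ N (eta F y) := hy
      rw [h0] at h1
      have h2 : N (0 : V) = 0 := by simp [N]
      rw [h2] at h1
      linarith
    show ENNReal.ofReal (Kq F y) = ENNReal.ofReal (K2 F y)
    rw [K2_eq F hne]
  calc ∫⁻ y in Kr P r, ENNReal.ofReal (Kq F y) ∂μ
      ≤ ∫⁻ y in {y : V | r' ≤ N (eta F y)}, ENNReal.ofReal (Kq F y) ∂μ :=
        lintegral_mono_set hsub
    _ = ∫⁻ y in {y : V | r' ≤ N (eta F y)}, ENNReal.ofReal (K2 F y) ∂μ := e1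
    _ ≤ ENNReal.ofReal (C0 * (1 + Real.log (1 / r'))) := hC0 r' hr'0 hr'1
    _ ≤ ENNReal.ofReal (|C0| * (1 + Real.log (1 / c') + (m + 1 : ℕ)) *
          (1 + Real.log (1 / r))) := by
      apply ENNReal.ofReal_le_ofReal
      have hl : Real.log (1 / r') = Real.log (1 / c') + (m + 1 : ℕ) * Real.log (1 / r) := by
        rw [hr', one_div, one_div, one_div, Real.log_inv, Real.log_inv, Real.log_inv,
          Real.log_mul hc'0.ne' hrm.ne', Real.log_pow]
        ring
      have hlr : 0 ≤ Real.log (1 / r) := by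
        apply Real.log_nonneg
        rw [le_div_iff₀ hr]
        linarith
      rw [hl]
      set a := Real.log (1 / c')
      set ℓ := Real.log (1 / r)
      have hm0 : (0 : ℝ) ≤ ((m + 1 : ℕ) : ℝ) := Nat.cast_nonneg _
      set M : ℝ := ((m + 1 : ℕ) : ℝ)
      have h1 : C0 * (1 + (a + M * ℓ)) ≤ |C0| * (1 + (a + M * ℓ)) :=
        mul_le_mul_of_nonneg_right (le_abs_self _) (by positivity)
      have h2 : |C0| * (1 + (a + M * ℓ)) ≤ |C0| * ((1 + a + M) * (1 + ℓ)) := by
        apply mul_le_mul_of_nonneg_left _ (abs_nonneg _)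
        nlinarith [mul_nonneg hlc hlr]
      linarith

end FT76

namespace Pool.Agent.H85.DC

/-- Theorem A without energy hypothesis. -/
theorem mainE {F : Fin 3 → MvPolynomial (Fin 3) ℂ} {d : ℕ} (hF : ∀ j, (F j).IsHomogeneous d)
    (hsing : ∃ P : Finset V, ∀ y : V, eta F y = 0 → ∃ p ∈ P, ∃ c : ℂ, y = c • p)
    {μS μT : Measure V} (hS : IsCur F μS) (hT : IsCur F μT) (dS : DdcClosed F μS)
    (dT : DdcClosed F μT) (zS : ZeroLelongAll F μS) (zT : ZeroLelongAll F μT) (hE : EnergyE F μT) :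
    (∀ ζ : V → V, IsCov ζ → ∫ y, pr F (db ζ) y ∂μS = ∫ y, pr F (db ζ) y ∂μT) ∧
      (CurClosed F μT → CurClosed F μS) := by
  obtain ⟨P, hP⟩ := exists_singPts hF hsing
  have hadm := FT76.admW hF hP hT hS dT dS zT zS (FT76.ek_of_energyE hP hT hE)
  exact closed_of_admW hP hS hT dS dT (admW_symm hadm)

end Pool.Agent.H85.DC
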